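import Pool.Agent.Helper16.SQG.Ring

/-!
# FORM: permanents as products of linear forms, acyclic matrices, coupling of two entries
-/

set_option autoImplicit false
set_option linter.unusedSectionVars false

namespace Pool.Agent.Helper97.Form

open Finset Helper16.SQG

section Forms

variable {ι A B : Type} [Fintype ι] [DecidableEq ι] [CommRing A] [CommRing B]

theorem permanent_reindex {κ : Type} [Fintype κ] [DecidableEq κ] (eR eC : κ ≃ ι) (M : Matrix ι ι A) :
    (Matrix.of fun i j => M (eR i) (eC j)).permanent = M.permanent := by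
  have h1 : (Matrix.of fun i j => M (eR i) (eC j) : Matrix κ κ A).permanent =
      (Matrix.of fun i j => M (eC i) (eC j) : Matrix κ κ A).permanent := by
    have := Matrix.permanent_permute_cols (eR.trans eC.symm)
      (Matrix.of fun i j => M (eC i) (eC j) : Matrix κ κ A)
    rw [← this]
    congr 1
    ext i j
    simp [Matrix.submatrix]
  rw [h1]
  unfold Matrix.permanent
  refine Fintype.sum_equiv (Equiv.permCongr eC) _ _ fun σ => ?_
  refine Fintype.prod_equiv eC _ _ fun i => ?_
  simp [Equiv.permCongr]

theorem perm_forms (f : A →+* B) (M : Matrix ι ι A) (x : ι → B) (hx : ∀ c, x c * x c = 0) :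
    ∏ i, ∑ j, f (M i j) * x j = f M.permanent * ∏ j, x j := by
  classical
  let e := (Fintype.equivFin ι).symm
  have := prod_forms' f e e (fun i j => M i j) x hx
  rw [this, ← permanent_reindex e e M]

theorem perm_of_forms (M : Matrix ι ι A) (z : A)
    (h : ∀ (B : Type) [CommRing B] (f : A →+* B) (x : ι → B), (∀ c, x c * x c = 0) →
      ∏ i, ∑ j, f (M i j) * x j = f z * ∏ j, x j) : M.permanent = z := by
  apply xs_inj ι A
  have h1 := perm_forms (algebraMap A (SqR ι A)) M (xs ι A) (xs_sq ι A)
  have h2 := h (SqR ι A) (algebraMap A (SqR ι A)) (xs ι A) (xs_sq ι A)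
  rw [← h1, h2]

/-- too many linear forms -/
theorem prod_forms_zero (x : ι → B) (hx : ∀ c, x c * x c = 0) {κ : Type} (s : Finset κ)
    (g : κ → ι → B) (hs : Fintype.card ι < s.card) : ∏ k ∈ s, ∑ j, g k j * x j = 0 := by
  classical
  have h := mul_prod_mem_Deg hx (one_mem_Deg (x := x) (univ : Finset ι)) s
    (fun k => ∑ j, g k j * x j) (fun k _ => sum_mem_Deg (subset_refl _) _)
  rw [one_mul, zero_add] at h
  exact Deg_eq_zero (by rw [card_univ]; exact hs) h

end Forms

section Acyclic

variable {τ A : Type} [Fintype τ] [DecidableEq τ] [CommRing A]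

/-- The matrix of an acyclic graph with self-loops on `τ` and an extra vertex. -/
def acy (a : A) (u v : τ → A) (N : τ → τ → A) : Matrix (Option τ) (Option τ) A :=
  Matrix.of fun i j => match i, j with
    | none, none => a
    | none, some j => u j
    | some i, none => v i
    | some i, some j => (if i = j then 1 else 0) + N i j

theorem acy_aux {B : Type} [CommRing B] (r : τ → ℕ) (v x : τ → B) (N : τ → τ → B) (y : B)
    (hy : y * y = 0) (t : τ → B) (ht : ∀ i, t i * t i = 0) (hN : ∀ i j, N i j ≠ 0 → r j < r i)
    (S : Finset τ) : (∀ i ∈ S, x i = v i + ∑ j ∈ S, N i j * x j) →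
      ∃ G : B, (∏ i ∈ S, (v i * y + (t i + ∑ j ∈ S, N i j * t j)) = ∏ i ∈ S, t i + y * G) ∧
        ∀ u : τ → B, (∑ i ∈ S, u i * t i) * G = (∑ i ∈ S, u i * x i) * ∏ i ∈ S, t i := by
  induction S using Finset.induction_on_max_value r with
  | empty =>
    intro _
    exact ⟨0, by simp, by simp⟩
  | insert a S ha hmax ih =>
    intro hx
    have hz : ∀ i ∈ S, N i a = 0 := by
      intro i hi
      by_contra h
      have := hN i a h
      have := hmax i hi
      omega
    have haa : N a a = 0 := by
      by_contra h
      exact lt_irrefl _ (hN a a h)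
    obtain ⟨G, h1, h2⟩ := ih (fun i hi => by
      rw [hx i (mem_insert_of_mem hi), sum_insert ha, hz i hi, zero_mul, zero_add])
    have hTa : ∀ w : τ → B, (∑ i ∈ S, w i * t i) * ∏ i ∈ S, t i = 0 := by
      intro w
      rw [sum_mul]
      refine sum_eq_zero fun i hi => ?_
      rw [← mul_prod_erase S t hi]
      linear_combination (w i * ∏ i ∈ S.erase i, t i) * ht i
    have hxa : x a = v a + ∑ j ∈ S, N a j * x j := by
      rw [hx a (mem_insert_self _ _), sum_insert ha, haa, zero_mul, zero_add]
    refine ⟨t a * G + x a * ∏ i ∈ S, t i, ?_, ?_⟩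
    · rw [prod_insert ha, prod_insert ha, sum_insert ha, haa, zero_mul, zero_add]
      have e1 : ∏ i ∈ S, (v i * y + (t i + ∑ j ∈ insert a S, N i j * t j)) =
          ∏ i ∈ S, (v i * y + (t i + ∑ j ∈ S, N i j * t j)) := by
        refine prod_congr rfl fun i hi => ?_
        rw [sum_insert ha, hz i hi, zero_mul, zero_add]
      rw [e1, h1, hxa]
      have h3 := h2 (N a)
      have h4 := hTa (N a)
      linear_combination y * h3 + h4 + (v a * G) * hy
    · intro u
      rw [sum_insert ha, sum_insert ha, prod_insert ha]
      have h3 := h2 u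
      have h4 := hTa u
      linear_combination (t a) * h3 + (x a) * h4 + (u a * G) * ht a

/-- The permanent of the matrix of an acyclic graph with self-loops and an extra vertex is the
total weight of the cycles through the extra vertex; `x i` is the total weight of the paths from
`i` to the extra vertex. -/
theorem perm_acy (r : τ → ℕ) (a : A) (u v x : τ → A) (N : τ → τ → A)
    (hN : ∀ i j, N i j ≠ 0 → r j < r i) (hx : ∀ i, x i = v i + ∑ j, N i j * x j) :
    (acy a u v N).permanent = a + ∑ i, u i * x i := by
  apply perm_of_forms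
  intro B _ f t ht
  rw [Fintype.prod_option, Fintype.prod_option, Fintype.sum_option]
  obtain ⟨G, h1, h2⟩ := acy_aux r (fun i => f (v i)) (fun i => f (x i)) (fun i j => f (N i j))
    (t none) (ht none) (fun i => t (some i)) (fun i => ht _)
    (fun i j h => hN i j (fun h0 => h (by rw [h0, map_zero]))) univ
    (fun i _ => by rw [hx i, map_add, map_sum]; simp only [map_mul])
  have e1 : ∀ i : τ, ∑ j : Option τ, f (acy a u v N (some i) j) * t j =
      f (v i) * t none + (t (some i) + ∑ j, f (N i j) * t (some j)) := by
    intro i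
    rw [Fintype.sum_option]
    congr 1
    have : ∀ j : τ, f (acy a u v N (some i) (some j)) * t (some j) =
        (if i = j then t (some j) else 0) + f (N i j) * t (some j) := by
      intro j
      show f ((if i = j then 1 else 0) + N i j) * t (some j) = _
      rw [map_add, add_mul]
      congr 1
      split_ifs
      · rw [map_one, one_mul]
      · rw [map_zero, zero_mul]
    rw [sum_congr rfl fun j _ => this j, sum_add_distrib, sum_ite_eq, if_pos (mem_univ i)]
  rw [prod_congr rfl fun i _ => e1 i, h1]
  have h3 := h2 fun i => f (u i)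
  have h4 : (∑ i : τ, f (u i) * t (some i)) * ∏ i, t (some i) = 0 := by
    rw [sum_mul]
    refine sum_eq_zero fun i hi => ?_
    rw [← mul_prod_erase univ (fun i => t (some i)) hi]
    linear_combination (f (u i) * ∏ i ∈ univ.erase i, t (some i)) * ht (some i)
  show (f a * t none + ∑ i, f (u i) * t (some i)) * (∏ i, t (some i) + t none * G) = _
  rw [map_add, map_sum]
  simp only [map_mul]
  linear_combination (t none) * h3 + h4 + (f a * G) * ht none

end Acyclic

end Pool.Agent.Helper97.Form
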