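import Pool.Agent.Helper97.Form.Der

/-!
# FORM: Kalorkoti's bound
-/

set_option autoImplicit false
set_option linter.unusedSectionVars false

namespace Pool.Agent.Helper97.Form

open MvPolynomial Pool.Agent.Helper71.Fml

section Good

variable {K V : Type} [Field K] [DecidableEq V]

/-- `1, f, f ^ 2` and all derivatives `D v f`, `v ∉ D₀`, lie in a space of dimension at most `k`
over the field of the functions without variables of `D₀`. -/
def Good (D₀ : Finset V) (f : FractionRing (MvPolynomial V K)) (k : ℕ) : Prop :=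
  ∃ W : Submodule (KK K D₀) (FractionRing (MvPolynomial V K)), Module.Finite (KK K D₀) W ∧
    Module.finrank (KK K D₀) W ≤ k ∧ (1 : (FractionRing (MvPolynomial V K))) ∈ W ∧ f ∈ W ∧ f * f ∈ W ∧ ∀ v ∉ D₀, D v f ∈ W

variable {D₀ : Finset V}

theorem finrank_span_singleton_le (a : FractionRing (MvPolynomial V K)) :
    Module.finrank (KK K D₀) (Submodule.span (KK K D₀) {a}) ≤ 1 := by
  have : Module.finrank (KK K D₀) (Submodule.span (KK K D₀) ({a} : Set (FractionRing (MvPolynomial V K)))) ≤ _ :=
    finrank_span_le_card ({a} : Set (FractionRing (MvPolynomial V K)))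
  simpa using this

theorem Good.mono {f : FractionRing (MvPolynomial V K)} {k l : ℕ} (h : Good D₀ f k) (hkl : k ≤ l) :
    Good D₀ f l := by
  obtain ⟨W, h1, h2, h3⟩ := h
  exact ⟨W, h1, h2.trans hkl, h3⟩

theorem smul_mem' {W : Submodule (KK K D₀) (FractionRing (MvPolynomial V K))}
    {c x : FractionRing (MvPolynomial V K)} (hc : c ∈ KK K D₀) (hx : x ∈ W) : c * x ∈ W :=
  W.smul_mem (⟨c, hc⟩ : KK K D₀) hx

theorem good_of_mem {f : FractionRing (MvPolynomial V K)} (hf : f ∈ KK K D₀) : Good D₀ f 1 := by
  have h1 : (1 : (FractionRing (MvPolynomial V K))) ∈ Submodule.span (KK K D₀) ({1} : Set (FractionRing (MvPolynomial V K))) := Submodule.mem_span_singleton_self _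
  have h2 : ∀ x ∈ KK K D₀, x ∈ Submodule.span (KK K D₀) ({1} : Set (FractionRing (MvPolynomial V K))) := by
    intro x hx
    have := smul_mem' hx h1
    rwa [mul_one] at this
  exact ⟨Submodule.span (KK K D₀) {1}, inferInstance, finrank_span_singleton_le 1, h1, h2 f hf,
    h2 _ (mul_mem hf hf), fun v _ => h2 _ (D_mem_KK v hf)⟩

theorem Good.inv {f : FractionRing (MvPolynomial V K)} {k : ℕ} (h : Good D₀ f k) :
    Good D₀ f⁻¹ k := by
  by_cases hf : f = 0
  · subst hf
    rw [inv_zero]
    exact h
  obtain ⟨W, h1, h2, h3, h4, h5, h6⟩ := h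
  let μ : (FractionRing (MvPolynomial V K)) →ₗ[KK K D₀] (FractionRing (MvPolynomial V K)) := LinearMap.mulLeft (KK K D₀) (f⁻¹ * f⁻¹)
  have hμ : ∀ x, x ∈ W → f⁻¹ * f⁻¹ * x ∈ W.map μ := fun x hx => Submodule.mem_map_of_mem hx
  refine ⟨W.map μ, inferInstance, (Submodule.finrank_map_le μ W).trans h2, ?_, ?_, ?_, ?_⟩
  · have := hμ _ h5
    rwa [show f⁻¹ * f⁻¹ * (f * f) = 1 by field_simp] at this
  · have := hμ _ h4
    rwa [show f⁻¹ * f⁻¹ * f = f⁻¹ by field_simp] at this
  · have := hμ _ h3
    rwa [mul_one] at this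
  · intro v hv
    rw [D_inv]
    exact neg_mem (hμ _ (h6 v hv))

theorem Good.addK {f c : FractionRing (MvPolynomial V K)} {k : ℕ} (h : Good D₀ f k)
    (hc : c ∈ KK K D₀) : Good D₀ (f + c) k := by
  obtain ⟨W, h1, h2, h3, h4, h5, h6⟩ := h
  have hcW : ∀ x ∈ KK K D₀, x ∈ W := by
    intro x hx
    have := smul_mem' hx h3
    rwa [mul_one] at this
  refine ⟨W, h1, h2, h3, add_mem h4 (hcW c hc), ?_, ?_⟩
  · have : (f + c) * (f + c) = f * f + (c * f + (c * f + c * c)) := by ring
    rw [this]
    exact add_mem h5 (add_mem (smul_mem' hc h4) (add_mem (smul_mem' hc h4)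
      (hcW _ (mul_mem hc hc))))
  · intro v hv
    rw [D_add]
    exact add_mem (h6 v hv) (hcW _ (D_mem_KK v hc))

theorem Good.mulK {f c : FractionRing (MvPolynomial V K)} {k : ℕ} (h : Good D₀ f k)
    (hc : c ∈ KK K D₀) : Good D₀ (f * c) k := by
  obtain ⟨W, h1, h2, h3, h4, h5, h6⟩ := h
  refine ⟨W, h1, h2, h3, ?_, ?_, ?_⟩
  · rw [mul_comm]
    exact smul_mem' hc h4
  · have : f * c * (f * c) = (c * c) * (f * f) := by ring
    rw [this]
    exact smul_mem' (mul_mem hc hc) h5
  · intro v hv
    rw [D_mul, mul_comm f]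
    exact add_mem (smul_mem' (D_mem_KK v hc) h4) (smul_mem' hc (h6 v hv))

theorem finrank_sup_le' (W W' : Submodule (KK K D₀) (FractionRing (MvPolynomial V K)))
    [Module.Finite (KK K D₀) W] [Module.Finite (KK K D₀) W'] :
    Module.finrank (KK K D₀) (W ⊔ W' : Submodule _ _) ≤
      Module.finrank (KK K D₀) W + Module.finrank (KK K D₀) W' :=
  Submodule.finrank_add_le_finrank_add_finrank W W'

theorem Good.add {f g : FractionRing (MvPolynomial V K)} {k l : ℕ} (h : Good D₀ f k)
    (h' : Good D₀ g l) : Good D₀ (f + g) (k + l + 1) := by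
  obtain ⟨W, h1, h2, h3, h4, h5, h6⟩ := h
  obtain ⟨W', h1', h2', h3', h4', h5', h6'⟩ := h'
  have l1 : W ≤ W ⊔ W' ⊔ Submodule.span (KK K D₀) {f * g} := le_sup_left.trans le_sup_left
  have l2 : W' ≤ W ⊔ W' ⊔ Submodule.span (KK K D₀) {f * g} := le_sup_right.trans le_sup_left
  have l3 : f * g ∈ W ⊔ W' ⊔ Submodule.span (KK K D₀) {f * g} :=
    (le_sup_right : _ ≤ W ⊔ W' ⊔ Submodule.span (KK K D₀) {f * g})
      (Submodule.mem_span_singleton_self _)
  refine ⟨W ⊔ W' ⊔ Submodule.span (KK K D₀) {f * g}, inferInstance, ?_, l1 h3,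
    add_mem (l1 h4) (l2 h4'), ?_, ?_⟩
  · refine (finrank_sup_le' _ _).trans ?_
    have e1 := finrank_sup_le' W W'
    have e2 := finrank_span_singleton_le (D₀ := D₀) (f * g)
    omega
  · have : (f + g) * (f + g) = f * f + (f * g + (f * g + g * g)) := by ring
    rw [this]
    exact add_mem (l1 h5) (add_mem l3 (add_mem l3 (l2 h5')))
  · intro v hv
    rw [D_add]
    exact add_mem (l1 (h6 v hv)) (l2 (h6' v hv))

theorem Good.mul {f g : FractionRing (MvPolynomial V K)} {k l : ℕ} (h : Good D₀ f k)
    (h' : Good D₀ g l) : Good D₀ (f * g) (k + l + 2) := by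
  obtain ⟨W, h1, h2, h3, h4, h5, h6⟩ := h
  obtain ⟨W', h1', h2', h3', h4', h5', h6'⟩ := h'
  let μ : (FractionRing (MvPolynomial V K)) →ₗ[KK K D₀] (FractionRing (MvPolynomial V K)) := LinearMap.mulLeft (KK K D₀) f
  let ν : (FractionRing (MvPolynomial V K)) →ₗ[KK K D₀] (FractionRing (MvPolynomial V K)) := LinearMap.mulLeft (KK K D₀) g
  have hμ : ∀ x, x ∈ W' → f * x ∈ W'.map μ := fun x hx => Submodule.mem_map_of_mem hx
  have hν : ∀ x, x ∈ W → g * x ∈ W.map ν := fun x hx => Submodule.mem_map_of_mem hx
  let U : Submodule (KK K D₀) (FractionRing (MvPolynomial V K)) := W'.map μ ⊔ W.map ν ⊔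
    (Submodule.span (KK K D₀) {1} ⊔ Submodule.span (KK K D₀) {f * f * (g * g)})
  have l1 : W'.map μ ≤ U := le_sup_left.trans le_sup_left
  have l2 : W.map ν ≤ U := le_sup_right.trans le_sup_left
  have l3 : (1 : (FractionRing (MvPolynomial V K))) ∈ U := (le_sup_left.trans le_sup_right : Submodule.span (KK K D₀) {1} ≤ U)
    (Submodule.mem_span_singleton_self _)
  have l4 : f * f * (g * g) ∈ U :=
    (le_sup_right.trans le_sup_right : Submodule.span (KK K D₀) {f * f * (g * g)} ≤ U)
      (Submodule.mem_span_singleton_self _)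
  refine ⟨U, inferInstance, ?_, l3, l1 (hμ g h4'), ?_, ?_⟩
  · refine (finrank_sup_le' _ _).trans ?_
    have e1 := finrank_sup_le' (W'.map μ) (W.map ν)
    have e2 := finrank_sup_le' (Submodule.span (KK K D₀) {(1 : (FractionRing (MvPolynomial V K)))})
      (Submodule.span (KK K D₀) {f * f * (g * g)})
    have e3 := finrank_span_singleton_le (D₀ := D₀) (f * f * (g * g))
    have e4 := finrank_span_singleton_le (D₀ := D₀) (1 : (FractionRing (MvPolynomial V K)))
    have e5 := Submodule.finrank_map_le μ W'
    have e6 := Submodule.finrank_map_le ν W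
    omega
  · have : f * g * (f * g) = f * f * (g * g) := by ring
    rw [this]
    exact l4
  · intro v hv
    rw [D_mul]
    exact add_mem (l1 (hμ _ (h6' v hv))) (l2 (hν _ (h6 v hv)))

/-- The induction over the formula. -/
theorem formula_good (D₀ : Finset V) (φ : Formula K V) :
    (φ.leavesIn D₀ = 0 → φ.eval ∈ KK K D₀) ∧
      (1 ≤ φ.leavesIn D₀ → Good D₀ φ.eval (5 * φ.leavesIn D₀ - 2)) := by
  -- closure under multiplication and addition
  have hadd : ∀ (f g : (FractionRing (MvPolynomial V K))) (a b : ℕ), ((a = 0 → f ∈ KK K D₀) ∧ (1 ≤ a → Good D₀ f (5 * a - 2))) →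
      ((b = 0 → g ∈ KK K D₀) ∧ (1 ≤ b → Good D₀ g (5 * b - 2))) →
      ((a + b = 0 → f + g ∈ KK K D₀) ∧ (1 ≤ a + b → Good D₀ (f + g) (5 * (a + b) - 2))) := by
    rintro f g a b ⟨ha0, ha1⟩ ⟨hb0, hb1⟩
    refine ⟨fun h => add_mem (ha0 (by omega)) (hb0 (by omega)), fun h => ?_⟩
    rcases Nat.eq_zero_or_pos a with h0 | h0
    · subst h0
      rw [zero_add, add_comm f g]
      exact (hb1 (by omega)).addK (ha0 rfl)
    · rcases Nat.eq_zero_or_pos b with h1 | h1
      · subst h1
        exact (ha1 h0).addK (hb0 rfl)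
      · exact ((ha1 h0).add (hb1 h1)).mono (by omega)
  have hmul : ∀ (f g : (FractionRing (MvPolynomial V K))) (a b : ℕ), ((a = 0 → f ∈ KK K D₀) ∧ (1 ≤ a → Good D₀ f (5 * a - 2))) →
      ((b = 0 → g ∈ KK K D₀) ∧ (1 ≤ b → Good D₀ g (5 * b - 2))) →
      ((a + b = 0 → f * g ∈ KK K D₀) ∧ (1 ≤ a + b → Good D₀ (f * g) (5 * (a + b) - 2))) := by
    rintro f g a b ⟨ha0, ha1⟩ ⟨hb0, hb1⟩
    refine ⟨fun h => mul_mem (ha0 (by omega)) (hb0 (by omega)), fun h => ?_⟩
    rcases Nat.eq_zero_or_pos a with h0 | h0
    · subst h0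
      rw [zero_add, mul_comm f g]
      exact (hb1 (by omega)).mulK (ha0 rfl)
    · rcases Nat.eq_zero_or_pos b with h1 | h1
      · subst h1
        exact (ha1 h0).mulK (hb0 rfl)
      · exact ((ha1 h0).mul (hb1 h1)).mono (by omega)
  induction φ with
  | const c =>
    refine ⟨fun _ => algebraMap_mem_KK ?_, fun h => ?_⟩
    · rw [← algebraMap_eq]
      exact (R0 K D₀).algebraMap_mem c
    · simp [Formula.leavesIn] at h
  | var v =>
    simp only [Formula.leavesIn, Formula.eval]
    by_cases hv : v ∈ D₀
    · rw [if_pos hv]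
      refine ⟨fun h => absurd h one_ne_zero, fun _ => ?_⟩
      let y : (FractionRing (MvPolynomial V K)) := algebraMap (MvPolynomial V K) (FractionRing (MvPolynomial V K)) (X v)
      let U : Submodule (KK K D₀) (FractionRing (MvPolynomial V K)) := Submodule.span (KK K D₀) {1} ⊔
        (Submodule.span (KK K D₀) {y} ⊔ Submodule.span (KK K D₀) {y * y})
      refine ⟨U, inferInstance, ?_, ?_, ?_, ?_, ?_⟩
      · refine (finrank_sup_le' _ _).trans ?_
        have e2 := finrank_sup_le' (D₀ := D₀) (Submodule.span (KK K D₀) {y})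
          (Submodule.span (KK K D₀) {y * y})
        have e3 := finrank_span_singleton_le (D₀ := D₀) y
        have e4 := finrank_span_singleton_le (D₀ := D₀) (1 : (FractionRing (MvPolynomial V K)))
        have e5 := finrank_span_singleton_le (D₀ := D₀) (y * y)
        omega
      · exact (le_sup_left : Submodule.span (KK K D₀) {1} ≤ U) (Submodule.mem_span_singleton_self _)
      · exact (le_sup_left.trans le_sup_right : Submodule.span (KK K D₀) {y} ≤ U)
          (Submodule.mem_span_singleton_self _)
      · exact (le_sup_right.trans le_sup_right : Submodule.span (KK K D₀) {y * y} ≤ U)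
          (Submodule.mem_span_singleton_self _)
      · intro w hw
        rw [D_algebraMap, pderiv_X, Pi.single_eq_of_ne, map_zero]
        · exact zero_mem _
        · rintro rfl
          exact hw hv
    · rw [if_neg hv]
      refine ⟨fun _ => algebraMap_mem_KK ?_, fun h => absurd h (by omega)⟩
      exact X_mem_supported.2 hv
  | add a b iha ihb => exact hadd _ _ _ _ iha ihb
  | mul a b iha ihb => exact hmul _ _ _ _ iha ihb
  | div a b iha ihb =>
    simp only [Formula.leavesIn, Formula.eval]
    rw [div_eq_mul_inv]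
    exact hmul _ _ _ _ iha ⟨fun h => inv_mem (ihb.1 h), fun h => (ihb.2 h).inv⟩

end Good

section Indep

variable {K V : Type} [Field K] [DecidableEq V]

/-- substitution of constants for the variables of `D` -/
noncomputable def sub (D : Finset V) (b : V → K) : MvPolynomial V K →ₐ[K] MvPolynomial V K :=
  aeval fun v => if v ∈ D then C (b v) else X v

theorem sub_eq {D : Finset V} (b : V → K) {p : MvPolynomial V K} (hp : p ∈ R0 K D) :
    sub D b p = p := by
  unfold R0 supported at hp
  induction hp using Algebra.adjoin_induction with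
  | mem x hx =>
    obtain ⟨w, hw, rfl⟩ := hx
    unfold sub
    rw [aeval_X, if_neg hw]
  | algebraMap r => rw [AlgHom.commutes]
  | add x y _ _ hx hy => rw [map_add, hx, hy]
  | mul x y hx' hy' hx hy => rw [map_mul, hx, hy]

theorem eval_sub {D : Finset V} (b x : V → K) (p : MvPolynomial V K) :
    eval x (sub D b p) = eval (fun v => if v ∈ D then b v else x v) p := by
  have h : (eval x).comp (sub D b : (MvPolynomial V K) →ₐ[K] (MvPolynomial V K)).toRingHom =
      eval (fun v => if v ∈ D then b v else x v) := by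
    apply MvPolynomial.ringHom_ext
    · intro r
      show eval x (sub D b (C r)) = _
      rw [← algebraMap_eq, AlgHom.commutes, algebraMap_eq, eval_C, eval_C]
    · intro v
      show eval x (sub D b (X v)) = _
      unfold sub
      rw [aeval_X, eval_X]
      split_ifs <;> simp
  exact congrArg (fun f : (MvPolynomial V K) →+* K => f p) h

/-- unit vectors are combinations of the values of linearly independent functions -/
theorem exists_comb {β ι : Type} [Fintype ι] [DecidableEq ι] (g : ι → β → K)
    (hg : LinearIndependent K g) (k : ι) : ∃ c : β →₀ K, ∀ i, (c.sum fun b a => a * g i b) =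
      if i = k then 1 else 0 := by
  have htop : Submodule.span K (Set.range fun b : β => fun i : ι => g i b) = ⊤ := by
    by_contra hne
    obtain ⟨f, hf, hf2⟩ := Submodule.exists_le_ker_of_lt_top _ (lt_top_iff_ne_top.2 hne)
    apply hf
    have h0 : ∀ i, f (Pi.single i 1) = 0 := by
      apply Fintype.linearIndependent_iff.1 hg (fun i => f (Pi.single i 1))
      funext b
      have h1 : f (fun i => g i b) = 0 := hf2 (Submodule.subset_span ⟨b, rfl⟩)
      have h2 : (fun i => g i b) = ∑ i, g i b • (Pi.single i 1 : ι → K) := by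
        funext i
        simp [Finset.sum_apply, Pi.single_apply]
      rw [h2, map_sum] at h1
      simp only [map_smul, smul_eq_mul] at h1
      rw [Finset.sum_apply, Pi.zero_apply, ← h1]
      exact Finset.sum_congr rfl fun i _ => mul_comm _ _
    apply LinearMap.pi_ext'
    intro i
    apply LinearMap.ext_ring
    simpa using h0 i
  have hmem : (Pi.single k 1 : ι → K) ∈ Submodule.span K (Set.range fun b : β => fun i : ι => g i b) := by
    rw [htop]
    trivial
  obtain ⟨c, hc⟩ := (Finsupp.mem_span_range_iff_exists_finsupp).1 hmem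
  refine ⟨c, fun i => ?_⟩
  have := congrFun hc i
  rw [Finsupp.sum_apply'] at this
  rw [Pi.single_apply] at this
  exact this

theorem indep_KK {D₀ : Finset V} {ι : Type} [Fintype ι] (g : ι → MvPolynomial V K) (x : V → K)
    (hli : LinearIndependent K (fun i => fun b : V → K =>
      eval (fun v => if v ∈ D₀ then b v else x v) (g i))) :
    LinearIndependent (KK K D₀) (fun i => algebraMap (MvPolynomial V K) (FractionRing (MvPolynomial V K)) (g i)) := by
  classical
  choose c hc using exists_comb _ hli
  rw [Fintype.linearIndependent_iff]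
  intro r hr
  choose p hp q hq hq0 hpq using fun i => mem_KK.1 (r i).2
  -- clear the denominators
  let P : ι → (MvPolynomial V K) := fun i => p i * ∏ j ∈ Finset.univ.erase i, q j
  have hP : ∀ i, P i ∈ R0 K D₀ := fun i => mul_mem (hp i) (prod_mem fun j _ => hq j)
  have hq1 : ∀ i, algebraMap (MvPolynomial V K) (FractionRing (MvPolynomial V K)) (q i) ≠ 0 := fun i h => hq0 i
    (IsFractionRing.injective (MvPolynomial V K) (FractionRing (MvPolynomial V K)) (by rw [h, map_zero]))
  have h1 : ∑ i, P i * g i = 0 := by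
    apply IsFractionRing.injective (MvPolynomial V K) (FractionRing (MvPolynomial V K))
    rw [map_zero, map_sum]
    have h2 : ∀ i, algebraMap (MvPolynomial V K) (FractionRing (MvPolynomial V K)) (P i * g i) = (∏ j, algebraMap (MvPolynomial V K) (FractionRing (MvPolynomial V K)) (q j)) *
        ((r i : (FractionRing (MvPolynomial V K))) * algebraMap (MvPolynomial V K) (FractionRing (MvPolynomial V K)) (g i)) := by
      intro i
      rw [map_mul, map_mul, map_prod, hpq i, ← Finset.mul_prod_erase Finset.univ _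
        (Finset.mem_univ i)]
      have := hq1 i
      field_simp
    rw [Finset.sum_congr rfl fun i _ => h2 i, ← Finset.mul_sum]
    have h3 : ∑ i, (r i : (FractionRing (MvPolynomial V K))) * algebraMap (MvPolynomial V K) (FractionRing (MvPolynomial V K)) (g i) = 0 := hr
    rw [h3, mul_zero]
  -- the matrix of the combinations
  let H : Matrix ι ι (MvPolynomial V K) := Matrix.of fun k i => (c k).sum fun b a => C a * sub D₀ b (g i)
  have hH : H.mulVec P = 0 := by
    funext k
    show ∑ i, (c k).sum (fun b a => C a * sub D₀ b (g i)) * P i = 0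
    have h4 : ∀ i, (c k).sum (fun b a => C a * sub D₀ b (g i)) * P i =
        (c k).sum fun b a => C a * sub D₀ b (P i * g i) := by
      intro i
      rw [Finsupp.sum_mul]
      refine Finsupp.sum_congr fun b _ => ?_
      rw [map_mul, sub_eq b (hP i)]
      ring
    rw [Finset.sum_congr rfl fun i _ => h4 i, ← Finsupp.sum_finsetSum_comm]
    refine Finset.sum_eq_zero fun b _ => ?_
    beta_reduce
    rw [← Finset.mul_sum, ← map_sum, h1, map_zero, mul_zero]
  have hdet : H.det ≠ 0 := by
    intro h0
    have h5 : (eval x).mapMatrix H = 1 := by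
      ext k i
      show eval x ((c k).sum fun b a => C a * sub D₀ b (g i)) = _
      rw [Finsupp.sum, map_sum]
      have := hc k i
      rw [Finsupp.sum] at this
      rw [Matrix.one_apply]
      rw [show (if k = i then (1 : K) else 0) = if i = k then 1 else 0 by simp only [eq_comm]]
      rw [← this]
      refine Finset.sum_congr rfl fun b _ => ?_
      rw [map_mul, eval_C, eval_sub]
    have h6 := RingHom.map_det (eval x) H
    rw [h0, map_zero, h5, Matrix.det_one] at h6
    exact zero_ne_one h6
  have hP0 := Matrix.eq_zero_of_mulVec_eq_zero hdet hH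
  intro i
  have h7 : p i * ∏ j ∈ Finset.univ.erase i, q j = 0 := congrFun hP0 i
  have h8 : p i = 0 := (mul_eq_zero.1 h7).resolve_right
    (Finset.prod_ne_zero_iff.2 fun j _ => hq0 j)
  apply Subtype.ext
  rw [hpq i, h8, map_zero, zero_div]
  rfl

end Indep

/-- Kalorkoti's bound, for formulas with divisions. -/
theorem kalorkoti {K V : Type} [Field K] [DecidableEq V] (D₀ : Finset V)
    (φ : Formula K V) (F : MvPolynomial V K)
    (hφ : φ.eval = algebraMap (MvPolynomial V K) _ F) {ι : Type} [Fintype ι] (p : ι → V)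
    (hp : ∀ i, p i ∉ D₀) (h2 : 2 ≤ Fintype.card ι) (x : V → K)
    (hli : LinearIndependent K (fun i => fun b : V → K =>
      MvPolynomial.eval (fun v => if v ∈ D₀ then b v else x v) (pderiv (p i) F))) :
    Fintype.card ι + 2 ≤ 5 * φ.leavesIn D₀ := by
  have h1 := indep_KK (fun i => pderiv (p i) F) x hli
  have key : ∀ k : ℕ, Good D₀ φ.eval k → Fintype.card ι ≤ k := by
    rintro k ⟨W, hW, hk, _, _, _, hD⟩
    have h3 : ∀ i, algebraMap (MvPolynomial V K) (FractionRing (MvPolynomial V K))
        (pderiv (p i) F) ∈ W := by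
      intro i
      rw [← D_algebraMap, ← hφ]
      exact hD _ (hp i)
    let w : ι → W := fun i => ⟨_, h3 i⟩
    have h4 : LinearIndependent (KK K D₀) w := LinearIndependent.of_comp W.subtype h1
    exact h4.fintype_card_le_finrank.trans hk
  obtain ⟨g0, g1⟩ := formula_good D₀ φ
  rcases Nat.eq_zero_or_pos (φ.leavesIn D₀) with h0 | h0
  · have := key 1 (good_of_mem (g0 h0))
    omega
  · have := key _ (g1 h0)
    omega

end Pool.Agent.Helper97.Form
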