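import Pool.Agent.Helper97.Form.ModGad

/-!
# FORM, Boolean part: divisibility of the permanent by a number which is not a power of two has many
subfunctions
-/

set_option autoImplicit false
set_option linter.unusedSectionVars false

namespace Pool.Agent.Helper97.Boo

open Finset Pool.Agent.Helper97.Form

/-- Every function on the subsets of `Q` is a combination of the products. -/
theorem surj_products {Q A : Type} [Fintype Q] [DecidableEq Q] [CommRing A] [Finite A]
    (v : Finset Q → A) :
    ∃ a : Finset Q → A, ∀ B, ∑ S, a S * ∏ q ∈ S, (1 + if q ∈ B then 1 else 0) = v B := by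
  classical
  let E : (Finset Q → A) → Finset Q → A := fun a B =>
    ∑ S, a S * ∏ q ∈ S, (1 + if q ∈ B then 1 else 0)
  have hinj : Function.Injective E := by
    intro a a' h
    have h1 : ∀ S, a S - a' S = 0 := by
      apply indep_products (fun S => a S - a' S)
      intro B
      have h2 := congrFun h B
      simp only [sub_mul]
      rw [sum_sub_distrib, sub_eq_zero]
      exact h2
    funext S
    exact sub_eq_zero.1 (h1 S)
  have hsurj : Function.Surjective E := Finite.surjective_of_injective hinj
  obtain ⟨a, ha⟩ := hsurj v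
  exact ⟨a, fun B => congrFun ha B⟩

theorem UU_surjective (L : ℕ) : Function.Surjective (UU : RC L → Finset (QQ L)) := by
  refine ((Fintype.bijective_iff_injective_and_card _).2 ⟨UU_injective L, ?_⟩).2
  rw [Fintype.card_finset, Fintype.card_prod, Fintype.card_fin, Fintype.card_fin, ← pow_add]
  congr 1
  omega

/-- the kept part of an index -/
def kept {t L : ℕ} (keep : Fin t → QQ L) (rc : RC L) : Finset (Fin t) :=
  univ.filter fun k => keep k ∈ UU rc

theorem prod_kept {A : Type} [CommRing A] {t L : ℕ} (keep : Fin t → QQ L)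
    (hkeep : Function.Injective keep) (rc : RC L) (ζ : Fin t → Bool) :
    ∏ b ∈ UU rc, (1 + if ∃ k, keep k = b ∧ ζ k = true then (1 : A) else 0) =
      ∏ k ∈ kept keep rc, (1 + if ζ k = true then (1 : A) else 0) := by
  classical
  have hsub : (kept keep rc).image keep ⊆ UU rc := by
    intro b hb
    rw [mem_image] at hb
    obtain ⟨k, hk, rfl⟩ := hb
    exact (mem_filter.1 hk).2
  rw [← prod_subset hsub]
  · rw [prod_image (fun k _ k' _ h => hkeep h)]
    refine prod_congr rfl fun k _ => ?_
    congr 1
    have hiff : (∃ k', keep k' = keep k ∧ ζ k' = true) ↔ ζ k = true := by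
      constructor
      · rintro ⟨k', h1, h2⟩
        rwa [hkeep h1] at h2
      · exact fun h => ⟨k, rfl, h⟩
    simp only [hiff]
  · intro b hb hb'
    rw [if_neg, add_zero]
    rintro ⟨k, rfl, _⟩
    exact hb' (mem_image.2 ⟨k, mem_filter.2 ⟨mem_univ _, hb⟩, rfl⟩)

theorem card_fiber {t L : ℕ} (keep : Fin t → QQ L) (hkeep : Function.Injective keep)
    (S : Finset (Fin t)) :
    2 ^ (2 * L - t) ≤ (univ.filter fun rc : RC L => kept keep rc = S).card := by
  classical
  let R : Type := {b : QQ L // b ∉ univ.image keep}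
  have hR : Fintype.card R = 2 * L - t := by
    show Fintype.card {b : QQ L // b ∉ univ.image keep} = _
    rw [Fintype.card_subtype_compl, Fintype.card_coe, card_image_of_injective _ hkeep, card_univ,
      Fintype.card_fin, Fintype.card_fin]
  choose inv hinv using UU_surjective L
  let f : Finset R → RC L := fun V => inv (S.image keep ∪ V.image Subtype.val)
  have hf : ∀ V, UU (f V) = S.image keep ∪ V.image Subtype.val := fun V => hinv _
  have hfinj : Function.Injective f := by
    intro V V' h
    have h1 : UU (f V) = UU (f V') := by rw [h]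
    rw [hf, hf] at h1
    ext b
    have h2 := Finset.ext_iff.1 h1 b.1
    have h3 : b.1 ∉ S.image keep := by
      intro h4
      rw [mem_image] at h4
      obtain ⟨k, _, hk⟩ := h4
      exact b.2 (mem_image.2 ⟨k, mem_univ _, hk⟩)
    rw [mem_union, mem_union, or_iff_right h3, or_iff_right h3] at h2
    have h5 : ∀ W : Finset R, b.1 ∈ W.image Subtype.val ↔ b ∈ W := by
      intro W
      rw [mem_image]
      constructor
      · rintro ⟨b', hb', e⟩
        rwa [← Subtype.ext e]
      · exact fun hb => ⟨b, hb, rfl⟩
    rwa [h5, h5] at h2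
  have hfm : ∀ V ∈ (univ : Finset (Finset R)), f V ∈ univ.filter fun rc : RC L => kept keep rc = S := by
    intro V _
    rw [mem_filter]
    refine ⟨mem_univ _, ?_⟩
    ext k
    rw [kept, mem_filter, hf, mem_union, mem_image, mem_image]
    constructor
    · rintro ⟨_, ⟨k', h1, h2⟩ | ⟨b, h1, h2⟩⟩
      · rwa [← hkeep h2]
      · exact absurd (mem_image.2 ⟨k, mem_univ _, h2.symm⟩) b.2
    · exact fun h => ⟨mem_univ _, Or.inl ⟨k, h, rfl⟩⟩
  have hle := card_le_card_of_injOn f hfm hfinj.injOn
  rwa [card_univ, Fintype.card_finset, hR] at hle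

/-- Every pattern of zeros is realised by a choice of the controls. -/
theorem exists_pattern (q j s : ℕ) (hq : 3 ≤ q) (hj : q - 1 ≤ 4 ^ j) (keep : Fin (2 * s) → QQ (s + j))
    (hkeep : Function.Injective keep) (g : Finset (Fin (2 * s)) → Bool) :
    ∃ y : RC (s + j) → Bool, ∀ ζ : Fin (2 * s) → Bool,
      (∑ rc : RC (s + j), (if y rc = true then (1 : ZMod q) else 0) *
          ∏ b ∈ UU rc, (1 + if ∃ k, keep k = b ∧ ζ k = true then (1 : ZMod q) else 0)) =
        if g (univ.filter fun k => ζ k = true) = true then 0 else 1 := by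
  classical
  have : NeZero q := ⟨by omega⟩
  obtain ⟨w, hw⟩ := surj_products (Q := Fin (2 * s)) (A := ZMod q)
    (fun B => if g B = true then 0 else 1)
  have hT : ∀ S : Finset (Fin (2 * s)), ∃ T ⊆ univ.filter (fun rc : RC (s + j) => kept keep rc = S),
      T.card = (w S).val := by
    intro S
    apply exists_subset_card_eq
    refine le_trans ?_ (card_fiber keep hkeep S)
    have h1 := ZMod.val_lt (w S)
    have h2 : 2 ^ (2 * (s + j) - 2 * s) = 4 ^ j := by
      rw [show 2 * (s + j) - 2 * s = 2 * j by omega, pow_mul]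
      norm_num
    rw [h2]
    omega
  choose T hT1 hT2 using hT
  refine ⟨fun rc => decide (rc ∈ T (kept keep rc)), fun ζ => ?_⟩
  refine Eq.trans ?_ (hw (univ.filter fun k => ζ k = true))
  rw [← sum_fiberwise (s := (univ : Finset (RC (s + j)))) (kept keep)]
  refine sum_congr rfl fun S _ => ?_
  have e1 : ∀ rc ∈ univ.filter (fun rc : RC (s + j) => kept keep rc = S),
      (if decide (rc ∈ T (kept keep rc)) = true then (1 : ZMod q) else 0) *
        ∏ b ∈ UU rc, (1 + if ∃ k, keep k = b ∧ ζ k = true then (1 : ZMod q) else 0) =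
      (if rc ∈ T S then (1 : ZMod q) else 0) *
        ∏ k ∈ S, (1 + if k ∈ univ.filter (fun k => ζ k = true) then (1 : ZMod q) else 0) := by
    intro rc hrc
    have h1 := (mem_filter.1 hrc).2
    rw [prod_kept keep hkeep, h1]
    simp only [decide_eq_true_eq, mem_filter, mem_univ, true_and]
  rw [sum_congr rfl e1, ← sum_mul]
  congr 1
  rw [← sum_filter, filter_mem_eq_inter, inter_eq_right.2 (hT1 S), sum_const, nsmul_eq_mul, mul_one,
    hT2, ZMod.natCast_zmod_val]

theorem many_mod (q a j n s : ℕ) (hq : 3 ≤ q) (hodd : q % 2 = 1) (hj : q - 1 ≤ 4 ^ j)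
    (hn : 12 * 2 ^ (s + j) * (q - 1) + 2 * a ≤ n) (r c : Fin (2 * s) → Fin n)
    (hr : Function.Injective r) (hc : Function.Injective c) {M : ℕ}
    (hM : Coded (fun (α β : Fin n × Fin n → Bool) =>
      decide (2 ^ a * q ∣ perm01 n (mix (cells r c) α β))) M) : 2 ^ (4 ^ s) ≤ M := by
  classical
  have : NeZero q := ⟨by omega⟩
  have : Fact (1 < q) := ⟨by omega⟩
  have hcells : ∀ v : Fin n × Fin n, v ∈ cells r c ↔ ∃ q, v = (r q, c q) := by
    intro v
    simp only [cells, mem_image, mem_univ, true_and, eq_comm]
  let keep : Fin (2 * s) → QQ (s + j) := fun k => ⟨k.val, by have := k.2; omega⟩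
  have hkeep : Function.Injective keep := by
    intro k k' h
    have h' : (keep k).val = (keep k').val := by rw [h]
    exact Fin.ext h'
  obtain ⟨X, hX1, hX2, hX3⟩ := placedMod q a (s + j) n (2 * s) hq hodd hn keep hkeep r c hr hc
  -- mixing
  have hmix : ∀ (y : RC (s + j) → Bool) (ζ : Fin (2 * s) → Bool),
      mix (cells r c) (X y (fun _ => false)) (fun v => Function.extend r ζ (fun _ => false) v.1) =
        X y ζ := by
    intro y ζ
    funext v
    by_cases hv : v ∈ cells r c
    · rw [mix, if_pos hv]
      obtain ⟨k, rfl⟩ := (hcells v).1 hv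
      rw [hr.extend_apply, hX1]
    · rw [mix, if_neg hv]
      apply hX2
      rintro k rfl
      exact hv ((hcells _).2 ⟨k, rfl⟩)
  -- the parameters
  have hy := exists_pattern q j s hq hj keep hkeep
  choose y hy using hy
  obtain ⟨code, hcode⟩ := hM
  let Φ : (Finset (Fin (2 * s)) → Bool) → Fin M := fun g => code (X (y g) (fun _ => false))
  have hΦ : Function.Injective Φ := by
    intro g g' hgg
    funext B
    have h1 : ∀ g : Finset (Fin (2 * s)) → Bool,
        (2 ^ a * q ∣ perm01 n (X (y g) (fun k => decide (k ∈ B)))) ↔ g B = true := by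
      intro g
      obtain ⟨T, hT1, hT2⟩ := hX3 (y g) (fun k => decide (k ∈ B))
      rw [hT1, Nat.mul_dvd_mul_iff_left (by positivity), ← ZMod.natCast_eq_zero_iff, hT2, hy g]
      have h2 : (univ.filter fun k => (fun k => decide (k ∈ B)) k = true) = B := by
        ext k
        simp
      rw [h2]
      by_cases h : g B = true
      · simp [h]
      · simp [h]
    have h2 := congrFun (hcode _ _ hgg) (fun v => Function.extend r (fun k => decide (k ∈ B))
      (fun _ => false) v.1)
    beta_reduce at h2
    rw [hmix, hmix] at h2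
    have h3 := decide_eq_decide.1 h2
    rw [h1, h1] at h3
    rw [Bool.eq_iff_iff]
    exact h3
  have hle := Fintype.card_le_of_injective Φ hΦ
  rw [Fintype.card_fun, Fintype.card_bool, Fintype.card_finset, Fintype.card_fin, Fintype.card_fin,
    pow_mul] at hle
  norm_num at hle
  exact hle

end Pool.Agent.Helper97.Boo
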