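import Pool.Agent.Helper97.Form.BoolGad

/-!
# FORM, Boolean part: partition of the positions into blocks
-/

set_option autoImplicit false

namespace Pool.Agent.Helper97.Boo

open Finset

/-- Disjoint blocks of `t` positions in distinct rows and columns. -/
theorem blocks (n t : ℕ) (ht : 1 ≤ t) (f : Finset (Fin n × Fin n) → ℕ) (size N : ℕ)
    (hf : ∀ (I : Type) [Fintype I] (D : I → Finset (Fin n × Fin n)),
      (∀ i j v, v ∈ D i → v ∈ D j → i = j) → ∑ i, f (D i) ≤ size)
    (h : ∀ r c : Fin t → Fin n, Function.Injective r → Function.Injective c → N ≤ f (cells r c)) :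
    n * (n / t) * N ≤ size := by
  have hlt : ∀ (m : Fin (n / t)) (k : Fin t), (m : ℕ) * t + k < n := by
    intro m k
    have h1 : ((m : ℕ) + 1) * t ≤ n / t * t := Nat.mul_le_mul_right t m.2
    have h2 := Nat.div_mul_le_self n t
    have h3 := k.2
    nlinarith
  let r : Fin n × Fin (n / t) → Fin t → Fin n := fun q k => ⟨(q.2 : ℕ) * t + k, hlt q.2 k⟩
  let c : Fin n × Fin (n / t) → Fin t → Fin n := fun q k =>
    ⟨((q.2 : ℕ) * t + k + q.1) % n, Nat.mod_lt _ (by have := q.1.2; omega)⟩
  have hr : ∀ q, Function.Injective (r q) := by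
    intro q k k' hk
    have := congrArg Fin.val hk
    simp only [r] at this
    exact Fin.ext (by omega)
  have hc : ∀ q, Function.Injective (c q) := by
    intro q k k' hk
    have h1 := congrArg Fin.val hk
    simp only [c] at h1
    have h2 : ((q.2 : ℕ) * t + k) ≡ ((q.2 : ℕ) * t + k') [MOD n] := Nat.ModEq.add_right_cancel' _ h1
    have h3 := Nat.ModEq.eq_of_lt_of_lt h2 (hlt q.2 k) (hlt q.2 k')
    exact Fin.ext (by omega)
  have hD : ∀ (i j : Fin n × Fin (n / t)) (v), v ∈ cells (r i) (c i) → v ∈ cells (r j) (c j) →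
      i = j := by
    intro i j v hi hj
    unfold cells at hi hj
    rw [mem_image] at hi hj
    obtain ⟨k, _, hk⟩ := hi
    obtain ⟨k', _, hk'⟩ := hj
    rw [← hk', Prod.mk.injEq] at hk
    have h1 := congrArg Fin.val hk.1
    have h2 := congrArg Fin.val hk.2
    simp only [r, c] at h1 h2
    have h3 : (i.2 : ℕ) = j.2 := by
      have e1 : ((i.2 : ℕ) * t + k) / t = i.2 := by
        rw [Nat.add_div_of_dvd_right (Dvd.intro_left _ rfl), Nat.mul_div_cancel _ (by omega),
          Nat.div_eq_of_lt k.2, add_zero]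
      have e2 : ((j.2 : ℕ) * t + k') / t = j.2 := by
        rw [Nat.add_div_of_dvd_right (Dvd.intro_left _ rfl), Nat.mul_div_cancel _ (by omega),
          Nat.div_eq_of_lt k'.2, add_zero]
      rw [← e1, ← e2, h1]
    rw [h1] at h2
    have h4 : (i.1 : ℕ) ≡ (j.1 : ℕ) [MOD n] := Nat.ModEq.add_left_cancel' _ h2
    have h5 := Nat.ModEq.eq_of_lt_of_lt h4 i.1.2 j.1.2
    exact Prod.ext (Fin.ext h5) (Fin.ext h3)
  refine le_trans ?_ (hf _ (fun q => cells (r q) (c q)) hD)
  calc n * (n / t) * N = ∑ _q : Fin n × Fin (n / t), N := by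
        rw [sum_const, card_univ, Fintype.card_prod, Fintype.card_fin, Fintype.card_fin, smul_eq_mul]
    _ ≤ _ := sum_le_sum fun q _ => h (r q) (c q) (hr q) (hc q)

theorem sum_leavesIn {V I : Type} [DecidableEq V] [Fintype I] (D : I → Finset V)
    (hD : ∀ i j v, v ∈ D i → v ∈ D j → i = j) (φ : BFormula V) :
    ∑ i, φ.leavesIn (D i) ≤ φ.size := by
  classical
  induction φ with
  | const c => simp [BFormula.leavesIn]
  | var v =>
    simp only [BFormula.leavesIn, BFormula.size]
    rw [← Finset.card_filter, Finset.card_le_one]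
    intro i hi j hj
    rw [mem_filter] at hi hj
    exact hD i j v hi.2 hj.2
  | gate op a b iha ihb =>
    simp only [BFormula.leavesIn, BFormula.size]
    rw [sum_add_distrib]
    exact add_le_add iha ihb

theorem sum_labels {V I : Type} [DecidableEq V] [Fintype I] {m : ℕ} (D : I → Finset V)
    (hD : ∀ i j v, v ∈ D i → v ∈ D j → i = j) (P : BProgram V m) :
    ∑ i, (univ.filter fun k => P.label k ∈ D i).card ≤ m := by
  classical
  rw [← card_biUnion]
  · exact (card_le_univ _).trans (by simp)
  · intro i _ j _ hij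
    rw [Function.onFun, disjoint_left]
    intro k hi hj
    rw [mem_filter] at hi hj
    exact hij (hD i j _ hi.2 hj.2)

/-- A formula without variables computes a constant. -/
theorem eval_const {V : Type} (φ : BFormula V) (h : φ.size = 0) (X Y : V → Bool) :
    φ.eval X = φ.eval Y := by
  induction φ with
  | const c => rfl
  | var v => simp [BFormula.size] at h
  | gate op a b iha ihb =>
    simp only [BFormula.size] at h
    show op _ _ = op _ _
    rw [iha (by omega), ihb (by omega)]

theorem perm01_zero (n : ℕ) (hn : 1 ≤ n) : perm01 n (fun _ => false) = 0 := by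
  have : Nonempty (Fin n) := ⟨⟨0, hn⟩⟩
  have h0 : (Matrix.of fun i j : Fin n => if ((fun _ => false : Fin n × Fin n → Bool) (i, j)) = true
      then 1 else 0 : Matrix (Fin n) (Fin n) ℕ) = 0 := by
    ext i j
    rfl
  rw [perm01, h0, Matrix.permanent_zero]

theorem perm01_one (n : ℕ) : perm01 n (fun v => decide (v.1 = v.2)) = 1 := by
  have : (Matrix.of fun i j : Fin n => if ((fun v => decide (v.1 = v.2) : Fin n × Fin n → Bool)
      (i, j)) = true then 1 else 0 : Matrix (Fin n) (Fin n) ℕ) = 1 := by
    ext i j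
    rw [Matrix.one_apply]
    simp
  rw [perm01, this, Matrix.permanent_one]

/-- The two inputs on which the answers differ. -/
theorem nonconst (n : ℕ) (hn : 1 ≤ n) : decide (3 ∣ perm01 n (fun _ => false)) ≠
    decide (3 ∣ perm01 n (fun v => decide (v.1 = v.2))) := by
  rw [perm01_zero n hn, perm01_one]
  decide

end Pool.Agent.Helper97.Boo
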