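import Pool.Agent.Helper97.Form.Placed
import Pool.Agent.Helper71.Formula.Blocks
import Pool.Agent.Helper71.Formula.Kal

/-!
# FORM: the gadget over a field of characteristic different from two
-/

set_option autoImplicit false
set_option linter.unusedSectionVars false

namespace Pool.Agent.Helper97.Form

open Finset MvPolynomial Pool.Agent.Helper71.Fml

theorem gadget {K : Type} [Field K] (n s : ℕ) (hs : 12 * 2 ^ s ≤ n) (h2 : (2 : K) ≠ 0)
    (r c : Fin (2 * s) → Fin n) (hr : Function.Injective r) (hc : Function.Injective c) :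
    ∃ (p : RC s → Fin n × Fin n) (x : Fin n × Fin n → K), (∀ i, p i ∉ blk r c) ∧
      LinearIndependent K (fun i => fun b : Fin n × Fin n → K =>
        eval (fun v => if v ∈ blk r c then b v else x v) (pderiv (p i) (permPoly K n))) := by
  classical
  obtain ⟨N, ρ, χ, -, hz1, hz2, hinj, hne, hperm⟩ :=
    placed (couplerHalf ((2 : K)⁻¹) (mul_inv_cancel₀ h2)) (S := Set.univ) (Set.mem_univ _)
      (Set.mem_univ _) (fun _ => Set.mem_univ _) (fun _ => Set.mem_univ _)
      (fun _ _ => Set.mem_univ _) s n hs r c hr hc
  have hblk : ∀ v : Fin n × Fin n, v ∈ blk r c ↔ ∃ q, v = (r q, c q) := by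
    intro v
    simp only [blk, mem_image, mem_univ, true_and, eq_comm]
  refine ⟨fun i => (ρ (some i), χ (some i)), fun v => N v.1 v.2, ?_, ?_⟩
  · intro i hi
    obtain ⟨q, hq⟩ := (hblk _).1 hi
    exact hne _ _ (congrArg Prod.fst hq)
  -- values of the derivatives
  have hval : ∀ (b : Fin n × Fin n → K) (i : RC s),
      eval (fun v => if v ∈ blk r c then b v else N v.1 v.2)
        (pderiv (ρ (some i), χ (some i)) (permPoly K n)) =
        ∏ q ∈ UU i, (1 + b (r q, c q)) := by
    intro b i
    rw [eval_pderiv_permPoly]
    let z : Option (RC s) ⊕ QQ s → K := Sum.elim (fun _ => 0) fun q => b (r q, c q)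
    have hM : ∀ i j : Fin n, (if (i, j) ∈ blk r c then b (i, j) else N i j) =
        plug N (Sum.elim ρ r) (Sum.elim χ c) z i j := by
      intro i j
      show _ = N i j + ∑ p, if Sum.elim ρ r p = i ∧ Sum.elim χ c p = j then z p else 0
      rw [Fintype.sum_sum_type]
      have e1 : ∑ o, (if Sum.elim ρ r (Sum.inl o) = i ∧ Sum.elim χ c (Sum.inl o) = j then
          z (Sum.inl o) else 0) = 0 := sum_eq_zero fun o _ => ite_self _
      rw [e1, zero_add]
      by_cases h : (i, j) ∈ blk r c
      · obtain ⟨q, hq⟩ := (hblk _).1 h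
        obtain ⟨rfl, rfl⟩ := Prod.mk.inj hq
        rw [if_pos h, hz2 q, zero_add, Finset.sum_eq_single q]
        · rw [if_pos ⟨rfl, rfl⟩]
          rfl
        · intro q' _ hq'
          exact if_neg fun h' => hq' (hr h'.1)
        · intro h'
          exact absurd (mem_univ _) h'
      · rw [if_neg h, sum_eq_zero, add_zero]
        intro q _
        refine if_neg fun h' => h ((hblk _).2 ⟨q, ?_⟩)
        exact Prod.ext h'.1.symm h'.2.symm
    have e0 := permanent_addE (plug N (Sum.elim ρ r) (Sum.elim χ c) z) (ρ (some i)) (χ (some i)) 1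
    have e1 : (Matrix.of fun r' c' : Fin n => if r' = ρ (some i) then
        (if c' = χ (some i) then (1 : K) else 0) else
          (if (r', c') ∈ blk r c then b (r', c') else N r' c')).permanent =
        (Matrix.of fun r' c' => if r' = ρ (some i) then (if c' = χ (some i) then 1 else 0) else
          plug N (Sum.elim ρ r) (Sum.elim χ c) z r' c' : Matrix (Fin n) (Fin n) K).permanent := by
      congr 1
      ext r' c'
      show (if r' = ρ (some i) then _ else _) = if r' = ρ (some i) then _ else _
      rw [hM]
    rw [one_mul] at e0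
    have e2 : addE (plug N (Sum.elim ρ r) (Sum.elim χ c) z) (ρ (some i)) (χ (some i)) 1 =
        plug N (Sum.elim ρ r) (Sum.elim χ c) (Function.update z (Sum.inl (some i)) 1) := by
      have := addE_plug N (Sum.elim ρ r) (Sum.elim χ c) z (Sum.inl (some i)) 1
      rw [← this]
      have h3 : Function.update z (Sum.inl (some i)) 0 = z := by
        rw [Function.update_eq_self_iff]
        rfl
      rw [h3]
      rfl
    rw [e2, hperm, hperm] at e0
    have e3 : ∑ rc : RC s, z (Sum.inl (some rc)) * ∏ q ∈ UU rc, (1 + z (Sum.inr q)) = 0 :=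
      sum_eq_zero fun rc _ => zero_mul _
    have e4 : ∑ rc : RC s, Function.update z (Sum.inl (some i)) 1 (Sum.inl (some rc)) *
        ∏ q ∈ UU rc, (1 + Function.update z (Sum.inl (some i)) 1 (Sum.inr q)) =
        ∏ q ∈ UU i, (1 + b (r q, c q)) := by
      rw [Finset.sum_eq_single i]
      · rw [Function.update_self, one_mul]
        rfl
      · intro rc _ hrc
        rw [Function.update_of_ne (fun h => hrc (Option.some.inj (Sum.inl_injective h)))]
        exact zero_mul _
      · intro h'
        exact absurd (mem_univ _) h'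
    have e5 : Function.update z (Sum.inl (some i)) 1 (Sum.inl none) = 0 := by
      rw [Function.update_of_ne (by simp)]
      rfl
    have e6 : z (Sum.inl none) = 0 := rfl
    rw [e3, e4, e5, e6, zero_add, zero_add, zero_add] at e0
    rw [e0, ← e1]
  rw [Fintype.linearIndependent_iff]
  intro g hg
  have h1 : ∀ B : Finset (QQ s), ∑ i : RC s, g i * ∏ q ∈ UU i, (1 + if q ∈ B then (1 : K) else 0) =
      0 := by
    intro B
    have h3 := congrFun hg fun v => Function.extend r (fun q => if q ∈ B then (1 : K) else 0) 0 v.1
    simp only [Finset.sum_apply, Pi.smul_apply, smul_eq_mul, Pi.zero_apply, hval,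
      hr.extend_apply] at h3
    exact h3
  have h3 := indep_products (Q := QQ s) (fun S => ∑ i : RC s, if UU i = S then g i else 0) (by
    intro B
    refine Eq.trans ?_ (h1 B)
    simp only [sum_mul]
    rw [sum_comm]
    refine sum_congr rfl fun i _ => ?_
    rw [Finset.sum_eq_single (UU i)]
    · rw [if_pos rfl]
    · intro S _ hS
      rw [if_neg (Ne.symm hS), zero_mul]
    · intro h'
      exact absurd (mem_univ _) h')
  intro i
  have h4 := h3 (UU i)
  beta_reduce at h4
  rw [Finset.sum_eq_single i] at h4
  · rwa [if_pos rfl] at h4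
  · intro i' _ hi'
    exact if_neg fun h => hi' (UU_injective s h)
  · intro h'
    exact absurd (mem_univ _) h'

end Pool.Agent.Helper97.Form
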