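import Mathlib

/-!
# FORM: the numerical part
-/

set_option autoImplicit false

namespace Pool.Agent.Helper97.Form

theorem numeric (a b : ℕ) (ha : 1 ≤ a) (hb : 1 ≤ b) : ∃ c : ℝ, 0 < c ∧ ∀ n L : ℕ, 2 ≤ n → 1 ≤ L →
    (∀ s : ℕ, 1 ≤ s → a * 2 ^ s ≤ n → n * (n / (2 * s)) * 4 ^ s ≤ b * L) →
    c * (n : ℝ) ^ 4 / Real.log n ≤ L := by
  have ha0 : (0 : ℝ) < a := by exact_mod_cast ha
  have hb0 : (0 : ℝ) < b := by exact_mod_cast hb
  have hl2 : (0 : ℝ) < Real.log 2 := Real.log_pos (by norm_num)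
  refine ⟨min (1 / (32 * a ^ 2 * b)) (Real.log 2 / (4 * a) ^ 4), by positivity, ?_⟩
  intro n L hn hL h
  have hlog : Real.log 2 ≤ Real.log n := Real.log_le_log (by norm_num) (by exact_mod_cast hn)
  have hlogpos : 0 < Real.log n := hl2.trans_le hlog
  have hL1 : (1 : ℝ) ≤ L := by exact_mod_cast hL
  rw [div_le_iff₀ hlogpos]
  rcases Nat.lt_or_ge n (4 * a) with hsmall | hbig
  · -- small `n`
    have hn4 : (n : ℝ) ^ 4 ≤ (4 * a) ^ 4 := by
      have : (n : ℝ) ≤ 4 * a := by exact_mod_cast hsmall.le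
      gcongr
    calc min (1 / (32 * (a : ℝ) ^ 2 * b)) (Real.log 2 / (4 * a) ^ 4) * (n : ℝ) ^ 4
        ≤ Real.log 2 / (4 * a) ^ 4 * (4 * a) ^ 4 := by
          apply mul_le_mul (min_le_right _ _) hn4 (by positivity) (by positivity)
      _ = Real.log 2 := by field_simp
      _ ≤ Real.log n := hlog
      _ = 1 * Real.log n := by ring
      _ ≤ L * Real.log n := mul_le_mul_of_nonneg_right hL1 hlogpos.le
  · -- large `n`
    set s := Nat.log 2 (n / a) with hs
    have hna : 4 ≤ n / a := (Nat.le_div_iff_mul_le ha).2 hbig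
    have h1 : 2 ^ s ≤ n / a := Nat.pow_log_le_self 2 (by omega)
    have h2 : n / a < 2 ^ (s + 1) := Nat.lt_pow_succ_log_self (by norm_num) _
    have hs1 : 1 ≤ s := by
      by_contra hcon
      have : s = 0 := by omega
      rw [this] at h2
      omega
    have h3 : a * 2 ^ s ≤ n := by
      have := Nat.mul_le_mul_left a h1
      exact this.trans (Nat.mul_div_le n a)
    have h4 : n < 2 * a * 2 ^ s := by
      have : n / a < 2 ^ (s + 1) := h2
      rw [Nat.div_lt_iff_lt_mul ha] at this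
      calc n < 2 ^ (s + 1) * a := this
        _ = 2 * a * 2 ^ s := by rw [pow_succ]; ring
    have h5 := h s hs1 h3
    have h6 : 2 * s ≤ n := by
      obtain ⟨t, ht⟩ : ∃ t, s = t + 1 := ⟨s - 1, by omega⟩
      have h7 : t < 2 ^ t := Nat.lt_two_pow_self
      have h8 : 2 * s ≤ 2 ^ s := by
        rw [ht, pow_succ]
        omega
      exact (h8.trans h1).trans (Nat.div_le_self n a)
    have h7 : n ≤ 4 * s * (n / (2 * s)) := by
      have hq : 1 ≤ n / (2 * s) := (Nat.one_le_div_iff (by omega)).2 h6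
      have hd := Nat.div_add_mod n (2 * s)
      have hm := Nat.mod_lt n (show 0 < 2 * s by omega)
      have e : 4 * s * (n / (2 * s)) = 2 * s * (n / (2 * s)) + 2 * s * (n / (2 * s)) := by ring
      rw [e]
      have : 2 * s ≤ 2 * s * (n / (2 * s)) := Nat.le_mul_of_pos_right _ hq
      omega
    have h8 : n * n ≤ 4 * a ^ 2 * 4 ^ s := by
      calc n * n ≤ (2 * a * 2 ^ s) * (2 * a * 2 ^ s) := Nat.mul_le_mul h4.le h4.le
        _ = 4 * a ^ 2 * (2 * 2) ^ s := by rw [mul_pow]; ring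
        _ = 4 * a ^ 2 * 4 ^ s := by norm_num
    have h9 : n ^ 4 ≤ 16 * a ^ 2 * b * s * L := by
      calc n ^ 4 = n * n * (n * n) := by ring
        _ ≤ n * (4 * s * (n / (2 * s))) * (4 * a ^ 2 * 4 ^ s) :=
            Nat.mul_le_mul (Nat.mul_le_mul_left _ h7) h8
        _ = 16 * a ^ 2 * s * (n * (n / (2 * s)) * 4 ^ s) := by ring
        _ ≤ 16 * a ^ 2 * s * (b * L) := Nat.mul_le_mul_left _ h5
        _ = 16 * a ^ 2 * b * s * L := by ring
    have h9R : (n : ℝ) ^ 4 ≤ 16 * a ^ 2 * b * s * L := by exact_mod_cast h9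
    have h10 : (s : ℝ) ≤ 2 * Real.log n := by
      have h11 : (s : ℝ) * Real.log 2 ≤ Real.log n := by
        rw [← Real.log_pow]
        apply Real.log_le_log (by positivity)
        exact_mod_cast h1.trans (Nat.div_le_self n a)
      have h12 : (1 : ℝ) / 2 ≤ Real.log 2 := by
        have := Real.log_two_gt_d9
        linarith
      nlinarith [Nat.cast_nonneg (α := ℝ) s]
    have hL0 : (0 : ℝ) ≤ L := by linarith
    have h13 : (n : ℝ) ^ 4 ≤ 32 * a ^ 2 * b * (L * Real.log n) := by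
      calc (n : ℝ) ^ 4 ≤ 16 * a ^ 2 * b * s * L := h9R
        _ ≤ 16 * a ^ 2 * b * (2 * Real.log n) * L := by gcongr
        _ = _ := by ring
    calc min (1 / (32 * (a : ℝ) ^ 2 * b)) (Real.log 2 / (4 * a) ^ 4) * (n : ℝ) ^ 4
        ≤ 1 / (32 * (a : ℝ) ^ 2 * b) * (n : ℝ) ^ 4 :=
          mul_le_mul_of_nonneg_right (min_le_left _ _) (by positivity)
      _ ≤ 1 / (32 * (a : ℝ) ^ 2 * b) * (32 * a ^ 2 * b * (L * Real.log n)) :=
          mul_le_mul_of_nonneg_left h13 (by positivity)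
      _ = L * Real.log n := by field_simp

end Pool.Agent.Helper97.Form
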