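import Pool.Agent.Helper97.Form.AlgGad
import Pool.Agent.Helper97.Form.Num

/-!
# FORM: arithmetic formulas for the permanent, in characteristic different from two
-/

set_option autoImplicit false

namespace Pool.Agent.Helper97.Form

open Finset MvPolynomial Pool.Agent.Helper71.Fml

theorem main : ∃ c : ℝ, 0 < c ∧ ∀ (K : Type) [Field K] (n : ℕ), 2 ≤ n → (2 : K) ≠ 0 →
    ∀ φ : Formula K (Fin n × Fin n),
      φ.eval = algebraMap (MvPolynomial (Fin n × Fin n) K) _ (permPoly K n) →
      c * (n : ℝ) ^ 4 / Real.log n ≤ φ.size := by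
  obtain ⟨c, hc, H⟩ := numeric 12 5 (by norm_num) (by norm_num)
  refine ⟨c, hc, fun K _ n hn hK φ hφ => H n φ.size hn (one_le_size n (by omega) φ hφ) ?_⟩
  intro s hs1 hs
  have hcard : Fintype.card (RC s) = 4 ^ s := by
    rw [Fintype.card_prod, Fintype.card_fin, ← Nat.mul_pow]
  have key : ∀ r c : Fin (2 * s) → Fin n, Function.Injective r → Function.Injective c →
      4 ^ s ≤ 5 * φ.leavesIn (blk r c) := by
    intro r c hr hc
    obtain ⟨p, x, hp, hli⟩ := gadget (K := K) n s hs hK r c hr hc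
    have h2 : 2 ≤ Fintype.card (RC s) := by
      rw [hcard]
      calc 2 ≤ 4 ^ 1 := by norm_num
        _ ≤ 4 ^ s := Nat.pow_le_pow_right (by norm_num) hs1
    rw [← hcard]
    exact Pool.Agent.Helper71.Fml.kalorkoti (blk r c) φ (permPoly K n) hφ p hp h2 x hli
  have h5 : ∀ r c : Fin (2 * s) → Fin n, Function.Injective r → Function.Injective c →
      (4 ^ s + 4) / 5 ≤ φ.leavesIn (blk r c) := by
    intro r c hr hc
    have := key r c hr hc
    omega
  have hb := blocks n (2 * s) (by omega) φ _ h5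
  have h6 : 4 ^ s ≤ 5 * ((4 ^ s + 4) / 5) := by omega
  calc n * (n / (2 * s)) * 4 ^ s ≤ n * (n / (2 * s)) * (5 * ((4 ^ s + 4) / 5)) :=
        Nat.mul_le_mul_left _ h6
    _ = 5 * (n * (n / (2 * s)) * ((4 ^ s + 4) / 5)) := by ring
    _ ≤ 5 * φ.size := Nat.mul_le_mul_left _ hb

end Pool.Agent.Helper97.Form
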