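import Mathlib

/-!
# FORM, Boolean part: definitions
-/

set_option autoImplicit false

namespace Pool.Agent.Helper97.Boo

/-- The permanent of an `n × n` matrix of zeros and ones (`X (i, j) = true` means that the entry
`(i, j)` is one). -/
def perm01 (n : ℕ) (X : Fin n × Fin n → Bool) : ℕ :=
  (Matrix.of fun i j : Fin n => if X (i, j) = true then 1 else 0 : Matrix (Fin n) (Fin n) ℕ).permanent

/-- Boolean formulas in the variables `V` over the full binary basis: all sixteen functions of two
bits are allowed as gates. -/
inductive BFormula (V : Type) : Type
  | const : Bool → BFormula V
  | var : V → BFormula V
  | gate : (Bool → Bool → Bool) → BFormula V → BFormula V → BFormula V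

namespace BFormula

variable {V : Type}

/-- The value of a formula. -/
def eval (X : V → Bool) : BFormula V → Bool
  | const b => b
  | var v => X v
  | gate op a b => op (a.eval X) (b.eval X)

/-- The size of a formula: the number of its leaves that are labelled by variables. -/
def size : BFormula V → ℕ
  | const _ => 0
  | var _ => 1
  | gate _ a b => a.size + b.size

/-- The number of leaves labelled by a variable of `D`. -/
def leavesIn [DecidableEq V] (D : Finset V) : BFormula V → ℕ
  | const _ => 0
  | var v => if v ∈ D then 1 else 0
  | gate _ a b => a.leavesIn D + b.leavesIn D

end BFormula

/-- A (deterministic) branching program in the variables `V` with `m` inner nodes: every inner node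
is labelled by a variable and has two successors, one for each value of the variable; a successor is
an inner node with a larger number (so the graph is acyclic) or one of the two sinks `true`,
`false`. -/
structure BProgram (V : Type) (m : ℕ) where
  /-- the start node -/
  start : Fin m ⊕ Bool
  /-- the variable tested at a node -/
  label : Fin m → V
  /-- the successors of a node -/
  next : Fin m → Bool → Fin m ⊕ Bool
  acyclic : ∀ i b j, next i b = Sum.inl j → i < j

namespace BProgram

variable {V : Type} {m : ℕ}

/-- One step of the computation on the input `X`. -/
def step (P : BProgram V m) (X : V → Bool) : Fin m ⊕ Bool → Fin m ⊕ Bool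
  | Sum.inl i => P.next i (X (P.label i))
  | Sum.inr b => Sum.inr b

/-- The value computed on the input `X`: the sink which is reached after (at most) `m` steps. -/
def eval (P : BProgram V m) (X : V → Bool) : Bool :=
  ((P.step X)^[m] P.start).elim (fun _ => false) id

end BProgram

end Pool.Agent.Helper97.Boo
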