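import Pool.Agent.Helper97.Form.BoolDefs

/-!
# FORM, Boolean part: counting subfunctions
-/

set_option autoImplicit false
set_option linter.unusedSectionVars false

namespace Pool.Agent.Helper97.Boo

open Finset

/-- `g` takes its values according to a code with `N` code words. -/
def Coded {I T : Type} (g : I → T) (N : ℕ) : Prop :=
  ∃ code : I → Fin N, ∀ i j, code i = code j → g i = g j

section Coded

variable {I I' T T' T'' : Type}

theorem coded_of {κ : Type} [Fintype κ] {N : ℕ} (hN : Fintype.card κ ≤ N) (g : I → T)
    (code : I → κ) (h : ∀ i j, code i = code j → g i = g j) : Coded g N :=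
  ⟨fun i => Fin.castLE hN (Fintype.equivFin κ (code i)), fun i j hij =>
    h i j ((Fintype.equivFin κ).injective (Fin.castLE_injective hN hij))⟩

theorem Coded.mono {g : I → T} {N M : ℕ} (h : Coded g N) (hNM : N ≤ M) : Coded g M := by
  obtain ⟨c, hc⟩ := h
  exact coded_of (by simpa using hNM) g c hc

theorem Coded.congr {g g' : I → T} {N : ℕ} (h : Coded g N) (hg : ∀ i, g i = g' i) : Coded g' N := by
  obtain ⟨c, hc⟩ := h
  exact ⟨c, fun i j hij => by rw [← hg, ← hg]; exact hc i j hij⟩

theorem Coded.comp {g : I → T} {N : ℕ} (h : Coded g N) (u : I' → I) : Coded (fun i => g (u i)) N := by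
  obtain ⟨c, hc⟩ := h
  exact ⟨fun i => c (u i), fun i j hij => hc _ _ hij⟩

theorem Coded.map {g : I → T} {N : ℕ} (h : Coded g N) (u : T → T') : Coded (fun i => u (g i)) N := by
  obtain ⟨c, hc⟩ := h
  exact ⟨c, fun i j hij => congrArg u (hc i j hij)⟩

theorem Coded.map₂ {g : I → T} {g' : I → T'} {N N' : ℕ} (h : Coded g N) (h' : Coded g' N')
    (u : T → T' → T'') : Coded (fun i => u (g i) (g' i)) (N * N') := by
  obtain ⟨c, hc⟩ := h
  obtain ⟨c', hc'⟩ := h'
  refine coded_of (κ := Fin N × Fin N') (by simp) _ (fun i => (c i, c' i)) fun i j hij => ?_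
  show u (g i) (g' i) = u (g j) (g' j)
  rw [hc i j (congrArg Prod.fst hij), hc' i j (congrArg Prod.snd hij)]

theorem Coded.pi {t : ℕ} {g : Fin t → I → T} {N : Fin t → ℕ} (h : ∀ j, Coded (g j) (N j)) :
    Coded (fun i j => g j i) (∏ j, N j) := by
  choose c hc using h
  refine coded_of (κ := (j : Fin t) → Fin (N j)) (by simp) _ (fun i j => c j i) fun i i' hij => ?_
  funext j
  exact hc j i i' (congrFun hij j)

end Coded

section Formula

variable {V : Type} [DecidableEq V]

/-- the assignment which is `β` on `D` and `α` outside `D` -/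
def mix (D : Finset V) (α β : V → Bool) (v : V) : Bool := if v ∈ D then β v else α v

/-- bound for the number of subfunctions -/
def KK (l : ℕ) : ℕ := if l = 0 then 2 else 4 ^ (2 * l - 1)

theorem eval_mix_of_zero (D : Finset V) (φ : BFormula V) (h : φ.leavesIn D = 0) (α β : V → Bool) :
    φ.eval (mix D α β) = φ.eval α := by
  induction φ with
  | const b => rfl
  | var v =>
    simp only [BFormula.leavesIn] at h
    have hv : v ∉ D := fun hv => by simp [hv] at h
    show mix D α β v = α v
    rw [mix, if_neg hv]
  | gate op a b iha ihb =>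
    simp only [BFormula.leavesIn] at h
    show op (a.eval _) (b.eval _) = op (a.eval α) (b.eval α)
    rw [iha (by omega), ihb (by omega)]

theorem card_unary : Fintype.card (Bool → Bool) = 4 := by simp

theorem formula_coded (D : Finset V) (φ : BFormula V) :
    Coded (fun (p : (Bool → Bool) × (V → Bool)) (β : V → Bool) => p.1 (φ.eval (mix D p.2 β)))
      (KK (φ.leavesIn D)) := by
  induction φ with
  | const b =>
    refine coded_of (κ := Bool) (by simp [BFormula.leavesIn, KK]) _ (fun p => p.1 b) fun i j h => ?_
    funext β
    exact h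
  | var v =>
    by_cases hv : v ∈ D
    · refine coded_of (κ := Bool → Bool) (by simp [BFormula.leavesIn, KK, hv]) _
        (fun p => p.1) fun i j h => ?_
      funext β
      show i.1 (mix D i.2 β v) = j.1 (mix D j.2 β v)
      rw [mix, mix, if_pos hv, if_pos hv, h]
    · refine coded_of (κ := Bool) (by simp [BFormula.leavesIn, KK, hv]) _ (fun p => p.1 (p.2 v))
        fun i j h => ?_
      funext β
      show i.1 (mix D i.2 β v) = j.1 (mix D j.2 β v)
      rw [mix, mix, if_neg hv, if_neg hv]
      exact h
  | gate op a b iha ihb =>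
    simp only [BFormula.leavesIn]
    rcases Nat.eq_zero_or_pos (a.leavesIn D) with ha | ha <;>
      rcases Nat.eq_zero_or_pos (b.leavesIn D) with hb | hb
    · refine coded_of (κ := Bool) (by simp [KK, ha, hb]) _
        (fun p => p.1 (op (a.eval p.2) (b.eval p.2))) fun i j h => ?_
      funext β
      show i.1 (op (a.eval (mix D i.2 β)) (b.eval (mix D i.2 β))) =
        j.1 (op (a.eval (mix D j.2 β)) (b.eval (mix D j.2 β)))
      rw [eval_mix_of_zero D a ha, eval_mix_of_zero D b hb, eval_mix_of_zero D a ha,
        eval_mix_of_zero D b hb]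
      exact h
    · rw [ha, zero_add]
      refine (ihb.comp fun p : (Bool → Bool) × (V → Bool) =>
        ((fun x => p.1 (op (a.eval p.2) x), p.2) : (Bool → Bool) × (V → Bool))).congr fun p => ?_
      funext β
      show p.1 (op (a.eval p.2) (b.eval (mix D p.2 β))) =
        p.1 (op (a.eval (mix D p.2 β)) (b.eval (mix D p.2 β)))
      rw [eval_mix_of_zero D a ha]
    · rw [hb, add_zero]
      refine (iha.comp fun p : (Bool → Bool) × (V → Bool) =>
        ((fun x => p.1 (op x (b.eval p.2)), p.2) : (Bool → Bool) × (V → Bool))).congr fun p => ?_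
      funext β
      show p.1 (op (a.eval (mix D p.2 β)) (b.eval p.2)) =
        p.1 (op (a.eval (mix D p.2 β)) (b.eval (mix D p.2 β)))
      rw [eval_mix_of_zero D b hb]
    · have h1 := iha.comp fun p : (Bool → Bool) × (V → Bool) => (id, p.2)
      have h2 := ihb.comp fun p : (Bool → Bool) × (V → Bool) => (id, p.2)
      have h3 : Coded (fun p : (Bool → Bool) × (V → Bool) => p.1) 4 :=
        coded_of (κ := Bool → Bool) (by simp) _ (fun p => p.1) fun i j h => h
      have h4 := h3.map₂ (h1.map₂ h2 (fun x y => (x, y)))
        (fun u xy (β : V → Bool) => u (op (xy.1 β) (xy.2 β)))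
      refine Coded.mono h4 ?_
      unfold KK
      rw [if_neg (by omega), if_neg (by omega), if_neg (by omega)]
      obtain ⟨x, hx⟩ : ∃ x, a.leavesIn D = x + 1 := ⟨_, (Nat.sub_add_cancel ha).symm⟩
      obtain ⟨y, hy⟩ : ∃ y, b.leavesIn D = y + 1 := ⟨_, (Nat.sub_add_cancel hb).symm⟩
      rw [hx, hy, show 2 * (x + 1) - 1 = 2 * x + 1 by omega, show 2 * (y + 1) - 1 = 2 * y + 1 by omega,
        show 2 * (x + 1 + (y + 1)) - 1 = 1 + ((2 * x + 1) + (2 * y + 1)) by omega]
      exact le_of_eq (by ring)

theorem KK_le (l : ℕ) : KK l ≤ 2 ^ (1 + 4 * l) := by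
  unfold KK
  split_ifs with h
  · subst h
    norm_num
  · calc 4 ^ (2 * l - 1) ≤ 4 ^ (2 * l) := Nat.pow_le_pow_right (by norm_num) (by omega)
      _ = 2 ^ (4 * l) := by rw [show (4 : ℕ) = 2 ^ 2 by norm_num, ← pow_mul]; congr 1; ring
      _ ≤ 2 ^ (1 + 4 * l) := Nat.pow_le_pow_right (by norm_num) (by omega)

/-- The subfunctions of a tuple of formulas. -/
theorem formulas_coded (D : Finset V) {t : ℕ} (φ : Fin t → BFormula V) :
    Coded (fun (α : V → Bool) (β : V → Bool) (j : Fin t) => (φ j).eval (mix D α β))
      (2 ^ (t + 4 * ∑ j, (φ j).leavesIn D)) := by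
  have h1 : ∀ j, Coded (fun (α β : V → Bool) => (φ j).eval (mix D α β))
      (2 ^ (1 + 4 * (φ j).leavesIn D)) := fun j =>
    ((formula_coded D (φ j)).comp fun α : V → Bool => (id, α)).mono (KK_le _)
  have h2 := (Coded.pi h1).map (fun (g : Fin t → (V → Bool) → Bool) (β : V → Bool) (j : Fin t) => g j β)
  refine h2.mono (le_of_eq ?_)
  rw [Finset.prod_pow_eq_pow_sum]
  congr 1
  rw [sum_add_distrib, mul_sum]
  simp

end Formula

section Program

variable {V : Type} [DecidableEq V] {m : ℕ}

/-- position of a state in the order of a program -/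
def pos (x : Fin m ⊕ Bool) : ℕ := x.elim (fun i => i.val) fun _ => m

theorem iterate_sink (P : BProgram V m) (X : V → Bool) (k : ℕ) (b : Bool) :
    (P.step X)^[k] (Sum.inr b) = Sum.inr b := by
  induction k with
  | zero => rfl
  | succ k ih => rw [Function.iterate_succ_apply]; exact ih

/-- the sink reached from a state -/
def val (P : BProgram V m) (X : V → Bool) (x : Fin m ⊕ Bool) : Bool :=
  ((P.step X)^[m] x).elim (fun _ => false) id

theorem reaches (P : BProgram V m) (X : V → Bool) : ∀ (k : ℕ) (x : Fin m ⊕ Bool), m ≤ pos x + k →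
    ∃ b, (P.step X)^[k] x = Sum.inr b := by
  intro k
  induction k with
  | zero =>
    intro x hx
    rcases x with i | b
    · have : m ≤ i.val := hx
      exact absurd i.2 (by omega)
    · exact ⟨b, rfl⟩
  | succ k ih =>
    intro x hx
    rw [Function.iterate_succ_apply]
    apply ih
    rcases x with i | b
    · show m ≤ pos (P.next i (X (P.label i))) + k
      have hx' : m ≤ i.val + (k + 1) := hx
      rcases hn : P.next i (X (P.label i)) with j | b
      · have := P.acyclic i _ j hn
        have h2 : i.val < j.val := this
        show m ≤ j.val + k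
        omega
      · show m ≤ m + k
        omega
    · show m ≤ m + k
      omega

theorem val_step (P : BProgram V m) (X : V → Bool) (x : Fin m ⊕ Bool) :
    val P X (P.step X x) = val P X x := by
  obtain ⟨b, hb⟩ := reaches P X m x (by omega)
  unfold val
  rw [← Function.iterate_succ_apply, Function.iterate_succ_apply', hb]
  rfl

theorem val_inl (P : BProgram V m) (X : V → Bool) (i : Fin m) :
    val P X (Sum.inl i) = val P X (P.next i (X (P.label i))) := (val_step P X (Sum.inl i)).symm

theorem val_inr (P : BProgram V m) (X : V → Bool) (b : Bool) : val P X (Sum.inr b) = b := by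
  unfold val
  rw [iterate_sink]
  rfl

/-- skip the nodes which do not test variables of `D` -/
def skip (P : BProgram V m) (D : Finset V) (α : V → Bool) : Fin m ⊕ Bool → Fin m ⊕ Bool
  | Sum.inl i => if P.label i ∈ D then Sum.inl i else P.next i (α (P.label i))
  | Sum.inr b => Sum.inr b

theorem pos_skip (P : BProgram V m) (D : Finset V) (α : V → Bool) (x : Fin m ⊕ Bool) :
    pos x ≤ pos (skip P D α x) := by
  rcases x with i | b
  · show i.val ≤ pos (if P.label i ∈ D then Sum.inl i else P.next i (α (P.label i)))
    split_ifs
    · exact le_refl _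
    · rcases hn : P.next i (α (P.label i)) with j | b
      · exact (show i < j from P.acyclic i _ j hn).le
      · exact i.2.le
  · exact le_refl _

theorem pos_iter (P : BProgram V m) (D : Finset V) (α : V → Bool) (k : ℕ) (x : Fin m ⊕ Bool) :
    pos x ≤ pos ((skip P D α)^[k] x) := by
  induction k with
  | zero => exact le_refl _
  | succ k ih =>
    rw [Function.iterate_succ_apply']
    exact ih.trans (pos_skip P D α _)

theorem skip_reaches (P : BProgram V m) (D : Finset V) (α : V → Bool) :
    ∀ (k : ℕ) (x : Fin m ⊕ Bool), m ≤ pos x + k →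
      (∃ i, P.label i ∈ D ∧ (skip P D α)^[k] x = Sum.inl i) ∨ ∃ b, (skip P D α)^[k] x = Sum.inr b := by
  intro k
  induction k with
  | zero =>
    intro x hx
    rcases x with i | b
    · have : m ≤ i.val := hx
      exact absurd i.2 (by omega)
    · exact Or.inr ⟨b, rfl⟩
  | succ k ih =>
    intro x hx
    rcases x with i | b
    · by_cases hi : P.label i ∈ D
      · left
        refine ⟨i, hi, ?_⟩
        have : ∀ l, (skip P D α)^[l] (Sum.inl i) = Sum.inl i := by
          intro l
          induction l with
          | zero => rfl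
          | succ l ihl =>
            rw [Function.iterate_succ_apply', ihl]
            exact if_pos hi
        exact this _
      · rw [Function.iterate_succ_apply]
        apply ih
        have e : skip P D α (Sum.inl i) = P.next i (α (P.label i)) := if_neg hi
        rw [e]
        have hx' : m ≤ i.val + (k + 1) := hx
        rcases hn : P.next i (α (P.label i)) with j | b
        · have h2 : i.val < j.val := P.acyclic i _ j hn
          show m ≤ j.val + k
          omega
        · show m ≤ m + k
          omega
    · right
      refine ⟨b, ?_⟩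
      have : ∀ l, (skip P D α)^[l] (Sum.inr b) = Sum.inr b := by
        intro l
        induction l with
        | zero => rfl
        | succ l ihl =>
          rw [Function.iterate_succ_apply', ihl]
          rfl
      exact this _

theorem val_skip (P : BProgram V m) (D : Finset V) (α β : V → Bool) (x : Fin m ⊕ Bool) :
    val P (mix D α β) (skip P D α x) = val P (mix D α β) x := by
  rcases x with i | b
  · by_cases hi : P.label i ∈ D
    · rw [show skip P D α (Sum.inl i) = Sum.inl i from if_pos hi]
    · rw [show skip P D α (Sum.inl i) = P.next i (α (P.label i)) from if_neg hi,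
        val_inl P (mix D α β) i]
      congr 2
      rw [mix, if_neg hi]
  · rfl

/-- the first node testing a variable of `D`, or the sink, reached from a state -/
def jump (P : BProgram V m) (D : Finset V) (α : V → Bool) (x : Fin m ⊕ Bool) : Fin m ⊕ Bool :=
  (skip P D α)^[m] x

theorem val_jump (P : BProgram V m) (D : Finset V) (α β : V → Bool) (x : Fin m ⊕ Bool) :
    val P (mix D α β) (jump P D α x) = val P (mix D α β) x := by
  unfold jump
  have : ∀ k, val P (mix D α β) ((skip P D α)^[k] x) = val P (mix D α β) x := by
    intro k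
    induction k with
    | zero => rfl
    | succ k ih =>
      rw [Function.iterate_succ_apply', val_skip, ih]
  exact this m

theorem program_coded (D : Finset V) (P : BProgram V m) :
    Coded (fun α β : V → Bool => P.eval (mix D α β))
      (((univ.filter fun i => P.label i ∈ D).card + 2) ^
        (2 * (univ.filter fun i => P.label i ∈ D).card + 1)) := by
  classical
  let BN : Type := {i : Fin m // P.label i ∈ D}
  have hcard : Fintype.card BN = (univ.filter fun i => P.label i ∈ D).card :=
    Fintype.card_subtype _
  -- the reduced state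
  have hred : ∀ (α : V → Bool) (x : Fin m ⊕ Bool), ∃ y : BN ⊕ Bool,
      jump P D α x = y.elim (fun i => Sum.inl i.1) Sum.inr := by
    intro α x
    rcases skip_reaches P D α m x (by omega) with ⟨i, hi, h⟩ | ⟨b, h⟩
    · exact ⟨Sum.inl ⟨i, hi⟩, h⟩
    · exact ⟨Sum.inr b, h⟩
  choose red hr using hred
  let κ : Type := (BN ⊕ Bool) × (BN → Bool → BN ⊕ Bool)
  have hκ : Fintype.card κ = (Fintype.card BN + 2) ^ (2 * Fintype.card BN + 1) := by
    show Fintype.card ((BN ⊕ Bool) × (BN → Bool → BN ⊕ Bool)) = _
    rw [Fintype.card_prod, Fintype.card_fun, Fintype.card_fun, Fintype.card_sum, Fintype.card_bool,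
      ← pow_mul, ← pow_succ']
  rw [← hcard, ← hκ]
  refine coded_of (le_refl _) _ (fun α => (red α P.start, fun i b => red α (P.next i.1 b)))
    fun α α' h => ?_
  have h1 : red α P.start = red α' P.start := congrArg Prod.fst h
  have h2 : ∀ (i : BN) (b : Bool), red α (P.next i.1 b) = red α' (P.next i.1 b) := fun i b =>
    congrFun (congrFun (congrArg Prod.snd h) i) b
  funext β
  -- equality at the nodes
  have key : ∀ (k : ℕ) (i : BN), m ≤ i.1.val + k →
      val P (mix D α β) (Sum.inl i.1) = val P (mix D α' β) (Sum.inl i.1) := by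
    intro k
    induction k with
    | zero =>
      intro i hi
      exact absurd i.1.2 (by omega)
    | succ k ih =>
      intro i hi
      rw [val_inl, val_inl, mix, mix, if_pos i.2, if_pos i.2, ← val_jump P D α β,
        ← val_jump P D α' β]
      have h3 := hr α (P.next i.1 (β (P.label i.1)))
      have h4 := hr α' (P.next i.1 (β (P.label i.1)))
      rw [← h2] at h4
      rw [h3, h4]
      rcases hy : red α (P.next i.1 (β (P.label i.1))) with j | b
      · apply ih
        rw [hy] at h3
        have h5 : pos (P.next i.1 (β (P.label i.1))) ≤ pos (jump P D α (P.next i.1 (β (P.label i.1)))) :=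
          pos_iter P D α m _
        rw [h3] at h5
        have h6 : pos (P.next i.1 (β (P.label i.1))) ≤ j.1.val := h5
        have h7 : i.1.val < pos (P.next i.1 (β (P.label i.1))) := by
          rcases hn : P.next i.1 (β (P.label i.1)) with j' | b
          · exact P.acyclic i.1 _ j' hn
          · exact i.1.2
        omega
      · show val P (mix D α β) (Sum.inr b) = val P (mix D α' β) (Sum.inr b)
        rw [val_inr, val_inr]
  show val P (mix D α β) P.start = val P (mix D α' β) P.start
  rw [← val_jump P D α β, ← val_jump P D α' β, hr α, hr α', ← h1]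
  rcases red α P.start with j | b
  · exact key m j (by omega)
  · show val P (mix D α β) (Sum.inr b) = val P (mix D α' β) (Sum.inr b)
    rw [val_inr, val_inr]

end Program

end Pool.Agent.Helper97.Boo
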