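import Pool.Agent.Helper97.Form.Placed
import Pool.Agent.Helper97.Form.Necip

/-!
# FORM, Boolean part: the permanent modulo three has many subfunctions
-/

set_option autoImplicit false
set_option linter.unusedSectionVars false

namespace Pool.Agent.Helper97.Boo

open Finset Pool.Agent.Helper97.Form

/-- The block of the positions `(r k, c k)`. -/
def cells {n t : ℕ} (r c : Fin t → Fin n) : Finset (Fin n × Fin n) := univ.image fun k => (r k, c k)

theorem indep_rc {A : Type} [CommRing A] {s : ℕ} (g : RC s → A)
    (h : ∀ B : Finset (QQ s), ∑ i : RC s, g i * ∏ q ∈ UU i, (1 + if q ∈ B then (1 : A) else 0) = 0)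
    (i : RC s) : g i = 0 := by
  classical
  have h3 := indep_products (Q := QQ s) (fun S => ∑ i : RC s, if UU i = S then g i else 0) (by
    intro B
    refine Eq.trans ?_ (h B)
    simp only [sum_mul]
    rw [sum_comm]
    refine sum_congr rfl fun i _ => ?_
    rw [Finset.sum_eq_single (UU i)]
    · rw [if_pos rfl]
    · intro S _ hS
      rw [if_neg (Ne.symm hS), zero_mul]
    · intro h'
      exact absurd (mem_univ _) h')
  have h4 := h3 (UU i)
  beta_reduce at h4
  rw [Finset.sum_eq_single i] at h4
  · rwa [if_pos rfl] at h4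
  · intro i' _ hi'
    exact if_neg fun h => hi' (UU_injective s h)
  · intro h'
    exact absurd (mem_univ _) h'

theorem zmod3_eq : ∀ u v : ZMod 3, (∀ t : Fin 3, ((t.val : ZMod 3) + u = 0 ↔ (t.val : ZMod 3) + v = 0)) →
    u = v := by
  decide

theorem fin3_eq : ∀ t : Fin 3, (if 1 ≤ t.val then (1 : ZMod 3) else 0) +
    (if t.val = 2 then 1 else 0) = (t.val : ZMod 3) := by
  decide

theorem three_dvd_iff (x : ℕ) : 3 ∣ x ↔ (x : ZMod 3) = 0 := (ZMod.natCast_eq_zero_iff x 3).symm

/-- the set `{0, 1}` modulo three -/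
def S01 : Set (ZMod 3) := {x | x = 0 ∨ x = 1}

theorem many {n s : ℕ} (hs : 16 * 2 ^ s ≤ n) (r c : Fin (2 * s) → Fin n)
    (hr : Function.Injective r) (hc : Function.Injective c) {M : ℕ}
    (hM : Coded (fun (α β : Fin n × Fin n → Bool) =>
      decide (3 ∣ perm01 n (mix (cells r c) α β))) M) : 2 ^ (4 ^ s - 1) ≤ M ^ 3 := by
  classical
  obtain ⟨N, ρ, χ, hS, hz1, hz2, hinj, hne, hperm⟩ :=
    placed couplerThree (S := S01) (Or.inl rfl) (Or.inr rfl)
      (show ∀ l, couplerThree.w l = 0 ∨ couplerThree.w l = 1 by decide)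
      (show ∀ l, couplerThree.w' l = 0 ∨ couplerThree.w' l = 1 by decide)
      (show ∀ l l', couplerThree.Q l l' = 0 ∨ couplerThree.Q l l' = 1 by decide) s n hs r c hr hc
  have hcells : ∀ v : Fin n × Fin n, v ∈ cells r c ↔ ∃ q, v = (r q, c q) := by
    intro v
    simp only [cells, mem_image, mem_univ, true_and, eq_comm]
  let P : Type := Option (RC s) ⊕ QQ s
  let rr : P → Fin n := Sum.elim ρ r
  let cc : P → Fin n := Sum.elim χ c
  have hcell : ∀ p p' : P, rr p = rr p' → cc p = cc p' → p = p' := by
    rintro (o | q) (o' | q') h1 h2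
    · rw [hinj o o' h1 h2]
    · exact absurd h1 (hne o q')
    · exact absurd h1.symm (hne o' q)
    · rw [hr h1]
  have hzero : ∀ p : P, N (rr p) (cc p) = 0 := by
    rintro (o | q)
    · exact hz1 o
    · exact hz2 q
  let zc : (P → Bool) → P → ZMod 3 := fun z p => if z p = true then 1 else 0
  -- value at a cell
  have hval : ∀ (z : P → Bool) (p : P), plug N rr cc (zc z) (rr p) (cc p) = zc z p := by
    intro z p
    show N (rr p) (cc p) + (∑ e, if rr e = rr p ∧ cc e = cc p then zc z e else 0) = zc z p
    rw [hzero, zero_add, Finset.sum_eq_single p]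
    · exact if_pos ⟨rfl, rfl⟩
    · intro p' _ hp'
      exact if_neg fun h => hp' (hcell _ _ h.1 h.2)
    · intro h
      exact absurd (mem_univ _) h
  have hval' : ∀ (z : P → Bool) (i j : Fin n), (¬ ∃ p, rr p = i ∧ cc p = j) →
      plug N rr cc (zc z) i j = N i j := by
    intro z i j h
    show N i j + (∑ e, if rr e = i ∧ cc e = j then zc z e else 0) = N i j
    rw [sum_eq_zero, add_zero]
    intro p _
    exact if_neg fun h' => h ⟨p, h'⟩
  let X : (P → Bool) → Fin n × Fin n → Bool := fun z v => decide (plug N rr cc (zc z) v.1 v.2 = 1)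
  have hX01 : ∀ (z : P → Bool) (i j : Fin n), plug N rr cc (zc z) i j = 0 ∨
      plug N rr cc (zc z) i j = 1 := by
    intro z i j
    by_cases h : ∃ p, rr p = i ∧ cc p = j
    · obtain ⟨p, rfl, rfl⟩ := h
      rw [hval]
      show (if z p = true then (1 : ZMod 3) else 0) = 0 ∨ (if z p = true then (1 : ZMod 3) else 0) = 1
      split_ifs
      · exact Or.inr rfl
      · exact Or.inl rfl
    · rw [hval' z i j h]
      exact hS i j
  have hXperm : ∀ z : P → Bool, (perm01 n (X z) : ZMod 3) = (plug N rr cc (zc z)).permanent := by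
    intro z
    unfold perm01 Matrix.permanent
    push_cast
    refine sum_congr rfl fun σ _ => prod_congr rfl fun i _ => ?_
    show ((if X z (σ i, i) = true then 1 else 0 : ℕ) : ZMod 3) = plug N rr cc (zc z) (σ i) i
    rcases hX01 z (σ i) i with h | h
    · have : X z (σ i, i) = false := by
        show decide (plug N rr cc (zc z) (σ i) i = 1) = false
        rw [h]
        decide
      rw [this, h]
      simp
    · have : X z (σ i, i) = true := by
        show decide (plug N rr cc (zc z) (σ i) i = 1) = true
        rw [h]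
        decide
      rw [this, h]
      simp
  -- mixing
  have hmix : ∀ (z : P → Bool) (ζ : QQ s → Bool),
      mix (cells r c) (X (fun p => Sum.elim (fun o => z (Sum.inl o)) (fun _ => false) p))
        (fun v => Function.extend r ζ (fun _ => false) v.1) =
        X (fun p => Sum.elim (fun o => z (Sum.inl o)) ζ p) := by
    intro z ζ
    funext v
    by_cases hv : v ∈ cells r c
    · rw [mix, if_pos hv]
      obtain ⟨q, rfl⟩ := (hcells v).1 hv
      rw [hr.extend_apply]
      show ζ q = decide (plug N rr cc _ (rr (Sum.inr q)) (cc (Sum.inr q)) = 1)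
      rw [hval]
      show ζ q = decide ((if ζ q = true then (1 : ZMod 3) else 0) = 1)
      cases ζ q
      · decide
      · decide
    · rw [mix, if_neg hv]
      show decide (plug N rr cc _ v.1 v.2 = 1) = decide (plug N rr cc _ v.1 v.2 = 1)
      by_cases h : ∃ p, rr p = v.1 ∧ cc p = v.2
      · obtain ⟨p, h1, h2⟩ := h
        rw [← h1, ← h2, hval, hval]
        rcases p with o | q
        · rfl
        · exfalso
          apply hv
          rw [hcells]
          exact ⟨q, Prod.ext h1.symm h2.symm⟩
      · rw [hval' _ _ _ h, hval' _ _ _ h]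
  -- the parameters
  let rc0 : RC s := (⟨0, by positivity⟩, ⟨0, by positivity⟩)
  have hU0 : UU rc0 = ∅ := by
    rw [UU, filter_eq_empty_iff]
    intro q _
    simp [rc0]
  let Par : Type := {rc : RC s // rc ≠ rc0} → Bool
  let zt : Par → Fin 3 → P → Bool := fun y t => Sum.elim (fun o => match o with
    | none => decide (1 ≤ t.val)
    | some rc => if h : rc ≠ rc0 then y ⟨rc, h⟩ else decide (t.val = 2)) (fun _ => false)
  let G : Par → RC s → ZMod 3 := fun y rc => if h : rc ≠ rc0 then (if y ⟨rc, h⟩ = true then 1 else 0)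
    else 0
  have hvalue : ∀ (y : Par) (t : Fin 3) (ζ : QQ s → Bool),
      (perm01 n (X (fun p => Sum.elim (fun o => zt y t (Sum.inl o)) ζ p)) : ZMod 3) =
        (t.val : ZMod 3) + ∑ rc : RC s, G y rc * ∏ q ∈ UU rc, (1 + if ζ q = true then 1 else 0) := by
    intro y t ζ
    rw [hXperm, hperm]
    have e1 : ∀ rc : RC s, zc (fun p => Sum.elim (fun o => zt y t (Sum.inl o)) ζ p)
        (Sum.inl (some rc)) * ∏ q ∈ UU rc, (1 + zc (fun p => Sum.elim (fun o => zt y t (Sum.inl o)) ζ p)
          (Sum.inr q)) = G y rc * ∏ q ∈ UU rc, (1 + if ζ q = true then 1 else 0) +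
            if rc = rc0 then (if t.val = 2 then 1 else 0) else 0 := by
      intro rc
      show (if (if h : rc ≠ rc0 then y ⟨rc, h⟩ else decide (t.val = 2)) = true then (1 : ZMod 3) else 0) *
        ∏ q ∈ UU rc, (1 + if ζ q = true then 1 else 0) =
          (if h : rc ≠ rc0 then (if y ⟨rc, h⟩ = true then 1 else 0) else 0) *
            ∏ q ∈ UU rc, (1 + if ζ q = true then 1 else 0) +
            if rc = rc0 then (if t.val = 2 then 1 else 0) else 0
      by_cases h : rc = rc0
      · subst h
        rw [hU0, prod_empty]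
        simp
      · rw [dif_pos h, dif_pos h, if_neg h, add_zero]
    rw [sum_congr rfl fun rc _ => e1 rc, sum_add_distrib, sum_ite_eq' univ rc0, if_pos (mem_univ _)]
    have e2 : zc (fun p => Sum.elim (fun o => zt y t (Sum.inl o)) ζ p) (Sum.inl none) =
        if 1 ≤ t.val then 1 else 0 := by
      show (if decide (1 ≤ t.val) = true then (1 : ZMod 3) else 0) = _
      simp
    rw [e2]
    rw [← fin3_eq t]
    ring
  obtain ⟨code, hcode⟩ := hM
  let Φ : Par → Fin 3 → Fin M := fun y t =>
    code (X (fun p => Sum.elim (fun o => zt y t (Sum.inl o)) (fun _ => false) p))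
  have hΦ : Function.Injective Φ := by
    intro y y' hyy
    have h1 : ∀ (ζ : QQ s → Bool), ∑ rc : RC s, G y rc * ∏ q ∈ UU rc, (1 + if ζ q = true then 1 else 0) =
        ∑ rc : RC s, G y' rc * ∏ q ∈ UU rc, (1 + if ζ q = true then 1 else 0) := by
      intro ζ
      apply zmod3_eq
      intro t
      rw [← hvalue y t ζ, ← hvalue y' t ζ, ← three_dvd_iff, ← three_dvd_iff]
      have h2 := congrFun (hcode _ _ (congrFun hyy t)) (fun v => Function.extend r ζ (fun _ => false) v.1)
      beta_reduce at h2
      rw [hmix, hmix] at h2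
      exact decide_eq_decide.1 h2
    have h3 : ∀ rc : RC s, G y rc - G y' rc = 0 := by
      apply indep_rc (fun rc => G y rc - G y' rc)
      intro B
      have h4 := h1 fun q => decide (q ∈ B)
      simp only [decide_eq_true_eq] at h4
      simp only [sub_mul]
      rw [sum_sub_distrib, h4, sub_self]
    funext rc
    have h5 := h3 rc.1
    simp only [G] at h5
    rw [dif_pos rc.2, dif_pos rc.2] at h5
    cases h6 : y rc <;> cases h7 : y' rc
    · rfl
    · exfalso
      simp only [Subtype.coe_eta, h6, h7] at h5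
      exact absurd h5 (by decide)
    · exfalso
      simp only [Subtype.coe_eta, h6, h7] at h5
      exact absurd h5 (by decide)
    · rfl
  have hle := Fintype.card_le_of_injective Φ hΦ
  have hc1 : Fintype.card Par = 2 ^ (4 ^ s - 1) := by
    show Fintype.card ({rc : RC s // rc ≠ rc0} → Bool) = _
    rw [Fintype.card_fun, Fintype.card_bool, Fintype.card_subtype_compl, Fintype.card_subtype_eq,
      Fintype.card_prod, Fintype.card_fin, ← Nat.mul_pow]
  rw [hc1, Fintype.card_fun, Fintype.card_fin, Fintype.card_fin] at hle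
  exact hle

end Pool.Agent.Helper97.Boo
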