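import Pool.Agent.Helper97.Form.BoolBlocks

/-!
# FORM, Boolean part: formulas and branching programs for the permanent modulo three
-/

set_option autoImplicit false

namespace Pool.Agent.Helper97.Boo

open Finset Pool.Agent.Helper97.Form

theorem numeric_core (a : ℕ) (ha : 1 ≤ a) (n : ℕ) (hbig : 4 * a ≤ n) : ∃ s : ℕ, 2 ≤ s ∧
    a * 2 ^ s ≤ n ∧ n < 2 * a * 2 ^ s ∧ n ^ 4 ≤ 16 * a ^ 2 * s * (n * (n / (2 * s)) * 4 ^ s) ∧
      (s : ℝ) ≤ 2 * Real.log n := by
  set s := Nat.log 2 (n / a) with hs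
  have hna : 4 ≤ n / a := (Nat.le_div_iff_mul_le ha).2 hbig
  have h1 : 2 ^ s ≤ n / a := Nat.pow_log_le_self 2 (by omega)
  have h2 : n / a < 2 ^ (s + 1) := Nat.lt_pow_succ_log_self (by norm_num) _
  have hs2 : 2 ≤ s := by
    by_contra hcon
    have : 2 ^ (s + 1) ≤ 2 ^ 2 := Nat.pow_le_pow_right (by norm_num) (by omega)
    omega
  have h3 : a * 2 ^ s ≤ n := by
    have := Nat.mul_le_mul_left a h1
    exact this.trans (Nat.mul_div_le n a)
  have h4 : n < 2 * a * 2 ^ s := by
    have : n / a < 2 ^ (s + 1) := h2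
    rw [Nat.div_lt_iff_lt_mul ha] at this
    calc n < 2 ^ (s + 1) * a := this
      _ = 2 * a * 2 ^ s := by rw [pow_succ]; ring
  have h6 : 2 * s ≤ n := by
    obtain ⟨t, ht⟩ : ∃ t, s = t + 1 := ⟨s - 1, by omega⟩
    have h7 : t < 2 ^ t := Nat.lt_two_pow_self
    have h8 : 2 * s ≤ 2 ^ s := by
      rw [ht, pow_succ]
      omega
    exact (h8.trans h1).trans (Nat.div_le_self n a)
  have h7 : n ≤ 4 * s * (n / (2 * s)) := by
    have hq : 1 ≤ n / (2 * s) := (Nat.one_le_div_iff (by omega)).2 h6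
    have hd := Nat.div_add_mod n (2 * s)
    have hm := Nat.mod_lt n (show 0 < 2 * s by omega)
    have e : 4 * s * (n / (2 * s)) = 2 * s * (n / (2 * s)) + 2 * s * (n / (2 * s)) := by ring
    rw [e]
    have : 2 * s ≤ 2 * s * (n / (2 * s)) := Nat.le_mul_of_pos_right _ hq
    omega
  have h8 : n * n ≤ 4 * a ^ 2 * 4 ^ s := by
    calc n * n ≤ (2 * a * 2 ^ s) * (2 * a * 2 ^ s) := Nat.mul_le_mul h4.le h4.le
      _ = 4 * a ^ 2 * (2 * 2) ^ s := by rw [mul_pow]; ring
      _ = 4 * a ^ 2 * 4 ^ s := by norm_num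
  refine ⟨s, hs2, h3, h4, ?_, ?_⟩
  · calc n ^ 4 = n * n * (n * n) := by ring
      _ ≤ n * (4 * s * (n / (2 * s))) * (4 * a ^ 2 * 4 ^ s) :=
          Nat.mul_le_mul (Nat.mul_le_mul_left _ h7) h8
      _ = 16 * a ^ 2 * s * (n * (n / (2 * s)) * 4 ^ s) := by ring
  · have h11 : (s : ℝ) * Real.log 2 ≤ Real.log n := by
      rw [← Real.log_pow]
      apply Real.log_le_log (by positivity)
      exact_mod_cast h1.trans (Nat.div_le_self n a)
    have h12 : (1 : ℝ) / 2 ≤ Real.log 2 := by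
      have := Real.log_two_gt_d9
      linarith
    nlinarith [Nat.cast_nonneg (α := ℝ) s]

theorem pow4_ge (s : ℕ) (hs : 2 ≤ s) : 8 * s ≤ 4 ^ s := by
  induction s, hs using Nat.le_induction with
  | base => norm_num
  | succ k hk ih =>
    rw [pow_succ]
    omega

/-- the bound for a block, formulas -/
theorem formula_block {n s : ℕ} (hs2 : 2 ≤ s) (hs : 16 * 2 ^ s ≤ n) (φ : BFormula (Fin n × Fin n))
    (hφ : ∀ X, φ.eval X = decide (3 ∣ perm01 n X)) (r c : Fin (2 * s) → Fin n)
    (hr : Function.Injective r) (hc : Function.Injective c) :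
    4 ^ s ≤ 16 * φ.leavesIn (cells r c) := by
  have h1 := (formulas_coded (cells r c) (fun _ : Fin 1 => φ)).map
    (fun (g : (Fin n × Fin n → Bool) → Fin 1 → Bool) (β : Fin n × Fin n → Bool) => g β 0)
  have h2 : Coded (fun (α β : Fin n × Fin n → Bool) => decide (3 ∣ perm01 n (mix (cells r c) α β)))
      (2 ^ (1 + 4 * φ.leavesIn (cells r c))) := by
    refine (h1.congr fun α => ?_).mono (by simp)
    funext β
    exact hφ _
  have h3 := many hs r c hr hc h2
  rw [← pow_mul] at h3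
  have h4 := (Nat.pow_le_pow_iff_right (by norm_num : 1 < 2)).1 h3
  have h5 := pow4_ge s hs2
  omega

/-- the bound for a block, branching programs -/
theorem program_block {n s m : ℕ} (hs2 : 2 ≤ s) (hs : 16 * 2 ^ s ≤ n)
    (P : BProgram (Fin n × Fin n) m)
    (hP : ∀ X, P.eval X = decide (3 ∣ perm01 n X)) (r c : Fin (2 * s) → Fin n)
    (hr : Function.Injective r) (hc : Function.Injective c) :
    4 ^ s ≤ 32 * s * (univ.filter fun k => P.label k ∈ cells r c).card := by
  set k := (univ.filter fun k => P.label k ∈ cells r c).card with hk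
  have h2 : Coded (fun (α β : Fin n × Fin n → Bool) => decide (3 ∣ perm01 n (mix (cells r c) α β)))
      ((k + 2) ^ (2 * k + 1)) := by
    refine (program_coded (cells r c) P).congr fun α => ?_
    funext β
    exact hP _
  have h3 := many hs r c hr hc h2
  have h5 := pow4_ge s hs2
  by_contra hcon
  push Not at hcon
  -- the number of nodes is small
  have h6 : k + 2 ≤ 2 ^ (2 * s) := by
    rw [show (2 : ℕ) ^ (2 * s) = 4 ^ s by rw [pow_mul]; norm_num]
    nlinarith
  have h7 : ((k + 2) ^ (2 * k + 1)) ^ 3 ≤ 2 ^ (2 * s * (2 * k + 1) * 3) := by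
    rw [pow_mul, pow_mul]
    exact Nat.pow_le_pow_left (Nat.pow_le_pow_left h6 _) _
  have h8 := (Nat.pow_le_pow_iff_right (by norm_num : 1 < 2)).1 (h3.trans h7)
  -- `4 ^ s - 1 ≤ 12 s k + 6 s`
  rcases Nat.eq_zero_or_pos k with h0 | h0
  · rw [h0] at h8
    have : 2 * s * (2 * 0 + 1) * 3 = 6 * s := by ring
    omega
  · have h9 : 2 * s * (2 * k + 1) * 3 = 12 * (s * k) + 6 * s := by ring
    have h10 : s ≤ s * k := Nat.le_mul_of_pos_right _ h0
    have h11 : 32 * s * k = 32 * (s * k) := by ring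
    omega

theorem main : ∃ c : ℝ, 0 < c ∧ ∀ n : ℕ, 2 ≤ n →
    (∀ φ : BFormula (Fin n × Fin n), (∀ X, φ.eval X = decide (3 ∣ perm01 n X)) →
      c * (n : ℝ) ^ 4 / Real.log n ≤ φ.size) ∧
    (∀ (m : ℕ) (P : BProgram (Fin n × Fin n) m), (∀ X, P.eval X = decide (3 ∣ perm01 n X)) →
      c * (n : ℝ) ^ 4 / (Real.log n) ^ 2 ≤ m) := by
  have hl2 : (0 : ℝ) < Real.log 2 := Real.log_pos (by norm_num)
  have hl2' : Real.log 2 < 1 := by
    have := Real.log_two_lt_d9
    linarith
  -- a large constant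
  obtain ⟨c, hc, hc1, hc2⟩ : ∃ c : ℝ, 0 < c ∧ c * 2 ^ 30 ≤ 1 ∧ c * 2 ^ 30 ≤ Real.log 2 ^ 2 := by
    refine ⟨min 1 (Real.log 2 ^ 2) / 2 ^ 30, by positivity, ?_, ?_⟩
    · rw [div_mul_cancel₀ _ (by positivity)]
      exact min_le_left _ _
    · rw [div_mul_cancel₀ _ (by positivity)]
      exact min_le_right _ _
  refine ⟨c, hc, fun n hn => ?_⟩
  have hlog : Real.log 2 ≤ Real.log n := Real.log_le_log (by norm_num) (by exact_mod_cast hn)
  have hlogpos : 0 < Real.log n := hl2.trans_le hlog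
  rcases Nat.lt_or_ge n (4 * 16) with hsmall | hbig
  · -- small `n`
    have hn4 : (n : ℝ) ^ 4 ≤ 2 ^ 30 := by
      have h1 : (n : ℝ) ≤ 64 := by exact_mod_cast hsmall.le
      calc (n : ℝ) ^ 4 ≤ 64 ^ 4 := by gcongr
        _ ≤ 2 ^ 30 := by norm_num
    have hcn : c * (n : ℝ) ^ 4 ≤ Real.log 2 ^ 2 := (mul_le_mul_of_nonneg_left hn4 hc.le).trans hc2
    have hne := nonconst n (by omega)
    constructor
    · intro φ hφ
      have hsz : 1 ≤ φ.size := by
        by_contra hcon
        apply hne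
        rw [← hφ, ← hφ]
        exact eval_const φ (by omega) _ _
      have hsz' : (1 : ℝ) ≤ φ.size := by exact_mod_cast hsz
      rw [div_le_iff₀ hlogpos]
      have h1 : Real.log 2 ^ 2 ≤ Real.log 2 := by nlinarith
      calc c * (n : ℝ) ^ 4 ≤ Real.log 2 ^ 2 := hcn
        _ ≤ Real.log 2 := h1
        _ ≤ Real.log n := hlog
        _ = 1 * Real.log n := by ring
        _ ≤ φ.size * Real.log n := mul_le_mul_of_nonneg_right hsz' hlogpos.le
    · intro m P hP
      have hsz : 1 ≤ m := by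
        by_contra hcon
        have hm : m = 0 := by omega
        subst hm
        apply hne
        rw [← hP, ← hP]
        rfl
      have hsz' : (1 : ℝ) ≤ m := by exact_mod_cast hsz
      rw [div_le_iff₀ (by positivity)]
      calc c * (n : ℝ) ^ 4 ≤ Real.log 2 ^ 2 := hcn
        _ ≤ Real.log n ^ 2 := by gcongr
        _ = 1 * Real.log n ^ 2 := by ring
        _ ≤ m * Real.log n ^ 2 := mul_le_mul_of_nonneg_right hsz' (by positivity)
  · -- large `n`
    obtain ⟨s, hs2, h3, -, h9, h10⟩ := numeric_core 16 (by norm_num) n hbig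
    constructor
    · intro φ hφ
      have key : ∀ r c : Fin (2 * s) → Fin n, Function.Injective r → Function.Injective c →
          (4 ^ s + 15) / 16 ≤ φ.leavesIn (cells r c) := by
        intro r c hr hc
        have := formula_block hs2 h3 φ hφ r c hr hc
        omega
      have hb := blocks n (2 * s) (by omega) (fun D => φ.leavesIn D) φ.size _
        (fun I _ D hD => sum_leavesIn D hD φ) key
      have h6 : 4 ^ s ≤ 16 * ((4 ^ s + 15) / 16) := by omega
      have h7 : n * (n / (2 * s)) * 4 ^ s ≤ 16 * φ.size := by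
        calc n * (n / (2 * s)) * 4 ^ s ≤ n * (n / (2 * s)) * (16 * ((4 ^ s + 15) / 16)) :=
              Nat.mul_le_mul_left _ h6
          _ = 16 * (n * (n / (2 * s)) * ((4 ^ s + 15) / 16)) := by ring
          _ ≤ 16 * φ.size := Nat.mul_le_mul_left _ hb
      have h8 : n ^ 4 ≤ 16 * 16 ^ 2 * s * (16 * φ.size) := h9.trans (Nat.mul_le_mul_left _ h7)
      have h8R : (n : ℝ) ^ 4 ≤ 16 * 16 ^ 2 * s * (16 * φ.size) := by exact_mod_cast h8
      rw [div_le_iff₀ hlogpos]
      have hsz : (0 : ℝ) ≤ φ.size := Nat.cast_nonneg _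
      have h11 : (n : ℝ) ^ 4 ≤ 2 ^ 30 * (φ.size * Real.log n) := by
        calc (n : ℝ) ^ 4 ≤ 16 * 16 ^ 2 * s * (16 * φ.size) := h8R
          _ ≤ 16 * 16 ^ 2 * (2 * Real.log n) * (16 * φ.size) := by gcongr
          _ = 2 ^ 17 * (φ.size * Real.log n) := by ring
          _ ≤ 2 ^ 30 * (φ.size * Real.log n) := by
              apply mul_le_mul_of_nonneg_right (by norm_num) (by positivity)
      calc c * (n : ℝ) ^ 4 ≤ c * (2 ^ 30 * (φ.size * Real.log n)) :=
            mul_le_mul_of_nonneg_left h11 hc.le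
        _ = c * 2 ^ 30 * (φ.size * Real.log n) := by ring
        _ ≤ 1 * (φ.size * Real.log n) := mul_le_mul_of_nonneg_right hc1 (by positivity)
        _ = φ.size * Real.log n := one_mul _
    · intro m P hP
      have hs0 : 0 < 32 * s := by omega
      have key : ∀ r c : Fin (2 * s) → Fin n, Function.Injective r → Function.Injective c →
          (4 ^ s + (32 * s - 1)) / (32 * s) ≤ (univ.filter fun k => P.label k ∈ cells r c).card := by
        intro r c hr hc
        have := program_block hs2 h3 P hP r c hr hc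
        rw [Nat.div_le_iff_le_mul_add_pred hs0]
        omega
      have hb := blocks n (2 * s) (by omega) (fun D => (univ.filter fun k => P.label k ∈ D).card) m _
        (fun I _ D hD => sum_labels D hD P) key
      have h6 : 4 ^ s ≤ 32 * s * ((4 ^ s + (32 * s - 1)) / (32 * s)) := by
        have h := Nat.div_add_mod (4 ^ s + (32 * s - 1)) (32 * s)
        have h' := Nat.mod_lt (4 ^ s + (32 * s - 1)) hs0
        omega
      have h7 : n * (n / (2 * s)) * 4 ^ s ≤ 32 * s * m := by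
        calc n * (n / (2 * s)) * 4 ^ s ≤
              n * (n / (2 * s)) * (32 * s * ((4 ^ s + (32 * s - 1)) / (32 * s))) :=
              Nat.mul_le_mul_left _ h6
          _ = 32 * s * (n * (n / (2 * s)) * ((4 ^ s + (32 * s - 1)) / (32 * s))) := by ring
          _ ≤ 32 * s * m := Nat.mul_le_mul_left _ hb
      have h8 : n ^ 4 ≤ 16 * 16 ^ 2 * s * (32 * s * m) := h9.trans (Nat.mul_le_mul_left _ h7)
      have h8R : (n : ℝ) ^ 4 ≤ 16 * 16 ^ 2 * s * (32 * s * m) := by exact_mod_cast h8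
      rw [div_le_iff₀ (by positivity)]
      have hsz : (0 : ℝ) ≤ m := Nat.cast_nonneg _
      have h11 : (n : ℝ) ^ 4 ≤ 2 ^ 30 * (m * Real.log n ^ 2) := by
        calc (n : ℝ) ^ 4 ≤ 16 * 16 ^ 2 * s * (32 * s * m) := h8R
          _ ≤ 16 * 16 ^ 2 * (2 * Real.log n) * (32 * (2 * Real.log n) * m) := by gcongr
          _ = 2 ^ 19 * (m * Real.log n ^ 2) := by ring
          _ ≤ 2 ^ 30 * (m * Real.log n ^ 2) := by
              apply mul_le_mul_of_nonneg_right (by norm_num) (by positivity)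
      calc c * (n : ℝ) ^ 4 ≤ c * (2 ^ 30 * (m * Real.log n ^ 2)) :=
            mul_le_mul_of_nonneg_left h11 hc.le
        _ = c * 2 ^ 30 * (m * Real.log n ^ 2) := by ring
        _ ≤ 1 * (m * Real.log n ^ 2) := mul_le_mul_of_nonneg_right hc1 (by positivity)
        _ = m * Real.log n ^ 2 := one_mul _

end Pool.Agent.Helper97.Boo
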