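import Pool.Agent.Helper97.Form.Tree

/-!
# FORM: the gadget
-/

set_option autoImplicit false
set_option linter.unusedSectionVars false

namespace Pool.Agent.Helper97.Form

open Finset

variable {L : ℕ} {A : Type} [CommRing A]

/-- the pairs of leaves -/
abbrev RC (L : ℕ) : Type := Fin (2 ^ L) × Fin (2 ^ L)

/-- the ports of a monomial -/
def memP (rc : RC L) (T : Finset (QQ L)) : EE L ⊕ QQ L → Prop
  | Sum.inl (Sum.inl (Sum.inl e)) => rc.1.val.testBit e.1.1 = false ∧ e.1.2 = rc.1.val % 2 ^ e.1.1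
  | Sum.inl (Sum.inl (Sum.inr e)) => rc.2.val.testBit e.1.1 = false ∧ e.1.2 = rc.2.val % 2 ^ e.1.1
  | Sum.inl (Sum.inr none) => False
  | Sum.inl (Sum.inr (some rc')) => rc' = rc
  | Sum.inr q => q ∈ T

open Classical in
/-- the monomials -/
noncomputable def mm : Option (RC L × Finset (QQ L)) → Finset (EE L ⊕ QQ L)
  | none => {Sum.inl (Sum.inr none)}
  | some j => univ.filter (memP j.1 j.2)

theorem mem_mm {j : RC L × Finset (QQ L)} {p : EE L ⊕ QQ L} : p ∈ mm (some j) ↔ memP j.1 j.2 p := by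
  simp [mm]

theorem prod_tree (f : ↥(te L) → A) (g : ℕ → ℕ → A) (hfg : ∀ e : ↥(te L), g e.1.1 e.1.2 = f e)
    (r : ℕ) (dec : ∀ e : ↥(te L), Decidable (r.testBit e.1.1 = false ∧ e.1.2 = r % 2 ^ e.1.1)) :
    ∏ e : ↥(te L), (if r.testBit e.1.1 = false ∧ e.1.2 = r % 2 ^ e.1.1 then f e else 1) =
      Ff L g 0 r := by
  classical
  have e1 : ∏ e : ↥(te L), (if r.testBit e.1.1 = false ∧ e.1.2 = r % 2 ^ e.1.1 then f e else 1) =
      ∏ e ∈ te L, if r.testBit e.1 = false ∧ e.2 = r % 2 ^ e.1 then g e.1 e.2 else 1 := by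
    rw [← Finset.prod_coe_sort (te L) fun e =>
      if r.testBit e.1 = false ∧ e.2 = r % 2 ^ e.1 then g e.1 e.2 else 1]
    refine prod_congr rfl fun e _ => ?_
    rw [hfg e]
    congr
  rw [e1, te, prod_sigma, Ff, Nat.Ico_zero_eq_range]
  refine prod_congr rfl fun k _ => ?_
  cases hb : r.testBit k
  · simp only [hb, true_and, Bool.false_eq_true, if_false]
    rw [prod_ite_eq', if_pos]
    exact mem_range.2 (Nat.mod_lt _ (by positivity))
  · simp [hb]

theorem Ff_eq_Cf (z : ℕ → ℕ → A) (zb : ℕ → A) (c : ℕ) : Cf L z zb L c = Ff L z 0 c * Bf L zb 0 := by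
  unfold Cf Ff
  rw [Nat.Ico_zero_eq_range]

theorem prod_mm (rc : RC L) (T : Finset (QQ L)) (z : EE L ⊕ QQ L → A) :
    ∏ p ∈ mm (some (rc, T)), z p =
      z (Sum.inl (Sum.inr (some rc))) * (Ff L (z1 z) 0 rc.1 * Ff L (z2 z) 0 rc.2) *
        ∏ q ∈ T, z (Sum.inr q) := by
  classical
  have h1 : ∏ p ∈ mm (some (rc, T)), z p = ∏ p, if memP rc T p then z p else 1 := by
    rw [mm, prod_filter]
  rw [h1, Fintype.prod_sum_type, Fintype.prod_sum_type, Fintype.prod_sum_type, Fintype.prod_option]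
  have t1 : ∏ e : ↥(te L), (if memP rc T (Sum.inl (Sum.inl (Sum.inl e))) then
      z (Sum.inl (Sum.inl (Sum.inl e))) else 1) = Ff L (z1 z) 0 rc.1 := by
    rw [← prod_tree (fun e => z (Sum.inl (Sum.inl (Sum.inl e)))) (z1 z) (fun e => by
      unfold z1; rw [dif_pos (show (⟨e.1.1, e.1.2⟩ : (_ : ℕ) × ℕ) ∈ te L from e.2)]) rc.1
      (fun e => Classical.dec _)]
    refine prod_congr rfl fun e _ => ?_
    congr
  have t2 : ∏ e : ↥(te L), (if memP rc T (Sum.inl (Sum.inl (Sum.inr e))) then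
      z (Sum.inl (Sum.inl (Sum.inr e))) else 1) = Ff L (z2 z) 0 rc.2 := by
    rw [← prod_tree (fun e => z (Sum.inl (Sum.inl (Sum.inr e)))) (z2 z) (fun e => by
      unfold z2; rw [dif_pos (show (⟨e.1.1, e.1.2⟩ : (_ : ℕ) × ℕ) ∈ te L from e.2)]) rc.2
      (fun e => Classical.dec _)]
    refine prod_congr rfl fun e _ => ?_
    congr
  have t3 : (if memP rc T (Sum.inl (Sum.inr none)) then z (Sum.inl (Sum.inr none)) else 1) = 1 :=
    if_neg (fun h => h)
  have t4 : ∏ rc' : RC L, (if memP rc T (Sum.inl (Sum.inr (some rc'))) then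
      z (Sum.inl (Sum.inr (some rc'))) else 1) = z (Sum.inl (Sum.inr (some rc))) := by
    have : ∀ rc' : RC L, (if memP rc T (Sum.inl (Sum.inr (some rc'))) then
      z (Sum.inl (Sum.inr (some rc'))) else 1) =
        if rc' = rc then z (Sum.inl (Sum.inr (some rc'))) else 1 := by
      intro rc'
      by_cases h : rc' = rc
      · rw [if_pos (show memP rc T (Sum.inl (Sum.inr (some rc'))) from h), if_pos h]
      · rw [if_neg (show ¬ memP rc T (Sum.inl (Sum.inr (some rc'))) from h), if_neg h]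
    rw [prod_congr rfl fun rc' _ => this rc', prod_ite_eq', if_pos (mem_univ _)]
  have t5 : ∏ q : QQ L, (if memP rc T (Sum.inr q) then z (Sum.inr q) else 1) =
      ∏ q ∈ T, z (Sum.inr q) := by
    have : ∀ q : QQ L, (if memP rc T (Sum.inr q) then z (Sum.inr q) else 1) =
        if q ∈ T then z (Sum.inr q) else 1 := by
      intro q
      by_cases h : q ∈ T
      · rw [if_pos (show memP rc T (Sum.inr q) from h), if_pos h]
      · rw [if_neg (show ¬ memP rc T (Sum.inr q) from h), if_neg h]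
    rw [prod_congr rfl fun q _ => this q, ← prod_filter]
    simp
  rw [t1, t2, t3, t4, t5]
  ring

theorem prod_one_add_bits (z : EE L ⊕ QQ L → A) :
    Bf L (zb z) 0 = ∑ T : Finset (QQ L), ∏ q ∈ T, z (Sum.inr q) := by
  have h := Finset.prod_one_add (s := (univ : Finset (QQ L))) (f := fun q => z (Sum.inr q))
  rw [powerset_univ] at h
  rw [← h, Bf, Nat.Ico_zero_eq_range, ← Fin.prod_univ_eq_prod_range (fun l => 1 + zb z l)]
  refine prod_congr rfl fun q _ => ?_
  unfold zb
  rw [dif_pos q.2]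

theorem perm_base' (z : EE L ⊕ QQ L → A) : (plug (selfl (N0 L A)) rho chi z).permanent =
    ∑ j ∈ (univ : Finset (Option (RC L × Finset (QQ L)))), 1 * ∏ p ∈ mm j, z p := by
  rw [perm_base, Fintype.sum_option]
  congr 1
  · simp [mm]
  · rw [Fintype.sum_prod_type, Fintype.sum_prod_type]
    refine sum_congr rfl fun r _ => sum_congr rfl fun c _ => ?_
    rw [Ff_eq_Cf, prod_one_add_bits, mul_sum, mul_sum, mul_sum]
    refine sum_congr rfl fun T _ => ?_
    rw [prod_mm]
    ring

theorem nxt_ne (i : Option (Tau L)) : nxt i ≠ some i := by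
  rcases i with _ | i
  · rw [nxt]
    simp
  · intro h
    have := rk_N0 (A := ℤ) i i (by rw [N0, if_pos h]; exact one_ne_zero)
    exact lt_irrefl _ this

theorem base_entries {S : Set A} (h0 : (0 : A) ∈ S) (h1 : (1 : A) ∈ S) (i j : Option (Tau L)) :
    selfl (N0 L A) i j ∈ S := by
  show (if i = j ∧ i ≠ none then (1 : A) else 0) + (if nxt i = some j then 1 else 0) ∈ S
  by_cases h : i = j ∧ i ≠ none
  · rw [if_pos h, if_neg, add_zero]
    · exact h1
    · rw [← h.1]
      exact nxt_ne i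
  · rw [if_neg h, zero_add]
    split_ifs
    · exact h1
    · exact h0

theorem base_zero (e : EE L) : selfl (N0 L A) (rho (Sum.inl e)) (chi (Sum.inl e)) = 0 := by
  have key : ∀ i j : Option (Tau L), (i = j → i = none) → nxt i ≠ some j →
      selfl (N0 L A) i j = 0 := by
    intro i j h1 h2
    show (if i = j ∧ i ≠ none then (1 : A) else 0) + (if nxt i = some j then 1 else 0) = 0
    rw [if_neg (fun h => h.2 (h1 h.1)), if_neg h2, add_zero]
  have hne : ∀ e : EE L, rho (Sum.inl e) = chi (Sum.inl e) → rho (Sum.inl e) = none := by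
    intro e h
    rcases hr : rho (Sum.inl e) with _ | i
    · rfl
    · exact absurd (rk_port (Sum.inl e) i i hr (by rw [← h, hr])) (lt_irrefl _)
  apply key _ _ (hne e)
  rcases e with (e | e) | (_ | rc)
  · intro h
    rw [rho, chi, nxt, dif_pos (show (lo e).1.1 < L from (mem_te.1 e.2).1), Option.some.injEq,
      Option.some.injEq, Sum.inl.injEq] at h
    have h2 : e.1.2 + 2 ^ e.1.1 = e.1.2 := congrArg (fun m : ↥(tn L) => m.1.2) h
    have : 0 < 2 ^ e.1.1 := by positivity
    omega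
  · intro h
    rw [rho, nxt, if_neg (show ¬ (ch0 e).1.1 = 0 from Nat.succ_ne_zero _), if_neg] at h
    · exact absurd h (by simp)
    · show ¬ (e.1.2.testBit (e.1.1 + 1 - 1) = true)
      rw [Nat.add_sub_cancel, Nat.testBit_eq_false_of_lt (mem_te.1 e.2).2]
      simp
  · intro h
    rw [rho, chi, nxt] at h
    exact absurd h (by simp)
  · intro h
    rw [rho, nxt, dif_neg (show ¬ (leaf rc.1).1.1 < L from lt_irrefl L)] at h
    exact absurd h (by simp)

theorem base_inj (e e' : EE L) (h1 : rho (Sum.inl e) = rho (Sum.inl e'))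
    (h2 : chi (Sum.inl e) = chi (Sum.inl e')) : e = e' := by
  rcases e with (e | e) | (_ | rc) <;> rcases e' with (e' | e') | (_ | rc') <;>
    simp only [rho, chi, Option.some.injEq, Sum.inl.injEq, Sum.inr.injEq, reduceCtorEq] at h1 h2
  · rw [lo_inj h1]
  · rw [ch0_inj h1]
  · rfl
  · rw [Prod.ext (leaf_inj h1) (leaf_inj h2)]

theorem card_base : Fintype.card (Option (Tau L)) + 2 = 4 * 2 ^ L + 2 * L + 2 := by
  rw [Fintype.card_option, Fintype.card_sum, Fintype.card_sum, Fintype.card_fin, Fintype.card_coe]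
  have := card_tn L
  rw [pow_succ] at this
  omega

theorem rep_base {S : Set A} (h0 : (0 : A) ∈ S) (h1 : (1 : A) ∈ S) :
    Rep S (mm (L := L)) (fun _ => (1 : A)) ∅ univ (4 * 2 ^ L + 2 * L) := by
  classical
  refine ⟨Option (Tau L), inferInstance, inferInstance, selfl (N0 L A), rho, chi, ?_,
    base_entries h0 h1, ?_, ?_, ?_, ?_, ?_, base_zero, base_inj, ?_⟩
  · have := card_base (L := L)
    omega
  · rintro ((e | e) | (_ | rc)) q <;> simp [rho]
  · rintro ((e | e) | (_ | rc)) q <;> simp [chi]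
  · intro q q' h
    simpa [rho] using h
  · intro q q' h
    simpa [chi] using h
  · intro q hq
    exact absurd hq (notMem_empty q)
  · intro z
    exact perm_base' z

/-! ### Couplings -/

/-- the bit coupled to an inner node -/
def bit : ↥(te L) ⊕ ↥(te L) → QQ L
  | Sum.inl e => ⟨e.1.1, by have := (mem_te.1 e.2).1; omega⟩
  | Sum.inr e => ⟨L + e.1.1, by have := (mem_te.1 e.2).1; omega⟩

open Classical in
/-- the couplings -/
noncomputable def TT (L : ℕ) : Finset (EE L × QQ L) :=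
  univ.image fun e : ↥(te L) ⊕ ↥(te L) => (Sum.inl e, bit e)

theorem mem_TT {p : EE L × QQ L} : p ∈ TT L ↔ ∃ e, (Sum.inl e, bit e) = p := by
  simp [TT]

theorem card_TT : (TT L).card + 2 = 2 * 2 ^ L := by
  classical
  rw [TT, card_image_of_injective, card_univ, Fintype.card_sum, Fintype.card_coe]
  · have := card_te L
    omega
  · intro e e' h
    have := congrArg Prod.fst h
    exact Sum.inl_injective this

theorem image_TT : (TT L).image Prod.snd = univ := by
  rw [eq_univ_iff_forall]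
  intro q
  rw [mem_image]
  rcases Nat.lt_or_ge q.val L with h | h
  · refine ⟨(Sum.inl (Sum.inl ⟨⟨q.val, 0⟩, mem_te.2 ⟨h, by positivity⟩⟩), q), ?_, rfl⟩
    exact mem_TT.2 ⟨Sum.inl ⟨⟨q.val, 0⟩, mem_te.2 ⟨h, by positivity⟩⟩, rfl⟩
  · have hq := q.2
    have h1 : q.val - L < L := by omega
    refine ⟨(Sum.inl (Sum.inr ⟨⟨q.val - L, 0⟩, mem_te.2 ⟨h1, by positivity⟩⟩), q), ?_, rfl⟩
    refine mem_TT.2 ⟨Sum.inr ⟨⟨q.val - L, 0⟩, mem_te.2 ⟨h1, by positivity⟩⟩, ?_⟩
    refine Prod.ext rfl (Fin.ext ?_)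
    show L + (q.val - L) = q.val
    omega

/-- the bits of a pair of leaves -/
def UU (rc : RC L) : Finset (QQ L) :=
  univ.filter fun q => if q.val < L then rc.1.val.testBit q.val = true else
    rc.2.val.testBit (q.val - L) = true

theorem kill_none : ∀ p ∈ TT L, ¬ (Sum.inl p.1 ∈ mm (L := L) none ∧ Sum.inr p.2 ∈ mm (L := L) none) := by
  rintro p _ ⟨_, h⟩
  rw [mm, mem_singleton] at h
  exact Sum.inr_ne_inl h

theorem kill_some (rc : RC L) (T : Finset (QQ L)) :
    (∀ p ∈ TT L, ¬ (Sum.inl p.1 ∈ mm (some (rc, T)) ∧ Sum.inr p.2 ∈ mm (some (rc, T)))) ↔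
      T ⊆ UU rc := by
  constructor
  · intro h q hq
    rw [UU, mem_filter]
    refine ⟨mem_univ _, ?_⟩
    by_contra hcon
    split_ifs at hcon with hlt
    · have hb : rc.1.val.testBit q.val = false := by simpa using hcon
      let e : ↥(te L) := ⟨⟨q.val, rc.1.val % 2 ^ q.val⟩, mem_te.2 ⟨hlt, Nat.mod_lt _ (by positivity)⟩⟩
      refine h (Sum.inl (Sum.inl e), bit (Sum.inl e)) ?_ ⟨?_, ?_⟩
      · exact mem_TT.2 ⟨_, rfl⟩
      · exact mem_mm.2 ⟨hb, rfl⟩
      · exact mem_mm.2 hq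
    · have hb : rc.2.val.testBit (q.val - L) = false := by simpa using hcon
      have hq2 := q.2
      let e : ↥(te L) := ⟨⟨q.val - L, rc.2.val % 2 ^ (q.val - L)⟩,
        mem_te.2 ⟨by show q.val - L < L; omega, Nat.mod_lt _ (by positivity)⟩⟩
      have hbit : bit (Sum.inr e) = q := by
        apply Fin.ext
        show L + (q.val - L) = q.val
        omega
      refine h (Sum.inl (Sum.inr e), bit (Sum.inr e)) ?_ ⟨?_, ?_⟩
      · exact mem_TT.2 ⟨_, rfl⟩
      · exact mem_mm.2 ⟨hb, rfl⟩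
      · rw [mem_mm]
        show bit (Sum.inr e) ∈ T
        rw [hbit]
        exact hq
  · rintro h p hp ⟨h1, h2⟩
    obtain ⟨e, rfl⟩ := mem_TT.1 hp
    rw [mem_mm] at h1 h2
    have h3 : bit e ∈ UU rc := h h2
    rw [UU, mem_filter] at h3
    rcases e with e | e
    · have h4 : (bit (Sum.inl e)).val < L := (mem_te.1 e.2).1
      have h5 := h3.2
      rw [if_pos h4] at h5
      have h6 : rc.1.val.testBit e.1.1 = false := h1.1
      have h7 : rc.1.val.testBit e.1.1 = true := h5
      rw [h6] at h7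
      exact absurd h7 (by simp)
    · have h4 : ¬ (bit (Sum.inr e)).val < L := by
        show ¬ L + e.1.1 < L
        omega
      have h5 := h3.2
      rw [if_neg h4] at h5
      have h6 : rc.2.val.testBit e.1.1 = false := h1.1
      have h7 : rc.2.val.testBit (L + e.1.1 - L) = true := h5
      rw [Nat.add_sub_cancel_left, h6] at h7
      exact absurd h7 (by simp)

/-- The gadget. -/
theorem core {k : ℕ} (C : Coupler A k) {S : Set A} (h0 : (0 : A) ∈ S) (h1 : (1 : A) ∈ S)
    (hw : ∀ l, C.w l ∈ S) (hw' : ∀ l, C.w' l ∈ S) (hQ : ∀ l l', C.Q l l' ∈ S) (L : ℕ) :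
    ∃ (ι : Type) (_ : Fintype ι) (_ : DecidableEq ι) (N : Matrix ι ι A)
      (ρ χ : Option (RC L) ⊕ QQ L → ι),
      Fintype.card ι + 2 * (k + 2) = 4 * 2 ^ L + 2 * L + (k + 2) * (2 * 2 ^ L) ∧
      (∀ i j, N i j ∈ S) ∧ (∀ p, N (ρ p) (χ p) = 0) ∧
      (∀ e q, ρ (Sum.inl e) ≠ ρ (Sum.inr q)) ∧
      (∀ e e', ρ (Sum.inl e) = ρ (Sum.inl e') → χ (Sum.inl e) = χ (Sum.inl e') → e = e') ∧
      (Function.Injective fun q => ρ (Sum.inr q)) ∧ (Function.Injective fun q => χ (Sum.inr q)) ∧
      ∀ z : Option (RC L) ⊕ QQ L → A, (plug N ρ χ z).permanent = z (Sum.inl none) +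
        ∑ rc : RC L, z (Sum.inl (some rc)) * ∏ q ∈ UU rc, (1 + z (Sum.inr q)) := by
  classical
  obtain ⟨ι, i1, i2, N, ρ, χ, hcard, hN, hρ, hχ, hρi, hχi, hF, hE, hEi, hz⟩ :=
    (rep_base (L := L) h0 h1).kills C h0 hw hw' hQ (TT L)
  rw [image_TT] at hF
  have hcell : ∀ (i j : ι) (e : ↥(te L) ⊕ ↥(te L)), ρ (Sum.inl (Sum.inl e)) = i →
      χ (Sum.inl (Sum.inl e)) = j → (∑ e' : ↥(te L) ⊕ ↥(te L),
        if ρ (Sum.inl (Sum.inl e')) = i ∧ χ (Sum.inl (Sum.inl e')) = j then (1 : A) else 0) = 1 := by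
    intro i j e hi hj
    rw [Finset.sum_eq_single e]
    · exact if_pos ⟨hi, hj⟩
    · intro e' _ hne
      refine if_neg fun h => hne ?_
      exact Sum.inl_injective (hEi _ _ (h.1.trans hi.symm) (h.2.trans hj.symm))
    · intro h
      exact absurd (mem_univ _) h
  refine ⟨ι, i1, i2, Matrix.of fun i j => N i j + ∑ e : ↥(te L) ⊕ ↥(te L),
      if ρ (Sum.inl (Sum.inl e)) = i ∧ χ (Sum.inl (Sum.inl e)) = j then 1 else 0,
    fun p => p.elim (fun o => ρ (Sum.inl (Sum.inr o))) fun q => ρ (Sum.inr q),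
    fun p => p.elim (fun o => χ (Sum.inl (Sum.inr o))) fun q => χ (Sum.inr q),
    ?_, ?_, ?_, ?_, ?_, hρi, hχi, ?_⟩
  · have h2 := card_TT (L := L)
    rw [hcard, ← h2]
    ring
  · intro i j
    show N i j + _ ∈ S
    by_cases h : ∃ e : ↥(te L) ⊕ ↥(te L), ρ (Sum.inl (Sum.inl e)) = i ∧ χ (Sum.inl (Sum.inl e)) = j
    · obtain ⟨e, hi, hj⟩ := h
      rw [hcell i j e hi hj]
      have := hE (Sum.inl e)
      rw [hi, hj] at this
      rw [this, zero_add]
      exact h1
    · rw [sum_eq_zero, add_zero]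
      · exact hN i j
      · intro e _
        exact if_neg fun h' => h ⟨e, h'⟩
  · rintro (o | q)
    · show N (ρ (Sum.inl (Sum.inr o))) (χ (Sum.inl (Sum.inr o))) + _ = 0
      rw [hE (Sum.inr o), zero_add]
      refine sum_eq_zero fun e _ => if_neg fun h => ?_
      exact Sum.inl_ne_inr (hEi _ _ h.1 h.2)
    · show N (ρ (Sum.inr q)) (χ (Sum.inr q)) + _ = 0
      rw [hF q (mem_union_right _ (mem_univ q)), zero_add]
      refine sum_eq_zero fun e _ => if_neg fun h => ?_
      exact hρ _ _ h.1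
  · intro e q
    exact hρ _ _
  · intro e e' h2 h3
    exact Sum.inr_injective (hEi _ _ h2 h3)
  · intro z
    let z' : EE L ⊕ QQ L → A := fun p => p.elim (fun e => e.elim (fun _ => 1)
      fun o => z (Sum.inl o)) fun q => z (Sum.inr q)
    have e1 : plug (Matrix.of fun i j => N i j + ∑ e : ↥(te L) ⊕ ↥(te L),
        if ρ (Sum.inl (Sum.inl e)) = i ∧ χ (Sum.inl (Sum.inl e)) = j then 1 else 0)
        (fun p => p.elim (fun o => ρ (Sum.inl (Sum.inr o))) fun q => ρ (Sum.inr q))
        (fun p => p.elim (fun o => χ (Sum.inl (Sum.inr o))) fun q => χ (Sum.inr q)) z =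
        plug N ρ χ z' := by
      ext i j
      show (N i j + _) + _ = N i j + _
      simp only [Fintype.sum_sum_type, Sum.elim_inl, Sum.elim_inr, z', add_assoc]
      rfl
    rw [e1, hz z', sum_filter, Fintype.sum_option]
    congr 1
    · rw [if_pos kill_none, mm, prod_singleton, one_mul]
      rfl
    · rw [Fintype.sum_prod_type]
      refine sum_congr rfl fun rc _ => ?_
      rw [prod_one_add, mul_sum]
      have f1 : ∀ r : Fin (2 ^ L), Ff L (z1 z') 0 r = 1 := by
        intro r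
        refine prod_eq_one fun l hl => ?_
        rw [Nat.Ico_zero_eq_range, mem_range] at hl
        split_ifs
        · rfl
        · unfold z1
          rw [dif_pos (mem_te.2 ⟨hl, Nat.mod_lt _ (by positivity)⟩)]
          rfl
      have f2 : ∀ r : Fin (2 ^ L), Ff L (z2 z') 0 r = 1 := by
        intro r
        refine prod_eq_one fun l hl => ?_
        rw [Nat.Ico_zero_eq_range, mem_range] at hl
        split_ifs
        · rfl
        · unfold z2
          rw [dif_pos (mem_te.2 ⟨hl, Nat.mod_lt _ (by positivity)⟩)]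
          rfl
      have key : ∀ T : Finset (QQ L), 1 * ∏ e ∈ mm (some (rc, T)), z' e =
          z (Sum.inl (some rc)) * ∏ q ∈ T, z (Sum.inr q) := by
        intro T
        rw [one_mul, prod_mm, f1, f2, mul_one, mul_one]
        rfl
      refine Eq.trans (sum_congr rfl fun T _ => (?_ : _ = if T ∈ (UU rc).powerset then
        z (Sum.inl (some rc)) * ∏ q ∈ T, z (Sum.inr q) else 0)) ?_
      · by_cases hT : T ⊆ UU rc
        · rw [if_pos ((kill_some rc T).2 hT), if_pos (mem_powerset.2 hT)]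
          exact key T
        · rw [if_neg (fun h => hT ((kill_some rc T).1 h)), if_neg (fun h => hT (mem_powerset.1 h))]
      · rw [sum_ite_mem, univ_inter]

end Pool.Agent.Helper97.Form
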