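import Pool.Agent.Helper97.Form.Perm

/-!
# FORM: coupling of two entries of a matrix
-/

set_option autoImplicit false
set_option linter.unusedSectionVars false

namespace Pool.Agent.Helper97.Form

open Finset Helper16.SQG

/-- the matrix with a number added to one entry -/
def addE {ι A : Type} [DecidableEq ι] [CommRing A] (M : Matrix ι ι A) (ρ χ : ι) (z : A) :
    Matrix ι ι A :=
  Matrix.of fun i j => M i j + if i = ρ ∧ j = χ then z else 0

/-- the matrix with rows `a`, `b` and the rows `Q 2, Q 3, ...` -/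
def rowsM {A : Type} {k : ℕ} (Q : Fin (k + 2) → Fin (k + 2) → A) (a b : Fin (k + 2) → A) :
    Matrix (Fin (k + 2)) (Fin (k + 2)) A :=
  Matrix.of (Fin.cons a (Fin.cons b fun l : Fin k => Q l.succ.succ))

/-- The data of a gadget which kills the terms containing both of two given entries. -/
structure Coupler (A : Type) [CommRing A] (k : ℕ) where
  /-- new entries of the first row -/
  w : Fin (k + 2) → A
  /-- new entries of the second row -/
  w' : Fin (k + 2) → A
  /-- the new block -/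
  Q : Fin (k + 2) → Fin (k + 2) → A
  h12 : (rowsM Q (Q 0) (Q 1)).permanent = 1
  h13 : (rowsM Q w' (Q 1)).permanent = 0
  h14 : (rowsM Q w' (Q 0)).permanent = 1
  h23 : (rowsM Q w (Q 1)).permanent = 1
  h24 : (rowsM Q w (Q 0)).permanent = 0
  h34 : (rowsM Q w w').permanent = 0

section Cpl

variable {ι A : Type} [Fintype ι] [DecidableEq ι] [CommRing A] {k : ℕ}

/-- the coupled matrix -/
def cpl (C : Coupler A k) (M : Matrix ι ι A) (ρ ρ' χ χ' : ι) (z z' : A) :
    Matrix (ι ⊕ Fin (k + 2)) (ι ⊕ Fin (k + 2)) A :=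
  Matrix.of fun i j => match i, j with
    | Sum.inl i, Sum.inl j => M i j
    | Sum.inl i, Sum.inr l => (if i = ρ then C.w l else 0) + (if i = ρ' then C.w' l else 0)
    | Sum.inr l, Sum.inl j => (if l = 0 ∧ j = χ then z else 0) + (if l = 1 ∧ j = χ' then z' else 0)
    | Sum.inr l, Sum.inr l' => C.Q l l'

theorem cpl_permanent (C : Coupler A k) (M : Matrix ι ι A) {ρ ρ' χ χ' : ι} (hρ : ρ ≠ ρ')
    (z z' : A) :
    (cpl C M ρ ρ' χ χ' z z').permanent =
      (addE M ρ χ z).permanent + (addE M ρ' χ' z').permanent - M.permanent := by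
  apply perm_of_forms
  intro B _ f t ht
  let x : ι → B := fun i => t (Sum.inl i)
  let y : Fin (k + 2) → B := fun i => t (Sum.inr i)
  have hx : ∀ c, x c * x c = 0 := fun c => ht _
  have hy : ∀ c, y c * y c = 0 := fun c => ht _
  let Lx : ι → B := fun i => ∑ j, f (M i j) * x j
  let u : (Fin (k + 2) → A) → B := fun a => ∑ l, f (a l) * y l
  let U : B := ∏ l : Fin k, u (C.Q l.succ.succ)
  let Y : B := ∏ l, y l
  let Qx : B := ∏ i ∈ (univ.erase ρ).erase ρ', Lx i
  have hρ' : ρ' ∈ univ.erase ρ := mem_erase.2 ⟨hρ.symm, mem_univ _⟩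
  -- product over the old rows
  have prodQ : ∀ g : ι → B, ∏ i, (Lx i + g i) * 1 = ∏ i, (Lx i + g i) := fun g => by simp
  have split : ∀ g : ι → B, (∀ i, i ≠ ρ → i ≠ ρ' → g i = 0) →
      ∏ i, (Lx i + g i) = (Lx ρ + g ρ) * ((Lx ρ' + g ρ') * Qx) := by
    intro g hg
    rw [← mul_prod_erase univ _ (mem_univ ρ), ← mul_prod_erase _ _ hρ']
    congr 2
    refine prod_congr rfl fun i hi => ?_
    rw [mem_erase, mem_erase] at hi
    rw [hg i hi.2.1 hi.1, add_zero]
  -- values of the three permanents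
  have add_form : ∀ (ρ₀ χ₀ : ι) (z₀ : A), f (addE M ρ₀ χ₀ z₀).permanent * ∏ j, x j =
      ∏ i, (Lx i + if i = ρ₀ then f z₀ * x χ₀ else 0) := by
    intro ρ₀ χ₀ z₀
    rw [← perm_forms f (addE M ρ₀ χ₀ z₀) x hx]
    refine prod_congr rfl fun i _ => ?_
    have : ∀ j, f (addE M ρ₀ χ₀ z₀ i j) * x j =
        f (M i j) * x j + if j = χ₀ then (if i = ρ₀ then f z₀ * x χ₀ else 0) else 0 := by
      intro j
      show f (M i j + if i = ρ₀ ∧ j = χ₀ then z₀ else 0) * x j = _
      rw [map_add, add_mul]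
      congr 1
      by_cases h1 : i = ρ₀ <;> by_cases h2 : j = χ₀ <;> simp [h1, h2]
    rw [sum_congr rfl fun j _ => this j, sum_add_distrib, sum_ite_eq' univ χ₀, if_pos (mem_univ _)]
  have v1 : f (addE M ρ χ z).permanent * ∏ j, x j = (Lx ρ + f z * x χ) * (Lx ρ' * Qx) := by
    rw [add_form, split]
    · rw [if_pos rfl, if_neg hρ.symm, add_zero]
    · intro i h1 _
      rw [if_neg h1]
  have v2 : f (addE M ρ' χ' z').permanent * ∏ j, x j = Lx ρ * ((Lx ρ' + f z' * x χ') * Qx) := by
    rw [add_form, split]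
    · rw [if_pos rfl, if_neg hρ, add_zero]
    · intro i _ h1
      rw [if_neg h1]
  have v0 : f M.permanent * ∏ j, x j = Lx ρ * (Lx ρ' * Qx) := by
    rw [← perm_forms f M x hx]
    have := split (fun _ => 0) (fun _ _ _ => rfl)
    simpa using this
  -- vanishing products of forms in `x`
  have xform : ∀ (z₀ : A) (χ₀ : ι), f z₀ * x χ₀ = ∑ j, (if j = χ₀ then f z₀ else 0) * x j := by
    intro z₀ χ₀
    simp
  have hcard : ((univ.erase ρ).erase ρ').card + 2 = Fintype.card ι := by
    rw [card_erase_of_mem hρ', card_erase_of_mem (mem_univ _), card_univ]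
    have : 1 < Fintype.card ι := Fintype.one_lt_card_iff.2 ⟨ρ, ρ', hρ⟩
    omega
  have hform : ∀ g : ι → B, ∑ j, g j * x j ∈ Deg x univ 1 := fun g => sum_mem_Deg (subset_refl _) g
  have x3 : ∀ g₁ g₂ g₃ : ι → B, Qx * (∑ j, g₁ j * x j) * (∑ j, g₂ j * x j) * (∑ j, g₃ j * x j) = 0 := by
    intro g₁ g₂ g₃
    have h0 := mul_prod_mem_Deg hx (one_mem_Deg (x := x) (univ : Finset ι))
      ((univ.erase ρ).erase ρ') Lx (fun i _ => hform _)
    rw [one_mul, zero_add] at h0
    have h1 := mul_form_mem_Deg hx (mul_form_mem_Deg hx (mul_form_mem_Deg hx h0 (hform g₁))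
      (hform g₂)) (hform g₃)
    exact Deg_eq_zero (by rw [card_univ]; omega) h1
  have y3 : ∀ g₁ g₂ g₃ : Fin (k + 2) → A, U * u g₁ * u g₂ * u g₃ = 0 := by
    intro g₁ g₂ g₃
    have hyf : ∀ g : Fin (k + 2) → A, u g ∈ Deg y univ 1 := fun g => sum_mem_Deg (subset_refl _) _
    have h0 := mul_prod_mem_Deg hy (one_mem_Deg (x := y) (univ : Finset (Fin (k + 2))))
      (univ : Finset (Fin k)) (fun l => u (C.Q l.succ.succ)) (fun i _ => hyf _)
    rw [one_mul, zero_add] at h0
    have h1 := mul_form_mem_Deg hy (mul_form_mem_Deg hy (mul_form_mem_Deg hy h0 (hyf g₁))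
      (hyf g₂)) (hyf g₃)
    exact Deg_eq_zero (by rw [card_univ, card_univ, Fintype.card_fin, Fintype.card_fin]; omega) h1
  have y2 : ∀ a b : Fin (k + 2) → A, U * u a * u b = f (rowsM C.Q a b).permanent * Y := by
    intro a b
    rw [← perm_forms f (rowsM C.Q a b) y hy, Fin.prod_univ_succ, Fin.prod_univ_succ]
    show U * u a * u b = u a * (u b * U)
    ring
  -- the rows of the big matrix
  rw [Fintype.prod_sum_type, Fintype.prod_sum_type]
  have r1 : ∀ i : ι, ∑ j, f (cpl C M ρ ρ' χ χ' z z' (Sum.inl i) j) * t j =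
      Lx i + ((if i = ρ then u C.w else 0) + (if i = ρ' then u C.w' else 0)) := by
    intro i
    rw [Fintype.sum_sum_type]
    congr 1
    have : ∀ l : Fin (k + 2), f (cpl C M ρ ρ' χ χ' z z' (Sum.inl i) (Sum.inr l)) * t (Sum.inr l) =
        (if i = ρ then f (C.w l) * y l else 0) + (if i = ρ' then f (C.w' l) * y l else 0) := by
      intro l
      show f ((if i = ρ then C.w l else 0) + (if i = ρ' then C.w' l else 0)) * y l = _
      rw [map_add, add_mul]
      congr 1
      · split_ifs <;> simp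
      · split_ifs <;> simp
    rw [sum_congr rfl fun l _ => this l, sum_add_distrib]
    congr 1
    · split_ifs
      · rfl
      · simp
    · split_ifs
      · rfl
      · simp
  have r2 : ∀ l : Fin (k + 2), ∑ j, f (cpl C M ρ ρ' χ χ' z z' (Sum.inr l) j) * t j =
      ((if l = 0 then f z * x χ else 0) + (if l = 1 then f z' * x χ' else 0)) + u (C.Q l) := by
    intro l
    rw [Fintype.sum_sum_type]
    congr 1
    have : ∀ j : ι, f (cpl C M ρ ρ' χ χ' z z' (Sum.inr l) (Sum.inl j)) * t (Sum.inl j) =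
        (if j = χ then (if l = 0 then f z * x χ else 0) else 0) +
          (if j = χ' then (if l = 1 then f z' * x χ' else 0) else 0) := by
      intro j
      show f ((if l = 0 ∧ j = χ then z else 0) + (if l = 1 ∧ j = χ' then z' else 0)) * x j = _
      rw [map_add, add_mul]
      congr 1
      · by_cases h1 : l = 0 <;> by_cases h2 : j = χ <;> simp [h1, h2]
      · by_cases h1 : l = 1 <;> by_cases h2 : j = χ' <;> simp [h1, h2]
    rw [sum_congr rfl fun l _ => this l, sum_add_distrib, sum_ite_eq' univ χ, sum_ite_eq' univ χ',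
      if_pos (mem_univ _), if_pos (mem_univ _)]
  rw [prod_congr rfl fun i _ => r1 i, prod_congr rfl fun i _ => r2 i, split]
  swap
  · intro i h1 h2
    rw [if_neg h1, if_neg h2, add_zero]
  rw [if_pos rfl, if_neg hρ, if_neg hρ.symm, if_pos rfl, Fin.prod_univ_succ, Fin.prod_univ_succ]
  have r3 : ∀ l : Fin k, ((if l.succ.succ = (0 : Fin (k + 2)) then f z * x χ else 0) +
      (if l.succ.succ = (1 : Fin (k + 2)) then f z' * x χ' else 0)) + u (C.Q l.succ.succ) =
        u (C.Q l.succ.succ) := by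
    intro l
    rw [if_neg (Fin.succ_ne_zero _), if_neg, add_zero, zero_add]
    intro h
    have := congrArg Fin.val h
    simp at this
  rw [prod_congr rfl fun l _ => r3 l]
  have one_ne : (1 : Fin (k + 2)) ≠ 0 := by
    intro h
    have := congrArg Fin.val h
    simp at this
  rw [if_pos rfl, if_neg one_ne.symm, Fin.succ_zero_eq_one, if_neg one_ne, if_pos rfl]
  have e12 := y2 (C.Q 0) (C.Q 1)
  have e13 := y2 C.w' (C.Q 1)
  have e14 := y2 C.w' (C.Q 0)
  have e23 := y2 C.w (C.Q 1)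
  have e24 := y2 C.w (C.Q 0)
  have e34 := y2 C.w C.w'
  rw [C.h12, map_one, one_mul] at e12
  rw [C.h13, map_zero, zero_mul] at e13
  rw [C.h14, map_one, one_mul] at e14
  rw [C.h23, map_one, one_mul] at e23
  rw [C.h24, map_zero, zero_mul] at e24
  rw [C.h34, map_zero, zero_mul] at e34
  have t1 := y3 (C.Q 0) (C.Q 1) C.w'
  have t2 := y3 (C.Q 0) (C.Q 1) C.w
  have t3 := y3 (C.Q 1) C.w C.w'
  have t4 := y3 (C.Q 0) C.w C.w'
  have s1 := x3 (fun j => f (M ρ j)) (fun j => f (M ρ' j)) (fun j => if j = χ then f z else 0)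
  have s2 := x3 (fun j => f (M ρ j)) (fun j => f (M ρ' j)) (fun j => if j = χ' then f z' else 0)
  have s3 := x3 (fun j => f (M ρ j)) (fun j => if j = χ then f z else 0)
    (fun j => if j = χ' then f z' else 0)
  have s4 := x3 (fun j => f (M ρ' j)) (fun j => if j = χ then f z else 0)
    (fun j => if j = χ' then f z' else 0)
  rw [← xform z χ] at s1 s3 s4
  rw [← xform z' χ'] at s2 s3 s4
  change Qx * Lx ρ * Lx ρ' * _ = 0 at s1 s2
  change Qx * Lx ρ * _ * _ = 0 at s3
  change Qx * Lx ρ' * _ * _ = 0 at s4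
  rw [map_sub, map_add]
  change _ = (_ + _ - _) * ((∏ j, x j) * Y)
  have hR : (f (addE M ρ χ z).permanent + f (addE M ρ' χ' z').permanent - f M.permanent) *
      ((∏ j, x j) * Y) = ((Lx ρ + f z * x χ) * (Lx ρ' * Qx) +
        Lx ρ * ((Lx ρ' + f z' * x χ') * Qx) - Lx ρ * (Lx ρ' * Qx)) * Y := by
    rw [← v1, ← v2, ← v0]
    ring
  rw [hR]
  change (Lx ρ + (u C.w + 0)) * ((Lx ρ' + (0 + u C.w')) * Qx) *
    ((f z * x χ + 0 + u (C.Q 0)) * ((0 + f z' * x χ' + u (C.Q 1)) * U)) = _
  generalize f z * x χ = A3 at *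
  generalize f z' * x χ' = A4 at *
  generalize Lx ρ = A1 at *
  generalize Lx ρ' = A2 at *
  generalize u C.w = u1 at *
  generalize u C.w' = u2 at *
  generalize u (C.Q 0) = u3 at *
  generalize u (C.Q 1) = u4 at *
  linear_combination (A4 + u4) * U * s1 + u3 * U * s2 + u2 * U * s3 + u1 * U * s4 +
    Qx * (A1 * A2 * e12 + A1 * A3 * e13 + A1 * A4 * e14 + A2 * A3 * e23 + A2 * A4 * e24 +
      A3 * A4 * e34) + Qx * ((A1 + u1) * t1 + A2 * t2 + A3 * t3 + A4 * t4)

end Cpl

end Pool.Agent.Helper97.Form
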