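import Pool.Agent.Helper97.Form.Couple

/-!
# FORM: two coupling gadgets
-/

set_option autoImplicit false

namespace Pool.Agent.Helper97.Form

open Finset

theorem perm3 {A : Type} [CommRing A] (M : Matrix (Fin 3) (Fin 3) A) :
    M.permanent = M 0 0 * (M 1 1 * M 2 2 + M 1 2 * M 2 1) + M 0 1 * (M 1 0 * M 2 2 + M 1 2 * M 2 0) +
      M 0 2 * (M 1 0 * M 2 1 + M 1 1 * M 2 0) := by
  apply perm_of_forms
  intro B _ f t ht
  simp only [Fin.prod_univ_three, Fin.sum_univ_three, map_add, map_mul]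
  have h0 := ht 0
  have h1 := ht 1
  have h2 := ht 2
  generalize t 0 = x at *
  generalize t 1 = y at *
  generalize t 2 = z at *
  generalize f (M 0 0) = a0
  generalize f (M 0 1) = a1
  generalize f (M 0 2) = a2
  generalize f (M 1 0) = b0
  generalize f (M 1 1) = b1
  generalize f (M 1 2) = b2
  generalize f (M 2 0) = c0
  generalize f (M 2 1) = c1
  generalize f (M 2 2) = c2
  linear_combination
    (a0 * b0 * c0 * x + (a0 * b0 * c1 + a0 * b1 * c0 + a1 * b0 * c0) * y +
      (a0 * b0 * c2 + a0 * b2 * c0 + a2 * b0 * c0) * z) * h0 +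
    (a1 * b1 * c1 * y + (a0 * b1 * c1 + a1 * b0 * c1 + a1 * b1 * c0) * x +
      (a2 * b1 * c1 + a1 * b2 * c1 + a1 * b1 * c2) * z) * h1 +
    (a2 * b2 * c2 * z + (a0 * b2 * c2 + a2 * b0 * c2 + a2 * b2 * c0) * x +
      (a1 * b2 * c2 + a2 * b1 * c2 + a2 * b2 * c1) * y) * h2

/-- The coupler with three new rows, over a ring where `2` is invertible. -/
def couplerHalf {A : Type} [CommRing A] (δ : A) (hδ : 2 * δ = 1) : Coupler A 1 where
  w := ![0, -δ, 1]
  w' := ![-1, 1 - δ, 1]
  Q := ![![1, 0, 0], ![0, 1, 0], ![1, δ, 1]]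
  h12 := by
    rw [perm3]
    simp [rowsM, Fin.cons, Fin.cases, Fin.induction, Fin.induction.go]
  h13 := by
    rw [perm3]
    simp [rowsM, Fin.cons, Fin.cases, Fin.induction, Fin.induction.go]
  h14 := by
    rw [perm3]
    simp [rowsM, Fin.cons, Fin.cases, Fin.induction, Fin.induction.go]
  h23 := by
    rw [perm3]
    simp [rowsM, Fin.cons, Fin.cases, Fin.induction, Fin.induction.go]
  h24 := by
    rw [perm3]
    simp [rowsM, Fin.cons, Fin.cases, Fin.induction, Fin.induction.go]
  h34 := by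
    rw [perm3]
    simp [rowsM, Fin.cons, Fin.cases, Fin.induction, Fin.induction.go]
    linear_combination -hδ

/-- The coupler with five new rows and entries `0`, `1`, modulo `3`. -/
def couplerThree : Coupler (ZMod 3) 3 where
  w := ![0, 1, 1, 0, 0]
  w' := ![1, 1, 1, 1, 0]
  Q := ![![1, 0, 0, 0, 0], ![0, 1, 0, 0, 0], ![1, 1, 1, 0, 1], ![1, 1, 0, 1, 0], ![0, 1, 0, 0, 1]]
  h12 := by decide +kernel
  h13 := by decide +kernel
  h14 := by decide +kernel
  h23 := by decide +kernel
  h24 := by decide +kernel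
  h34 := by decide +kernel

end Pool.Agent.Helper97.Form
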