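import Pool.Agent.Helper71.Formula.Defs

/-!
# FORM: partial derivatives of rational functions, and the field of the functions which do not
depend on a set of variables
-/

set_option autoImplicit false

namespace Pool.Agent.Helper97.Form

open MvPolynomial

section Der

variable {K V : Type} [Field K] [DecidableEq V]

/-- `X_w ↦ X_w + ε [w = v]`. -/
noncomputable def dual (v : V) : MvPolynomial V K →ₐ[K] DualNumber (FractionRing (MvPolynomial V K)) :=
  aeval fun w => TrivSqZeroExt.inl (algebraMap (MvPolynomial V K) (FractionRing (MvPolynomial V K)) (X w)) + if w = v then TrivSqZeroExt.inr 1 else 0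

theorem fst_dual (v : V) (p : MvPolynomial V K) : (dual v p).fst = algebraMap (MvPolynomial V K) (FractionRing (MvPolynomial V K)) p := by
  induction p using MvPolynomial.induction_on with
  | C a =>
    rw [← algebraMap_eq, AlgHom.commutes, ← IsScalarTower.algebraMap_apply K (MvPolynomial V K) (FractionRing (MvPolynomial V K))]
    rfl
  | add p q hp hq => rw [map_add, TrivSqZeroExt.fst_add, hp, hq, map_add]
  | mul_X p w hp =>
    rw [map_mul, TrivSqZeroExt.fst_mul, hp, map_mul]
    congr 1
    unfold dual
    rw [aeval_X]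
    split_ifs <;> simp

theorem snd_dual (v : V) (p : MvPolynomial V K) :
    (dual v p).snd = algebraMap (MvPolynomial V K) (FractionRing (MvPolynomial V K)) (pderiv v p) := by
  induction p using MvPolynomial.induction_on with
  | C a =>
    rw [← algebraMap_eq, AlgHom.commutes, algebraMap_eq, pderiv_C, map_zero]
    rfl
  | add p q hp hq => rw [map_add, TrivSqZeroExt.snd_add, hp, hq, map_add, map_add]
  | mul_X p w hp =>
    have hX : (dual v (X w : (MvPolynomial V K))).snd = algebraMap (MvPolynomial V K) (FractionRing (MvPolynomial V K)) (pderiv v (X w)) := by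
      unfold dual
      rw [aeval_X, pderiv_X]
      by_cases h : w = v
      · subst h
        simp
      · simp [h]
    rw [map_mul, TrivSqZeroExt.snd_mul, hp, hX, fst_dual, fst_dual, pderiv_mul, map_add, map_mul,
      map_mul]
    simp only [smul_eq_mul, MulOpposite.smul_eq_mul_unop, MulOpposite.unop_op]
    ring

theorem isUnit_dual (v : V) (q : nonZeroDivisors (MvPolynomial V K)) : IsUnit (dual v (q : (MvPolynomial V K))) := by
  rw [TrivSqZeroExt.isUnit_iff_isUnit_fst, fst_dual, isUnit_iff_ne_zero]
  exact IsFractionRing.to_map_ne_zero_of_mem_nonZeroDivisors q.2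

/-- the extension of `dual v` to the fraction field -/
noncomputable def dualL (v : V) : FractionRing (MvPolynomial V K) →+*
    DualNumber (FractionRing (MvPolynomial V K)) :=
  IsLocalization.lift (M := nonZeroDivisors (MvPolynomial V K)) (g := (dual v : (MvPolynomial V K) →ₐ[K] DualNumber (FractionRing (MvPolynomial V K))).toRingHom)
    (isUnit_dual v)

theorem dualL_algebraMap (v : V) (p : MvPolynomial V K) : dualL v (algebraMap (MvPolynomial V K) (FractionRing (MvPolynomial V K)) p) = dual v p :=
  IsLocalization.lift_eq _ _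

theorem fst_dualL (v : V) (x : FractionRing (MvPolynomial V K)) : (dualL v x).fst = x := by
  have h : (TrivSqZeroExt.fstHom (FractionRing (MvPolynomial V K)) (FractionRing (MvPolynomial V K)) (FractionRing (MvPolynomial V K))).toRingHom.comp (dualL v) = RingHom.id (FractionRing (MvPolynomial V K)) := by
    apply IsLocalization.ringHom_ext (nonZeroDivisors (MvPolynomial V K))
    refine RingHom.ext fun p => ?_
    show (dualL v (algebraMap (MvPolynomial V K) (FractionRing (MvPolynomial V K)) p)).fst = algebraMap (MvPolynomial V K) (FractionRing (MvPolynomial V K)) p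
    rw [dualL_algebraMap, fst_dual]
  exact congrArg (fun f : (FractionRing (MvPolynomial V K)) →+* (FractionRing (MvPolynomial V K)) => f x) h

/-- The partial derivative on rational functions. -/
noncomputable def D (v : V) (x : FractionRing (MvPolynomial V K)) : FractionRing (MvPolynomial V K) :=
  (dualL v x).snd

theorem D_algebraMap (v : V) (p : MvPolynomial V K) :
    D v (algebraMap (MvPolynomial V K) (FractionRing (MvPolynomial V K)) p) = algebraMap (MvPolynomial V K) (FractionRing (MvPolynomial V K)) (pderiv v p) := by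
  unfold D
  rw [dualL_algebraMap, snd_dual]

theorem D_add (v : V) (x y : FractionRing (MvPolynomial V K)) : D v (x + y) = D v x + D v y := by
  unfold D
  rw [map_add, TrivSqZeroExt.snd_add]

theorem D_mul (v : V) (x y : FractionRing (MvPolynomial V K)) : D v (x * y) = x * D v y + y * D v x := by
  unfold D
  rw [map_mul, TrivSqZeroExt.snd_mul, fst_dualL, fst_dualL]
  simp only [smul_eq_mul, MulOpposite.smul_eq_mul_unop, MulOpposite.unop_op]
  ring

theorem D_one (v : V) : D v (1 : FractionRing (MvPolynomial V K)) = 0 := by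
  have := D_algebraMap v (1 : (MvPolynomial V K))
  rwa [map_one, pderiv_one, map_zero] at this

theorem D_inv (v : V) (x : FractionRing (MvPolynomial V K)) : D v x⁻¹ = -(x⁻¹ * x⁻¹ * D v x) := by
  by_cases hx : x = 0
  · subst hx
    have : D v (0 : (FractionRing (MvPolynomial V K))) = 0 := by
      have := D_add v (0 : (FractionRing (MvPolynomial V K))) 0
      simpa using this
    rw [inv_zero, this]
    ring
  · have h := D_mul v x x⁻¹
    rw [mul_inv_cancel₀ hx, D_one] at h
    have h2 : x * D v x⁻¹ = -(x⁻¹ * D v x) := by linear_combination -h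
    calc D v x⁻¹ = x⁻¹ * (x * D v x⁻¹) := by rw [← mul_assoc, inv_mul_cancel₀ hx, one_mul]
      _ = _ := by rw [h2]; ring

end Der

section Free

variable {K V : Type} [Field K]

/-- the polynomials without variables of `D` -/
noncomputable abbrev R0 (K : Type) {V : Type} [Field K] (D : Finset V) :
    Subalgebra K (MvPolynomial V K) :=
  supported K {v : V | v ∉ D}

/-- the rational functions without variables of `D` -/
noncomputable def KK (K : Type) {V : Type} [Field K] (D : Finset V) :
    Subfield (FractionRing (MvPolynomial V K)) where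
  carrier := {x | ∃ p ∈ R0 K D, ∃ q ∈ R0 K D, q ≠ 0 ∧
    x = algebraMap (MvPolynomial V K) _ p / algebraMap (MvPolynomial V K) _ q}
  mul_mem' := by
    rintro _ _ ⟨p, hp, q, hq, hq0, rfl⟩ ⟨p', hp', q', hq', hq0', rfl⟩
    exact ⟨p * p', mul_mem hp hp', q * q', mul_mem hq hq', mul_ne_zero hq0 hq0', by
      rw [map_mul, map_mul, div_mul_div_comm]⟩
  one_mem' := ⟨1, one_mem _, 1, one_mem _, one_ne_zero, by simp⟩
  add_mem' := by
    rintro _ _ ⟨p, hp, q, hq, hq0, rfl⟩ ⟨p', hp', q', hq', hq0', rfl⟩
    refine ⟨p * q' + q * p', add_mem (mul_mem hp hq') (mul_mem hq hp'), q * q', mul_mem hq hq',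
      mul_ne_zero hq0 hq0', ?_⟩
    rw [map_mul, map_add, map_mul, map_mul, div_add_div]
    · exact fun h => hq0 (IsFractionRing.injective (MvPolynomial V K)
        (FractionRing (MvPolynomial V K)) (by rw [h, map_zero]))
    · exact fun h => hq0' (IsFractionRing.injective (MvPolynomial V K)
        (FractionRing (MvPolynomial V K)) (by rw [h, map_zero]))
  zero_mem' := ⟨0, zero_mem _, 1, one_mem _, one_ne_zero, by simp⟩
  neg_mem' := by
    rintro _ ⟨p, hp, q, hq, hq0, rfl⟩
    exact ⟨-p, neg_mem hp, q, hq, hq0, by rw [map_neg, neg_div]⟩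
  inv_mem' := by
    rintro _ ⟨p, hp, q, hq, hq0, rfl⟩
    by_cases h : p = 0
    · subst h
      exact ⟨0, zero_mem _, 1, one_mem _, one_ne_zero, by simp⟩
    · exact ⟨q, hq, p, hp, h, by rw [inv_div]⟩

theorem mem_KK {D : Finset V} {x : FractionRing (MvPolynomial V K)} : x ∈ KK K D ↔
    ∃ p ∈ R0 K D, ∃ q ∈ R0 K D, q ≠ 0 ∧
      x = algebraMap (MvPolynomial V K) _ p / algebraMap (MvPolynomial V K) _ q := Iff.rfl

theorem algebraMap_mem_KK {D : Finset V} {p : MvPolynomial V K} (hp : p ∈ R0 K D) :
    algebraMap (MvPolynomial V K) (FractionRing (MvPolynomial V K)) p ∈ KK K D :=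
  ⟨p, hp, 1, one_mem _, one_ne_zero, by simp⟩

theorem pderiv_mem_R0 [DecidableEq V] {D : Finset V} (v : V) {p : MvPolynomial V K} (hp : p ∈ R0 K D) :
    pderiv v p ∈ R0 K D := by
  unfold R0 supported at hp ⊢
  induction hp using Algebra.adjoin_induction with
  | mem x hx =>
    obtain ⟨w, _, rfl⟩ := hx
    rw [pderiv_X]
    by_cases h : w = v
    · subst h
      rw [Pi.single_eq_same]
      exact one_mem _
    · rw [Pi.single_eq_of_ne h]
      exact zero_mem _
  | algebraMap r =>
    rw [algebraMap_eq, pderiv_C]
    exact zero_mem _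
  | add x y _ _ hx hy => rw [map_add]; exact add_mem hx hy
  | mul x y hx' hy' hx hy =>
    rw [pderiv_mul]
    exact add_mem (mul_mem hx hy') (mul_mem hx' hy)

theorem D_mem_KK [DecidableEq V] {D₀ : Finset V} (v : V) {x : FractionRing (MvPolynomial V K)} (hx : x ∈ KK K D₀) :
    D v x ∈ KK K D₀ := by
  obtain ⟨p, hp, q, hq, hq0, rfl⟩ := mem_KK.1 hx
  rw [div_eq_mul_inv, D_mul, D_inv, D_algebraMap, D_algebraMap]
  have h1 := algebraMap_mem_KK hp
  have h2 := algebraMap_mem_KK hq
  have h3 := algebraMap_mem_KK (pderiv_mem_R0 v hp)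
  have h4 := algebraMap_mem_KK (pderiv_mem_R0 v hq)
  exact add_mem (mul_mem h1 (neg_mem (mul_mem (mul_mem (inv_mem h2) (inv_mem h2)) h4)))
    (mul_mem (inv_mem h2) h3)

end Free

end Pool.Agent.Helper97.Form
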