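import Pool.Agent.Helper97.Form.Core

/-!
# FORM: linear independence of the products, extension of injections, padding
-/

set_option autoImplicit false
set_option linter.unusedSectionVars false

namespace Pool.Agent.Helper97.Form

open Finset

section Indep

variable {Q A : Type} [Fintype Q] [DecidableEq Q] [CommRing A]

theorem indep_aux (a : Finset Q → A)
    (h : ∀ B : Finset Q, ∑ S, a S * ∏ q ∈ S, (1 + if q ∈ B then 1 else 0) = 0) (B : Finset Q) :
    ∀ B' : Finset Q, Disjoint B' B →
      ∑ S, (if B ⊆ S then a S * ∏ q ∈ S, (1 + if q ∈ B' then (1 : A) else 0) else 0) = 0 := by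
  induction B using Finset.induction_on with
  | empty =>
    intro B' _
    simpa using h B'
  | insert b B hb ih =>
    intro B' hB'
    rw [disjoint_insert_right] at hB'
    have h1 := ih B' hB'.2
    have h2 := ih (insert b B') (by
      rw [disjoint_insert_left]
      exact ⟨hb, hB'.2⟩)
    have key : ∀ S : Finset Q, (if B ⊆ S then a S * ∏ q ∈ S, (1 + if q ∈ insert b B' then (1 : A) else 0)
        else 0) = (if B ⊆ S then a S * ∏ q ∈ S, (1 + if q ∈ B' then (1 : A) else 0) else 0) +
        (if insert b B ⊆ S then a S * ∏ q ∈ S, (1 + if q ∈ B' then (1 : A) else 0) else 0) := by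
      intro S
      by_cases hS : B ⊆ S
      · by_cases hbS : b ∈ S
        · rw [if_pos hS, if_pos hS, if_pos (insert_subset hbS hS), ← mul_prod_erase S _ hbS,
            ← mul_prod_erase S _ hbS, if_pos (mem_insert_self b B'), if_neg hB'.1]
          have : ∏ q ∈ S.erase b, (1 + if q ∈ insert b B' then (1 : A) else 0) =
              ∏ q ∈ S.erase b, (1 + if q ∈ B' then (1 : A) else 0) := by
            refine prod_congr rfl fun q hq => ?_
            have hne := ne_of_mem_erase hq
            simp only [mem_insert, hne, false_or]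
          rw [this]
          ring
        · rw [if_pos hS, if_pos hS, if_neg (fun h => hbS (h (mem_insert_self b B))), add_zero]
          congr 1
          refine prod_congr rfl fun q hq => ?_
          have hne : q ≠ b := by
            rintro rfl
            exact hbS hq
          simp only [mem_insert, hne, false_or]
      · rw [if_neg hS, if_neg hS, if_neg (fun h => hS ((subset_insert b B).trans h)), add_zero]
    rw [sum_congr rfl fun S _ => key S, sum_add_distrib, h1, zero_add] at h2
    exact h2

/-- A linear combination of the functions `∏ q ∈ S, (1 + ζ q)` which vanishes on `{0, 1}` is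
trivial. -/
theorem indep_products (a : Finset Q → A)
    (h : ∀ B : Finset Q, ∑ S, a S * ∏ q ∈ S, (1 + if q ∈ B then 1 else 0) = 0) (S : Finset Q) :
    a S = 0 := by
  classical
  by_contra hS
  have hne : (univ.filter fun S => a S ≠ 0).Nonempty := ⟨S, mem_filter.2 ⟨mem_univ _, hS⟩⟩
  obtain ⟨M, hM, hmax⟩ := exists_max_image (univ.filter fun S => a S ≠ 0) card hne
  rw [mem_filter] at hM
  have h1 := indep_aux a h M ∅ (disjoint_empty_left _)
  rw [Finset.sum_eq_single M] at h1
  · rw [if_pos (subset_refl M)] at h1
    simp only [notMem_empty, if_false, add_zero, prod_const_one, mul_one] at h1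
    exact hM.2 h1
  · intro T _ hT
    split_ifs with hMT
    · have : a T = 0 := by
        by_contra hT0
        have h2 := hmax T (mem_filter.2 ⟨mem_univ _, hT0⟩)
        exact hT (eq_of_subset_of_card_le hMT h2).symm
      rw [this, zero_mul]
    · rfl
  · intro h2
    exact absurd (mem_univ _) h2

theorem UU_injective (L : ℕ) : Function.Injective (UU : RC L → Finset (QQ L)) := by
  intro rc rc' h
  have h1 : ∀ q : QQ L, (if q.val < L then rc.1.val.testBit q.val = true else
      rc.2.val.testBit (q.val - L) = true) ↔ (if q.val < L then rc'.1.val.testBit q.val = true else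
      rc'.2.val.testBit (q.val - L) = true) := by
    intro q
    have := Finset.ext_iff.1 h q
    simpa [UU] using this
  refine Prod.ext (Fin.ext (Nat.eq_of_testBit_eq fun i => ?_))
    (Fin.ext (Nat.eq_of_testBit_eq fun i => ?_))
  · rcases Nat.lt_or_ge i L with hi | hi
    · have := h1 ⟨i, by omega⟩
      simp only [hi, if_true] at this
      rw [Bool.eq_iff_iff]
      exact this
    · have hp : 2 ^ L ≤ 2 ^ i := Nat.pow_le_pow_right (by norm_num) hi
      rw [Nat.testBit_eq_false_of_lt (rc.1.2.trans_le hp),
        Nat.testBit_eq_false_of_lt (rc'.1.2.trans_le hp)]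
  · rcases Nat.lt_or_ge i L with hi | hi
    · have := h1 ⟨L + i, by omega⟩
      simp only [show ¬ (L + i < L) by omega, if_false, Nat.add_sub_cancel_left] at this
      rw [Bool.eq_iff_iff]
      exact this
    · have hp : 2 ^ L ≤ 2 ^ i := Nat.pow_le_pow_right (by norm_num) hi
      rw [Nat.testBit_eq_false_of_lt (rc.2.2.trans_le hp),
        Nat.testBit_eq_false_of_lt (rc'.2.2.trans_le hp)]

end Indep

section Extend

theorem exists_extend {X Y Q : Type} [Fintype X] [Fintype Y] (hc : Fintype.card X = Fintype.card Y)
    (f : Q → X) (g : Q → Y) (hf : Function.Injective f) (hg : Function.Injective g) :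
    ∃ e : X ≃ Y, ∀ q, e (f q) = g q := by
  classical
  let e0 : X ≃ Y := Fintype.equivOfCardEq hc
  let f' : Q → Y := fun q => e0 (f q)
  have hf' : Function.Injective f' := e0.injective.comp hf
  let u : {y // y ∈ Set.range f'} ≃ {y // y ∈ Set.range g} :=
    (Equiv.ofInjective f' hf').symm.trans (Equiv.ofInjective g hg)
  refine ⟨e0.trans (Equiv.extendSubtype u), fun q => ?_⟩
  have h1 : e0 (f q) ∈ Set.range f' := ⟨q, rfl⟩
  rw [Equiv.trans_apply, Equiv.extendSubtype_apply_of_mem u _ h1]
  have h2 : (Equiv.ofInjective f' hf').symm ⟨e0 (f q), h1⟩ = q := by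
    rw [Equiv.symm_apply_eq]
    rfl
  show ((Equiv.ofInjective g hg) ((Equiv.ofInjective f' hf').symm ⟨e0 (f q), h1⟩) : Y) = g q
  rw [h2]
  rfl

end Extend

section Pad

variable {ι κ A : Type} [Fintype ι] [DecidableEq ι] [Fintype κ] [DecidableEq κ] [CommRing A]

/-- the matrix with an identity block added -/
def padM (κ : Type) [DecidableEq κ] (M : Matrix ι ι A) : Matrix (ι ⊕ κ) (ι ⊕ κ) A :=
  Matrix.of fun i j => match i, j with
    | Sum.inl i, Sum.inl j => M i j
    | Sum.inl _, Sum.inr _ => 0
    | Sum.inr _, Sum.inl _ => 0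
    | Sum.inr i, Sum.inr j => if i = j then 1 else 0

theorem padM_permanent (M : Matrix ι ι A) : (padM κ M).permanent = M.permanent := by
  apply perm_of_forms
  intro B _ f t ht
  rw [Fintype.prod_sum_type, Fintype.prod_sum_type]
  have r1 : ∀ i : ι, ∑ j, f (padM κ M (Sum.inl i) j) * t j = ∑ j, f (M i j) * t (Sum.inl j) := by
    intro i
    rw [Fintype.sum_sum_type]
    have : ∑ j : κ, f (padM κ M (Sum.inl i) (Sum.inr j)) * t (Sum.inr j) = 0 := by
      refine sum_eq_zero fun j _ => ?_
      show f 0 * _ = 0
      rw [map_zero, zero_mul]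
    rw [this, add_zero]
    rfl
  have r2 : ∀ i : κ, ∑ j, f (padM κ M (Sum.inr i) j) * t j = t (Sum.inr i) := by
    intro i
    rw [Fintype.sum_sum_type]
    have h1 : ∑ j : ι, f (padM κ M (Sum.inr i) (Sum.inl j)) * t (Sum.inl j) = 0 := by
      refine sum_eq_zero fun j _ => ?_
      show f 0 * _ = 0
      rw [map_zero, zero_mul]
    have h2 : ∀ j : κ, f (padM κ M (Sum.inr i) (Sum.inr j)) * t (Sum.inr j) =
        if i = j then t (Sum.inr j) else 0 := by
      intro j
      show f (if i = j then 1 else 0) * _ = _
      split_ifs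
      · rw [map_one, one_mul]
      · rw [map_zero, zero_mul]
    rw [h1, zero_add, sum_congr rfl fun j _ => h2 j, sum_ite_eq, if_pos (mem_univ _)]
  rw [prod_congr rfl fun i _ => r1 i, prod_congr rfl fun i _ => r2 i,
    perm_forms f M (fun j => t (Sum.inl j)) (fun c => ht _), mul_assoc]

theorem permanent_addE (M : Matrix ι ι A) (i j : ι) (t : A) :
    (addE M i j t).permanent = M.permanent +
      t * (Matrix.of fun r c => if r = i then (if c = j then 1 else 0) else M r c : Matrix ι ι A).permanent := by
  apply perm_of_forms
  intro B _ f x hx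
  have h1 := perm_forms f M x hx
  have h2 := perm_forms f (Matrix.of fun r c => if r = i then (if c = j then 1 else 0) else M r c :
    Matrix ι ι A) x hx
  rw [← mul_prod_erase univ _ (mem_univ i)] at h1 h2 ⊢
  have e2 : ∑ c, f ((Matrix.of fun r c => if r = i then (if c = j then 1 else 0) else M r c :
      Matrix ι ι A) i c) * x c = x j := by
    have : ∀ c, f ((Matrix.of fun r c => if r = i then (if c = j then 1 else 0) else M r c :
        Matrix ι ι A) i c) * x c = if c = j then x c else 0 := by
      intro c
      show f (if i = i then (if c = j then 1 else 0) else M i c) * x c = _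
      rw [if_pos rfl]
      split_ifs
      · rw [map_one, one_mul]
      · rw [map_zero, zero_mul]
    rw [sum_congr rfl fun c _ => this c, sum_ite_eq' univ j, if_pos (mem_univ _)]
  have e3 : ∏ r ∈ univ.erase i, ∑ c, f ((Matrix.of fun r c => if r = i then (if c = j then 1 else 0)
      else M r c : Matrix ι ι A) r c) * x c = ∏ r ∈ univ.erase i, ∑ c, f (M r c) * x c := by
    refine prod_congr rfl fun r hr => sum_congr rfl fun c _ => ?_
    show f (if r = i then _ else M r c) * _ = _
    rw [if_neg (ne_of_mem_erase hr)]
  have e4 : ∏ r ∈ univ.erase i, ∑ c, f (addE M i j t r c) * x c =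
      ∏ r ∈ univ.erase i, ∑ c, f (M r c) * x c := by
    refine prod_congr rfl fun r hr => sum_congr rfl fun c _ => ?_
    show f (M r c + if r = i ∧ c = j then t else 0) * _ = _
    rw [if_neg (fun h => ne_of_mem_erase hr h.1), add_zero]
  have e5 : ∑ c, f (addE M i j t i c) * x c = ∑ c, f (M i c) * x c + f t * x j := by
    have : ∀ c, f (addE M i j t i c) * x c = f (M i c) * x c + if c = j then f t * x c else 0 := by
      intro c
      show f (M i c + if i = i ∧ c = j then t else 0) * x c = _
      by_cases h : c = j
      · rw [if_pos ⟨rfl, h⟩, if_pos h, map_add, add_mul]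
      · rw [if_neg (fun h' => h h'.2), if_neg h, add_zero, add_zero]
    rw [sum_congr rfl fun c _ => this c, sum_add_distrib, sum_ite_eq' univ j, if_pos (mem_univ _)]
  rw [e4, e5]
  rw [e2, e3] at h2
  rw [map_add, map_mul]
  linear_combination h1 + f t * h2

end Pad

end Pool.Agent.Helper97.Form
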