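import Pool.Agent.Helper16.N3.Super
import Pool.Agent.Helper97.Form.Moebius

/-!
# FORM: matrices of natural numbers replaced by matrices of zeros and ones
-/

set_option autoImplicit false
set_option linter.unusedSectionVars false

namespace Pool.Agent.Helper97.Form

open Finset Helper16.SQG Helper16.N3

section Aux

variable {B κ τ : Type} [CommRing B] [DecidableEq κ] [DecidableEq τ] {x : κ → B}

theorem split_mem (hx : ∀ c, x c * x c = 0) {S : Finset κ} (a : B) (b y : τ → B)
    (ha : a ∈ Deg x S 1) (hb : ∀ l, b l ∈ Deg x S 1) (hy : ∀ l, y l * y l = 0) (T : Finset τ) :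
    (∏ l ∈ T, (b l + y l) - ∏ l ∈ T, y l ∈ Deg x S 1) ∧
      (a + ∑ l ∈ T, y l) * ∏ l ∈ T, (b l + y l) - (a + ∑ l ∈ T, b l) * ∏ l ∈ T, y l ∈
        Deg x S 2 := by
  induction T using Finset.induction_on with
  | empty => simp
  | insert l T hl ih =>
    obtain ⟨h1, h2⟩ := ih
    rw [prod_insert hl, prod_insert hl, sum_insert hl, sum_insert hl]
    have hsum : a + ∑ l ∈ T, b l ∈ Deg x S 1 :=
      add_mem ha (sum_mem fun l _ => hb l)
    constructor
    · have e : (b l + y l) * ∏ l ∈ T, (b l + y l) - y l * ∏ l ∈ T, y l =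
          (∏ l ∈ T, (b l + y l)) * b l + y l * (∏ l ∈ T, (b l + y l) - ∏ l ∈ T, y l) := by ring
      rw [e]
      exact add_mem (mul_left_mem_Deg _ (hb l)) (mul_left_mem_Deg _ h1)
    · have e : (a + (y l + ∑ l ∈ T, y l)) * ((b l + y l) * ∏ l ∈ T, (b l + y l)) -
          (a + (b l + ∑ l ∈ T, b l)) * (y l * ∏ l ∈ T, y l) =
          (b l + y l) * ((a + ∑ l ∈ T, y l) * ∏ l ∈ T, (b l + y l) -
            (a + ∑ l ∈ T, b l) * ∏ l ∈ T, y l) +
          (∏ l ∈ T, y l) * (b l * (a + ∑ l ∈ T, b l)) +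
          y l * (b l * (∏ l ∈ T, (b l + y l) - ∏ l ∈ T, y l)) := by
        linear_combination (∏ l ∈ T, (b l + y l)) * hy l
      rw [e]
      have h3 : b l * (a + ∑ l ∈ T, b l) ∈ Deg x S (1 + 1) := mul_mem_Deg hx (hb l) hsum
      have h4 : b l * (∏ l ∈ T, (b l + y l) - ∏ l ∈ T, y l) ∈ Deg x S (1 + 1) :=
        mul_mem_Deg hx (hb l) h1
      have h5 := mul_left_mem_Deg (∏ l ∈ T, y l) h3
      have h6 := mul_left_mem_Deg (y l) h4
      have h7 := mul_left_mem_Deg (b l + y l) h2
      exact add_mem (add_mem h7 h5) h6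

end Aux

section Expand

variable {ι A : Type} [Fintype ι] [DecidableEq ι] [CommRing A]

/-- The matrix of zeros and ones made from a matrix of natural numbers at most `K + 1`. -/
def expand (K : ℕ) (M : ι → ι → ℕ) : ι ⊕ (ι × Fin K) → ι ⊕ (ι × Fin K) → ℕ
  | Sum.inl i, Sum.inl j => if 1 ≤ M i j then 1 else 0
  | Sum.inl i, Sum.inr p => if p.1 = i then 1 else 0
  | Sum.inr p, Sum.inl j => if p.2.val + 2 ≤ M p.1 j then 1 else 0
  | Sum.inr p, Sum.inr p' => if p' = p then 1 else 0

theorem count_le (K a : ℕ) (ha : a ≤ K + 1) :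
    (if 1 ≤ a then 1 else 0) + ∑ l : Fin K, (if l.val + 2 ≤ a then 1 else 0) = a := by
  rw [Fin.sum_univ_eq_sum_range (fun l => if l + 2 ≤ a then 1 else 0) K, ← Finset.sum_filter,
    sum_const, smul_eq_mul, mul_one]
  have : (range K).filter (fun l => l + 2 ≤ a) = range (a - 1) := by
    ext l
    rw [mem_filter, mem_range, mem_range]
    omega
  rw [this, card_range]
  split_ifs <;> omega

theorem perm_expand (K : ℕ) (M : ι → ι → ℕ) (hM : ∀ i j, M i j ≤ K + 1) :
    (Matrix.of fun i j => (expand K M i j : A)).permanent =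
      (Matrix.of fun i j => (M i j : A)).permanent := by
  apply perm_of_forms
  intro B _ f t ht
  let x : ι → B := fun j => t (Sum.inl j)
  let y : ι × Fin K → B := fun p => t (Sum.inr p)
  have hx : ∀ c, x c * x c = 0 := fun c => ht _
  have hy : ∀ c, y c * y c = 0 := fun c => ht _
  let a : ι → B := fun i => ∑ j, f ((if 1 ≤ M i j then (1 : ℕ) else 0 : ℕ) : A) * x j
  let b : ι → Fin K → B := fun i l => ∑ j, f ((if l.val + 2 ≤ M i j then (1 : ℕ) else 0 : ℕ) : A) * x j
  have r1 : ∀ i : ι, ∑ j, f ((Matrix.of fun i j => (expand K M i j : A)) (Sum.inl i) j) * t j =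
      a i + ∑ l, y (i, l) := by
    intro i
    rw [Fintype.sum_sum_type, Fintype.sum_prod_type]
    congr 1
    rw [Finset.sum_eq_single i]
    · refine sum_congr rfl fun l _ => ?_
      show f ((if i = i then (1 : ℕ) else 0 : ℕ) : A) * _ = _
      rw [if_pos rfl, Nat.cast_one, map_one, one_mul]
    · intro i' _ hi'
      refine sum_eq_zero fun l _ => ?_
      show f ((if i' = i then (1 : ℕ) else 0 : ℕ) : A) * _ = _
      rw [if_neg hi', Nat.cast_zero, map_zero, zero_mul]
    · intro h
      exact absurd (mem_univ _) h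
  have r2 : ∀ p : ι × Fin K, ∑ j, f ((Matrix.of fun i j => (expand K M i j : A)) (Sum.inr p) j) * t j =
      b p.1 p.2 + y p := by
    intro p
    rw [Fintype.sum_sum_type]
    congr 1
    rw [Finset.sum_eq_single p]
    · show f ((if p = p then (1 : ℕ) else 0 : ℕ) : A) * _ = _
      rw [if_pos rfl, Nat.cast_one, map_one, one_mul]
    · intro p' _ hp'
      show f ((if p' = p then (1 : ℕ) else 0 : ℕ) : A) * _ = _
      rw [if_neg hp', Nat.cast_zero, map_zero, zero_mul]
    · intro h
      exact absurd (mem_univ _) h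
  rw [Fintype.prod_sum_type, Fintype.prod_sum_type, prod_congr rfl fun i _ => r1 i,
    prod_congr rfl fun p _ => r2 p, Fintype.prod_prod_type, ← prod_mul_distrib]
  have ha : ∀ i, a i ∈ Deg x univ 1 := fun i => sum_mem_Deg (subset_refl _) _
  have hb : ∀ i l, b i l ∈ Deg x univ 1 := fun i l => sum_mem_Deg (subset_refl _) _
  have key := (prod_sub_prod_mem (S := univ) hx (univ : Finset ι)
    (fun i => (a i + ∑ l, y (i, l)) * ∏ l, (b i l + y (i, l)))
    (fun i => (a i + ∑ l, b i l) * ∏ l, y (i, l)) (fun _ => 1)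
    (fun i _ => by
      rw [mul_comm]
      exact mul_left_mem_Deg _ (add_mem (ha i) (sum_mem fun l _ => hb i l)))
    (fun i _ => (split_mem hx (a i) (b i) (fun l => y (i, l)) (ha i) (hb i) (fun l => hy _) univ).2)).2.2
  have h0 := Deg_eq_zero (by rw [sum_const, smul_eq_mul, mul_one]; exact Nat.lt_succ_self _) key
  rw [sub_eq_zero] at h0
  refine h0.trans ?_
  rw [prod_mul_distrib, ← Fintype.prod_prod_type (fun p : ι × Fin K => y p)]
  have e : ∀ i, a i + ∑ l, b i l = ∑ j, f ((Matrix.of fun i j => (M i j : A)) i j) * x j := by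
    intro i
    simp only [a, b]
    rw [sum_comm, ← sum_add_distrib]
    refine sum_congr rfl fun j _ => ?_
    rw [← sum_mul, ← add_mul]
    congr 1
    rw [← map_sum, ← map_add, ← Nat.cast_sum, ← Nat.cast_add, count_le K _ (hM i j)]
    rfl
  rw [prod_congr rfl fun i _ => e i, perm_forms f _ x hx, mul_assoc]

end Expand

section Block

variable {ι κ A : Type} [Fintype ι] [DecidableEq ι] [Fintype κ] [DecidableEq κ] [CommRing A]

/-- block diagonal matrix -/
def bd (M : ι → ι → ℕ) (J : κ → κ → ℕ) : ι ⊕ κ → ι ⊕ κ → ℕ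
  | Sum.inl i, Sum.inl j => M i j
  | Sum.inl _, Sum.inr _ => 0
  | Sum.inr _, Sum.inl _ => 0
  | Sum.inr i, Sum.inr j => J i j

theorem perm_bd (M : ι → ι → ℕ) (J : κ → κ → ℕ) :
    (Matrix.of fun i j => (bd M J i j : A)).permanent =
      (Matrix.of fun i j => (M i j : A)).permanent * (Matrix.of fun i j => (J i j : A)).permanent := by
  apply perm_of_forms
  intro B _ f t ht
  rw [Fintype.prod_sum_type, Fintype.prod_sum_type]
  have r1 : ∀ i : ι, ∑ j, f ((Matrix.of fun i j => (bd M J i j : A)) (Sum.inl i) j) * t j =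
      ∑ j, f ((Matrix.of fun i j => (M i j : A)) i j) * t (Sum.inl j) := by
    intro i
    rw [Fintype.sum_sum_type]
    have : ∑ j : κ, f ((Matrix.of fun i j => (bd M J i j : A)) (Sum.inl i) (Sum.inr j)) *
        t (Sum.inr j) = 0 := by
      refine sum_eq_zero fun j _ => ?_
      show f ((0 : ℕ) : A) * _ = 0
      rw [Nat.cast_zero, map_zero, zero_mul]
    rw [this, add_zero]
    rfl
  have r2 : ∀ i : κ, ∑ j, f ((Matrix.of fun i j => (bd M J i j : A)) (Sum.inr i) j) * t j =
      ∑ j, f ((Matrix.of fun i j => (J i j : A)) i j) * t (Sum.inr j) := by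
    intro i
    rw [Fintype.sum_sum_type]
    have : ∑ j : ι, f ((Matrix.of fun i j => (bd M J i j : A)) (Sum.inr i) (Sum.inl j)) *
        t (Sum.inl j) = 0 := by
      refine sum_eq_zero fun j _ => ?_
      show f ((0 : ℕ) : A) * _ = 0
      rw [Nat.cast_zero, map_zero, zero_mul]
    rw [this, zero_add]
    rfl
  rw [prod_congr rfl fun i _ => r1 i, prod_congr rfl fun i _ => r2 i,
    perm_forms f _ (fun j => t (Sum.inl j)) (fun c => ht _),
    perm_forms f _ (fun j => t (Sum.inr j)) (fun c => ht _), map_mul]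
  ring

/-- copies of the `2 × 2` matrix of ones -/
def twos (a : ℕ) (p q : Fin a × Fin 2) : ℕ := if p.1 = q.1 then 1 else 0

theorem perm_twos (a : ℕ) : (Matrix.of fun i j => (twos a i j : A)).permanent = 2 ^ a := by
  apply perm_of_forms
  intro B _ f t ht
  have r : ∀ p : Fin a × Fin 2, ∑ q, f ((Matrix.of fun i j => (twos a i j : A)) p q) * t q =
      t (p.1, 0) + t (p.1, 1) := by
    intro p
    rw [Fintype.sum_prod_type, Finset.sum_eq_single p.1]
    · rw [Fin.sum_univ_two]
      show f ((if p.1 = p.1 then (1 : ℕ) else 0 : ℕ) : A) * _ + f ((if p.1 = p.1 then (1 : ℕ) else 0 : ℕ) : A) * _ = _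
      rw [if_pos rfl, Nat.cast_one, map_one, one_mul, one_mul]
    · intro i _ hi
      refine sum_eq_zero fun k _ => ?_
      show f ((if p.1 = i then (1 : ℕ) else 0 : ℕ) : A) * _ = _
      rw [if_neg (Ne.symm hi), Nat.cast_zero, map_zero, zero_mul]
    · intro h
      exact absurd (mem_univ _) h
  rw [prod_congr rfl fun p _ => r p, Fintype.prod_prod_type, Fintype.prod_prod_type]
  have e : ∀ i : Fin a, ∏ k : Fin 2, (t ((i, k).1, 0) + t ((i, k).1, 1)) = 2 * ∏ k : Fin 2, t (i, k) := by
    intro i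
    rw [Fin.prod_univ_two, Fin.prod_univ_two]
    have h0 := ht (i, 0)
    have h1 := ht (i, 1)
    show (t (i, 0) + t (i, 1)) * (t (i, 0) + t (i, 1)) = _
    linear_combination h0 + h1
  rw [prod_congr rfl fun i _ => e i, prod_mul_distrib, prod_const, card_univ, Fintype.card_fin,
    map_pow, map_ofNat]

/-- identity matrix -/
def idN (κ : Type) [DecidableEq κ] (i j : κ) : ℕ := if i = j then 1 else 0

theorem perm_idN : (Matrix.of fun i j => (idN κ i j : A)).permanent = 1 := by
  have : (Matrix.of fun i j => (idN κ i j : A)) = (1 : Matrix κ κ A) := by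
    ext i j
    rw [Matrix.one_apply]
    show ((if i = j then (1 : ℕ) else 0 : ℕ) : A) = _
    split_ifs <;> simp
  rw [this, Matrix.permanent_one]

theorem cast_permanent (M : Matrix ι ι ℕ) : (M.permanent : A) = (Matrix.of fun i j => (M i j : A)).permanent := by
  unfold Matrix.permanent
  push_cast
  rfl

end Block

end Pool.Agent.Helper97.Form
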