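import Pool.Agent.Helper97.Form.Expand
import Pool.Agent.Helper97.Form.BoolGad

/-!
# FORM, Boolean part: the gadget for an arbitrary modulus which is not a power of two
-/

set_option autoImplicit false
set_option linter.unusedSectionVars false

namespace Pool.Agent.Helper97.Boo

open Finset Pool.Agent.Helper97.Form

theorem placedMod (q a L n t : ℕ) (hq : 3 ≤ q) (hodd : q % 2 = 1)
    (hn : 12 * 2 ^ L * (q - 1) + 2 * a ≤ n) (keep : Fin t → QQ L)
    (hkeep : Function.Injective keep) (r c : Fin t → Fin n)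
    (hr : Function.Injective r) (hc : Function.Injective c) :
    ∃ X : (RC L → Bool) → (Fin t → Bool) → Fin n × Fin n → Bool,
      (∀ y ζ k, X y ζ (r k, c k) = ζ k) ∧
      (∀ y ζ ζ' v, (∀ k, v ≠ (r k, c k)) → X y ζ v = X y ζ' v) ∧
      ∀ y ζ, ∃ T : ℕ, perm01 n (X y ζ) = 2 ^ a * T ∧ (T : ZMod q) =
        ∑ rc : RC L, (if y rc = true then 1 else 0) *
          ∏ b ∈ UU rc, (1 + if ∃ k, keep k = b ∧ ζ k = true then (1 : ZMod q) else 0) := by
  classical
  have : NeZero q := ⟨by omega⟩
  have : Fact (1 < q) := ⟨by omega⟩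
  obtain ⟨K, hK⟩ : ∃ K, q = K + 2 := ⟨q - 2, by omega⟩
  have hδ : (2 : ZMod q) * (((q + 1) / 2 : ℕ) : ZMod q) = 1 := by
    have h1 : 2 * ((q + 1) / 2) = q + 1 := by omega
    calc (2 : ZMod q) * (((q + 1) / 2 : ℕ) : ZMod q) = ((2 * ((q + 1) / 2) : ℕ) : ZMod q) := by
          push_cast
          ring
      _ = ((q + 1 : ℕ) : ZMod q) := by rw [h1]
      _ = 1 := by
          push_cast
          simp
  obtain ⟨ι, i1, i2, N, ρ, χ, hcard, -, hzero, hne, hinj, hri, hci, hperm⟩ :=
    core (couplerHalf _ hδ) (S := Set.univ) (Set.mem_univ _)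
      (Set.mem_univ _) (fun _ => Set.mem_univ _) (fun _ => Set.mem_univ _)
      (fun _ _ => Set.mem_univ _) L
  have hcell : ∀ p p' : Option (RC L) ⊕ QQ L, ρ p = ρ p' → χ p = χ p' → p = p' := by
    rintro (o | b) (o' | b') h1 h2
    · rw [hinj o o' h1 h2]
    · exact absurd h1 (hne o b')
    · exact absurd h1.symm (hne o' b)
    · rw [hri h1]
  have hcι : Fintype.card ι ≤ 12 * 2 ^ L := by
    have hL : L ≤ 2 ^ L := Nat.lt_two_pow_self.le
    omega
  have hle : Fintype.card ι * (K + 1) + 2 * a ≤ n := by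
    have h1 : Fintype.card ι * (K + 1) ≤ 12 * 2 ^ L * (K + 1) := Nat.mul_le_mul_right _ hcι
    have h2 : q - 1 = K + 1 := by omega
    rw [h2] at hn
    omega
  let W : Type := (ι ⊕ (ι × Fin K)) ⊕ ((Fin a × Fin 2) ⊕ Fin (n - (Fintype.card ι * (K + 1) + 2 * a)))
  have hcd : Fintype.card (Fin n) = Fintype.card W := by
    show _ = Fintype.card ((ι ⊕ (ι × Fin K)) ⊕
      ((Fin a × Fin 2) ⊕ Fin (n - (Fintype.card ι * (K + 1) + 2 * a))))
    simp only [Fintype.card_sum, Fintype.card_prod, Fintype.card_fin]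
    have : Fintype.card ι * (K + 1) = Fintype.card ι * K + Fintype.card ι := by ring
    omega
  obtain ⟨eR, heR⟩ := exists_extend (Y := W) hcd r (fun k => Sum.inl (Sum.inl (ρ (Sum.inr (keep k))))) hr
    (fun k k' h => hkeep (hri (Sum.inl_injective (Sum.inl_injective h))))
  obtain ⟨eC, heC⟩ := exists_extend (Y := W) hcd c (fun k => Sum.inl (Sum.inl (χ (Sum.inr (keep k))))) hc
    (fun k k' h => hkeep (hci (Sum.inl_injective (Sum.inl_injective h))))
  -- values of the ports
  let z : (RC L → Bool) → (Fin t → Bool) → Option (RC L) ⊕ QQ L → Bool := fun y ζ p =>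
    p.elim (fun o => o.elim false y) fun b => decide (∃ k, keep k = b ∧ ζ k = true)
  let zc : (RC L → Bool) → (Fin t → Bool) → Option (RC L) ⊕ QQ L → ZMod q := fun y ζ p =>
    if z y ζ p = true then 1 else 0
  let M : (RC L → Bool) → (Fin t → Bool) → ι → ι → ℕ := fun y ζ i j => (plug N ρ χ (zc y ζ) i j).val
  have hMK : ∀ y ζ i j, M y ζ i j ≤ K + 1 := by
    intro y ζ i j
    have := ZMod.val_lt (plug N ρ χ (zc y ζ) i j)
    show (plug N ρ χ (zc y ζ) i j).val ≤ K + 1
    omega
  -- value at a port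
  have hval : ∀ y ζ p, M y ζ (ρ p) (χ p) = if z y ζ p = true then 1 else 0 := by
    intro y ζ p
    have h1 : plug N ρ χ (zc y ζ) (ρ p) (χ p) = zc y ζ p := by
      show N (ρ p) (χ p) + (∑ e, if ρ e = ρ p ∧ χ e = χ p then zc y ζ e else 0) = zc y ζ p
      rw [hzero, zero_add, Finset.sum_eq_single p]
      · exact if_pos ⟨rfl, rfl⟩
      · intro p' _ hp'
        exact if_neg fun h => hp' (hcell _ _ h.1 h.2)
      · intro h
        exact absurd (mem_univ _) h
    show (plug N ρ χ (zc y ζ) (ρ p) (χ p)).val = _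
    rw [h1]
    show (if z y ζ p = true then (1 : ZMod q) else 0).val = _
    split_ifs
    · exact ZMod.val_one q
    · exact ZMod.val_zero
  -- away from the ports of the block the values do not depend on `ζ`
  have hindep : ∀ y ζ ζ' i j, (∀ k, ¬ (ρ (Sum.inr (keep k)) = i ∧ χ (Sum.inr (keep k)) = j)) →
      M y ζ i j = M y ζ' i j := by
    intro y ζ ζ' i j h
    show (plug N ρ χ (zc y ζ) i j).val = (plug N ρ χ (zc y ζ') i j).val
    congr 1
    show N i j + (∑ e, if ρ e = i ∧ χ e = j then zc y ζ e else 0) =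
      N i j + ∑ e, if ρ e = i ∧ χ e = j then zc y ζ' e else 0
    congr 1
    refine sum_congr rfl fun p _ => ?_
    by_cases hp : ρ p = i ∧ χ p = j
    · rw [if_pos hp, if_pos hp]
      rcases p with o | b
      · rfl
      · have hb : ∀ k, keep k ≠ b := by
          rintro k rfl
          exact h k hp
        have hz : ∀ ζ : Fin t → Bool, zc y ζ (Sum.inr b) = 0 := by
          intro ζ
          refine if_neg ?_
          show ¬ (decide (∃ k, keep k = b ∧ ζ k = true) = true)
          rw [decide_eq_true_eq]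
          rintro ⟨k, hk, _⟩
          exact hb k hk
        rw [hz, hz]
    · rw [if_neg hp, if_neg hp]
  let F : (RC L → Bool) → (Fin t → Bool) → W → W → ℕ := fun y ζ =>
    bd (expand K (M y ζ)) (bd (twos a) (idN (Fin (n - (Fintype.card ι * (K + 1) + 2 * a)))))
  have hF01 : ∀ y ζ v w, F y ζ v w = 0 ∨ F y ζ v w = 1 := by
    have hif : ∀ (P : Prop) [Decidable P], (if P then (1 : ℕ) else 0) = 0 ∨
        (if P then (1 : ℕ) else 0) = 1 := by
      intro P _
      split_ifs
      · exact Or.inr rfl
      · exact Or.inl rfl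
    rintro y ζ ((i | p) | (e | e)) ((j | p') | (e' | e'))
    all_goals first
      | exact hif _
      | exact Or.inl rfl
  refine ⟨fun y ζ v => decide (F y ζ (eR v.1) (eC v.2) = 1), ?_, ?_, ?_⟩
  · intro y ζ k
    show decide (F y ζ (eR (r k)) (eC (c k)) = 1) = ζ k
    rw [heR, heC]
    have hiff : (∃ k', keep k' = keep k ∧ ζ k' = true) ↔ ζ k = true := by
      constructor
      · rintro ⟨k', h1, h2⟩
        rwa [hkeep h1] at h2
      · exact fun h => ⟨k, rfl, h⟩
    have hM1 : M y ζ (ρ (Sum.inr (keep k))) (χ (Sum.inr (keep k))) = if ζ k = true then 1 else 0 := by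
      rw [hval]
      show (if decide (∃ k', keep k' = keep k ∧ ζ k' = true) = true then 1 else 0) = _
      simp only [hiff, decide_eq_true_eq]
    have hF1 : F y ζ (Sum.inl (Sum.inl (ρ (Sum.inr (keep k))))) (Sum.inl (Sum.inl (χ (Sum.inr (keep k)))))
        = if ζ k = true then 1 else 0 := by
      show (if 1 ≤ M y ζ (ρ (Sum.inr (keep k))) (χ (Sum.inr (keep k))) then 1 else 0) = _
      rw [hM1]
      cases ζ k <;> simp
    rw [hF1]
    cases ζ k <;> simp
  · intro y ζ ζ' v hv
    show decide (F y ζ (eR v.1) (eC v.2) = 1) = decide (F y ζ' (eR v.1) (eC v.2) = 1)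
    have hFF : F y ζ (eR v.1) (eC v.2) = F y ζ' (eR v.1) (eC v.2) := by
      rcases hi : eR v.1 with (i | p) | (e | e) <;> rcases hj : eC v.2 with (j | p') | (e' | e')
      · show (if 1 ≤ M y ζ i j then 1 else 0) = if 1 ≤ M y ζ' i j then 1 else 0
        rw [hindep y ζ ζ' i j]
        rintro k ⟨h1, h2⟩
        apply hv k
        refine Prod.ext (eR.injective ?_) (eC.injective ?_)
        · rw [hi, heR, h1]
        · rw [hj, heC, h2]
      · rfl
      · rfl
      · rfl
      · show (if p.2.val + 2 ≤ M y ζ p.1 j then 1 else 0) = if p.2.val + 2 ≤ M y ζ' p.1 j then 1 else 0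
        by_cases h : ∃ k, ρ (Sum.inr (keep k)) = p.1 ∧ χ (Sum.inr (keep k)) = j
        · obtain ⟨k, h1, h2⟩ := h
          have hle1 : ∀ ζ : Fin t → Bool, M y ζ p.1 j ≤ 1 := by
            intro ζ
            rw [← h1, ← h2, hval]
            split_ifs <;> omega
          have h3 := hle1 ζ
          have h4 := hle1 ζ'
          rw [if_neg (by omega), if_neg (by omega)]
        · rw [hindep y ζ ζ' p.1 j fun k hk => h ⟨k, hk⟩]
      all_goals rfl
    rw [hFF]
  · intro y ζ
    refine ⟨(Matrix.of fun i j => expand K (M y ζ) i j).permanent, ?_, ?_⟩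
    · have e1 : perm01 n (fun v => decide (F y ζ (eR v.1) (eC v.2) = 1)) =
          (Matrix.of fun i j => F y ζ i j : Matrix W W ℕ).permanent := by
        apply Nat.cast_injective (R := ℤ)
        unfold perm01
        rw [cast_permanent, cast_permanent, ← permanent_reindex eR eC]
        congr 1
        ext i j
        show ((if decide (F y ζ (eR i) (eC j) = 1) = true then (1 : ℕ) else 0 : ℕ) : ℤ) =
          (F y ζ (eR i) (eC j) : ℤ)
        rcases hF01 y ζ (eR i) (eC j) with h | h
        · rw [h]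
          simp
        · rw [h]
          simp
      rw [e1]
      apply Nat.cast_injective (R := ℤ)
      rw [cast_permanent]
      have e2 := perm_bd (A := ℤ) (expand K (M y ζ))
        (bd (twos a) (idN (Fin (n - (Fintype.card ι * (K + 1) + 2 * a)))))
      rw [perm_bd (A := ℤ) (twos a), perm_twos, perm_idN, mul_one] at e2
      refine Eq.trans e2 ?_
      push_cast
      rw [cast_permanent (A := ℤ), mul_comm]
      rfl
    · rw [cast_permanent]
      have e3 := perm_expand (A := ZMod q) K (M y ζ) (hMK y ζ)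
      refine Eq.trans e3 ?_
      have e4 : (Matrix.of fun i j => (M y ζ i j : ZMod q) : Matrix ι ι (ZMod q)) =
          plug N ρ χ (zc y ζ) := by
        ext i j
        show ((plug N ρ χ (zc y ζ) i j).val : ZMod q) = _
        rw [ZMod.natCast_zmod_val]
      rw [e4, hperm]
      have e5 : zc y ζ (Sum.inl none) = 0 := if_neg (by simp [z])
      rw [e5, zero_add]
      refine sum_congr rfl fun rc _ => ?_
      show (if z y ζ (Sum.inl (some rc)) = true then (1 : ZMod q) else 0) *
        ∏ b ∈ UU rc, (1 + if z y ζ (Sum.inr b) = true then (1 : ZMod q) else 0) = _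
      congr 1
      refine prod_congr rfl fun b _ => ?_
      congr 1
      show (if decide (∃ k, keep k = b ∧ ζ k = true) = true then (1 : ZMod q) else 0) = _
      simp only [decide_eq_true_eq]

end Pool.Agent.Helper97.Boo
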