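import Pool.Agent.Helper97.Form.ModMany
import Pool.Agent.Helper97.Form.BoolMain

/-!
# FORM, Boolean part: formulas and branching programs for divisibility of the permanent by a number
which is not a power of two
-/

set_option autoImplicit false

namespace Pool.Agent.Helper97.Boo

open Finset Pool.Agent.Helper97.Form

/-- the numerical end, for any model whose complexity is at least `4 ^ s / (K s ^ (e - 1))` for each
block -/
theorem numeric_end (a : ℕ) (ha : 1 ≤ a) (n s sz : ℕ) (hs : (s : ℝ) ≤ 2 * Real.log n)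
    (h9 : n ^ 4 ≤ 16 * a ^ 2 * s * (n * (n / (2 * s)) * 4 ^ s)) :
    (n * (n / (2 * s)) * 4 ^ s ≤ 32 * sz → (n : ℝ) ^ 4 ≤ 2 ^ 20 * (a : ℝ) ^ 4 * (sz * Real.log n)) ∧
    (n * (n / (2 * s)) * 4 ^ s ≤ 32 * s * sz →
      (n : ℝ) ^ 4 ≤ 2 ^ 20 * (a : ℝ) ^ 4 * (sz * Real.log n ^ 2)) := by
  have ha4 : (a : ℝ) ^ 2 ≤ (a : ℝ) ^ 4 := by
    have h1 : (1 : ℝ) ≤ a := by exact_mod_cast ha
    nlinarith [sq_nonneg ((a : ℝ) ^ 2), sq_nonneg (a : ℝ), pow_le_pow_left₀ (by norm_num) h1 2]
  have hlog : 0 ≤ Real.log n := by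
    have : (0 : ℝ) ≤ s := Nat.cast_nonneg _
    linarith
  have hsz : (0 : ℝ) ≤ sz := Nat.cast_nonneg _
  constructor
  · intro h
    have h8R : (n : ℝ) ^ 4 ≤ 16 * (a : ℝ) ^ 2 * s * (32 * sz) := by
      exact_mod_cast h9.trans (Nat.mul_le_mul_left _ h)
    calc (n : ℝ) ^ 4 ≤ 16 * (a : ℝ) ^ 2 * s * (32 * sz) := h8R
      _ ≤ 16 * (a : ℝ) ^ 4 * (2 * Real.log n) * (32 * sz) := by gcongr
      _ = 2 ^ 10 * (a : ℝ) ^ 4 * (sz * Real.log n) := by ring
      _ ≤ 2 ^ 20 * (a : ℝ) ^ 4 * (sz * Real.log n) := by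
          apply mul_le_mul_of_nonneg_right _ (by positivity)
          apply mul_le_mul_of_nonneg_right (by norm_num) (by positivity)
  · intro h
    have h8R : (n : ℝ) ^ 4 ≤ 16 * (a : ℝ) ^ 2 * s * (32 * s * sz) := by
      exact_mod_cast h9.trans (Nat.mul_le_mul_left _ h)
    calc (n : ℝ) ^ 4 ≤ 16 * (a : ℝ) ^ 2 * s * (32 * s * sz) := h8R
      _ ≤ 16 * (a : ℝ) ^ 4 * (2 * Real.log n) * (32 * (2 * Real.log n) * sz) := by gcongr
      _ = 2 ^ 11 * (a : ℝ) ^ 4 * (sz * Real.log n ^ 2) := by ring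
      _ ≤ 2 ^ 20 * (a : ℝ) ^ 4 * (sz * Real.log n ^ 2) := by
          apply mul_le_mul_of_nonneg_right _ (by positivity)
          apply mul_le_mul_of_nonneg_right (by norm_num) (by positivity)

/-- **Nechiporuk's bound, assembled.** Suppose that for all `s` and `n` with `a 2 ^ s ≤ n` and every
block of `2 s` positions in distinct rows and columns the function `F n` has at least `2 ^ 4 ^ s`
subfunctions, and that `F n` is not constant. Then its formulas and branching programs are large. -/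
theorem assemble (F : ∀ n : ℕ, (Fin n × Fin n → Bool) → Bool) (a : ℕ) (ha : 1 ≤ a)
    (hconst : ∀ n : ℕ, 1 ≤ n → ∃ X Y, F n X ≠ F n Y)
    (hmany : ∀ n s : ℕ, a * 2 ^ s ≤ n → ∀ r c : Fin (2 * s) → Fin n, Function.Injective r →
      Function.Injective c → ∀ M : ℕ,
        Coded (fun (α β : Fin n × Fin n → Bool) => F n (mix (cells r c) α β)) M → 2 ^ (4 ^ s) ≤ M) :
    ∃ c : ℝ, 0 < c ∧ ∀ n : ℕ, 2 ≤ n →
    (∀ φ : BFormula (Fin n × Fin n), (∀ X, φ.eval X = F n X) →
      c * (n : ℝ) ^ 4 / Real.log n ≤ φ.size) ∧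
    (∀ (m : ℕ) (P : BProgram (Fin n × Fin n) m), (∀ X, P.eval X = F n X) →
      c * (n : ℝ) ^ 4 / (Real.log n) ^ 2 ≤ m) := by
  have hl2 : (0 : ℝ) < Real.log 2 := Real.log_pos (by norm_num)
  have hl2' : Real.log 2 < 1 := by
    have := Real.log_two_lt_d9
    linarith
  have haR : (1 : ℝ) ≤ a := by exact_mod_cast ha
  -- a large constant
  obtain ⟨c, hc, hc1, hc2⟩ : ∃ c : ℝ, 0 < c ∧ c * (2 ^ 20 * (a : ℝ) ^ 4) ≤ 1 ∧
      c * (2 ^ 20 * (a : ℝ) ^ 4) ≤ Real.log 2 ^ 2 := by
    refine ⟨min 1 (Real.log 2 ^ 2) / (2 ^ 20 * (a : ℝ) ^ 4), by positivity, ?_, ?_⟩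
    · rw [div_mul_cancel₀ _ (by positivity)]
      exact min_le_left _ _
    · rw [div_mul_cancel₀ _ (by positivity)]
      exact min_le_right _ _
  refine ⟨c, hc, fun n hn => ?_⟩
  have hlog : Real.log 2 ≤ Real.log n := Real.log_le_log (by norm_num) (by exact_mod_cast hn)
  have hlogpos : 0 < Real.log n := hl2.trans_le hlog
  rcases Nat.lt_or_ge n (4 * a) with hsmall | hbig
  · -- small `n`
    have hn4 : (n : ℝ) ^ 4 ≤ 2 ^ 20 * (a : ℝ) ^ 4 := by
      have h1 : (n : ℝ) ≤ 4 * a := by exact_mod_cast hsmall.le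
      calc (n : ℝ) ^ 4 ≤ (4 * a) ^ 4 := by gcongr
        _ = 2 ^ 8 * (a : ℝ) ^ 4 := by ring
        _ ≤ 2 ^ 20 * (a : ℝ) ^ 4 := by
            apply mul_le_mul_of_nonneg_right (by norm_num) (by positivity)
    have hcn : c * (n : ℝ) ^ 4 ≤ Real.log 2 ^ 2 := (mul_le_mul_of_nonneg_left hn4 hc.le).trans hc2
    obtain ⟨X, Y, hne⟩ := hconst n (by omega)
    constructor
    · intro φ hφ
      have hsz : 1 ≤ φ.size := by
        by_contra hcon
        apply hne
        rw [← hφ, ← hφ]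
        exact eval_const φ (by omega) _ _
      have hsz' : (1 : ℝ) ≤ φ.size := by exact_mod_cast hsz
      rw [div_le_iff₀ hlogpos]
      have h1 : Real.log 2 ^ 2 ≤ Real.log 2 := by nlinarith
      calc c * (n : ℝ) ^ 4 ≤ Real.log 2 ^ 2 := hcn
        _ ≤ Real.log 2 := h1
        _ ≤ Real.log n := hlog
        _ = 1 * Real.log n := by ring
        _ ≤ φ.size * Real.log n := mul_le_mul_of_nonneg_right hsz' hlogpos.le
    · intro m P hP
      have hsz : 1 ≤ m := by
        by_contra hcon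
        have hm : m = 0 := by omega
        subst hm
        apply hne
        rw [← hP, ← hP]
        rfl
      have hsz' : (1 : ℝ) ≤ m := by exact_mod_cast hsz
      rw [div_le_iff₀ (by positivity)]
      calc c * (n : ℝ) ^ 4 ≤ Real.log 2 ^ 2 := hcn
        _ ≤ Real.log n ^ 2 := by gcongr
        _ = 1 * Real.log n ^ 2 := by ring
        _ ≤ m * Real.log n ^ 2 := mul_le_mul_of_nonneg_right hsz' (by positivity)
  · -- large `n`
    obtain ⟨s, hs2, h3, -, h9, h10⟩ := numeric_core a ha n hbig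
    have h5 := pow4_ge s hs2
    have hend : ∀ B : ℝ, 0 ≤ B → (n : ℝ) ^ 4 ≤ 2 ^ 20 * (a : ℝ) ^ 4 * B → c * (n : ℝ) ^ 4 ≤ B := by
      intro B hB h
      calc c * (n : ℝ) ^ 4 ≤ c * (2 ^ 20 * (a : ℝ) ^ 4 * B) := mul_le_mul_of_nonneg_left h hc.le
        _ = c * (2 ^ 20 * (a : ℝ) ^ 4) * B := by ring
        _ ≤ 1 * B := mul_le_mul_of_nonneg_right hc1 hB
        _ = B := one_mul _
    constructor
    · intro φ hφ
      have key : ∀ r c : Fin (2 * s) → Fin n, Function.Injective r → Function.Injective c →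
          (4 ^ s + 31) / 32 ≤ φ.leavesIn (cells r c) := by
        intro r c hr hc
        have h1 := (formulas_coded (cells r c) (fun _ : Fin 1 => φ)).map
          (fun (g : (Fin n × Fin n → Bool) → Fin 1 → Bool) (β : Fin n × Fin n → Bool) => g β 0)
        have h2 : Coded (fun (α β : Fin n × Fin n → Bool) => F n (mix (cells r c) α β))
            (2 ^ (1 + 4 * φ.leavesIn (cells r c))) := by
          refine (h1.congr fun α => ?_).mono (by simp)
          funext β
          exact hφ _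
        have h3 := (Nat.pow_le_pow_iff_right (by norm_num : 1 < 2)).1 (hmany n s h3 r c hr hc _ h2)
        omega
      have hb := blocks n (2 * s) (by omega) (fun D => φ.leavesIn D) φ.size _
        (fun I _ D hD => sum_leavesIn D hD φ) key
      have h6 : 4 ^ s ≤ 32 * ((4 ^ s + 31) / 32) := by omega
      have h7 : n * (n / (2 * s)) * 4 ^ s ≤ 32 * φ.size := by
        calc n * (n / (2 * s)) * 4 ^ s ≤ n * (n / (2 * s)) * (32 * ((4 ^ s + 31) / 32)) :=
              Nat.mul_le_mul_left _ h6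
          _ = 32 * (n * (n / (2 * s)) * ((4 ^ s + 31) / 32)) := by ring
          _ ≤ 32 * φ.size := Nat.mul_le_mul_left _ hb
      rw [div_le_iff₀ hlogpos]
      exact hend _ (by positivity) ((numeric_end a ha n s φ.size h10 h9).1 h7)
    · intro m P hP
      have hs0 : 0 < 32 * s := by omega
      have key : ∀ r c : Fin (2 * s) → Fin n, Function.Injective r → Function.Injective c →
          (4 ^ s + (32 * s - 1)) / (32 * s) ≤ (univ.filter fun k => P.label k ∈ cells r c).card := by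
        intro r c hr hc
        rw [Nat.div_le_iff_le_mul_add_pred hs0]
        set k := (univ.filter fun k => P.label k ∈ cells r c).card with hk
        have h2 : Coded (fun (α β : Fin n × Fin n → Bool) => F n (mix (cells r c) α β))
            ((k + 2) ^ (2 * k + 1)) := by
          refine (program_coded (cells r c) P).congr fun α => ?_
          funext β
          exact hP _
        have h3 := hmany n s h3 r c hr hc _ h2
        suffices h : 4 ^ s ≤ 32 * s * k by omega
        by_contra hcon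
        push Not at hcon
        have h6 : k + 2 ≤ 2 ^ (2 * s) := by
          rw [show (2 : ℕ) ^ (2 * s) = 4 ^ s by rw [pow_mul]; norm_num]
          nlinarith
        have h7 : (k + 2) ^ (2 * k + 1) ≤ 2 ^ (2 * s * (2 * k + 1)) := by
          rw [pow_mul]
          exact Nat.pow_le_pow_left h6 _
        have h8 := (Nat.pow_le_pow_iff_right (by norm_num : 1 < 2)).1 (h3.trans h7)
        rcases Nat.eq_zero_or_pos k with h0 | h0
        · rw [h0] at h8
          have : 2 * s * (2 * 0 + 1) = 2 * s := by ring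
          omega
        · have h9 : 2 * s * (2 * k + 1) = 4 * (s * k) + 2 * s := by ring
          have h10 : s ≤ s * k := Nat.le_mul_of_pos_right _ h0
          have h11 : 32 * s * k = 32 * (s * k) := by ring
          omega
      have hb := blocks n (2 * s) (by omega) (fun D => (univ.filter fun k => P.label k ∈ D).card) m _
        (fun I _ D hD => sum_labels D hD P) key
      have h6 : 4 ^ s ≤ 32 * s * ((4 ^ s + (32 * s - 1)) / (32 * s)) := by
        have h := Nat.div_add_mod (4 ^ s + (32 * s - 1)) (32 * s)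
        have h' := Nat.mod_lt (4 ^ s + (32 * s - 1)) hs0
        omega
      have h7 : n * (n / (2 * s)) * 4 ^ s ≤ 32 * s * m := by
        calc n * (n / (2 * s)) * 4 ^ s ≤
              n * (n / (2 * s)) * (32 * s * ((4 ^ s + (32 * s - 1)) / (32 * s))) :=
              Nat.mul_le_mul_left _ h6
          _ = 32 * s * (n * (n / (2 * s)) * ((4 ^ s + (32 * s - 1)) / (32 * s))) := by ring
          _ ≤ 32 * s * m := Nat.mul_le_mul_left _ hb
      rw [div_le_iff₀ (by positivity)]
      exact hend _ (by positivity) ((numeric_end a ha n s m h10 h9).2 h7)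

/-- Divisibility of the permanent by `m`, for `m` not a power of two. -/
theorem main_mod (m : ℕ) (hm : m ≠ 0) (hm2 : ∀ k : ℕ, m ≠ 2 ^ k) : ∃ c : ℝ, 0 < c ∧ ∀ n : ℕ, 2 ≤ n →
    (∀ φ : BFormula (Fin n × Fin n), (∀ X, φ.eval X = decide (m ∣ perm01 n X)) →
      c * (n : ℝ) ^ 4 / Real.log n ≤ φ.size) ∧
    (∀ (ℓ : ℕ) (P : BProgram (Fin n × Fin n) ℓ), (∀ X, P.eval X = decide (m ∣ perm01 n X)) →
      c * (n : ℝ) ^ 4 / (Real.log n) ^ 2 ≤ ℓ) := by
  obtain ⟨a, q, hq, rfl⟩ := Nat.exists_eq_two_pow_mul_odd hm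
  have hq1 : q ≠ 1 := by
    rintro rfl
    exact hm2 a (mul_one _)
  obtain ⟨q', hq'⟩ := hq
  have hq3 : 3 ≤ q := by omega
  obtain ⟨j, hj⟩ : ∃ j, q - 1 ≤ 4 ^ j := ⟨q - 1, (Nat.lt_pow_self (by norm_num)).le⟩
  refine assemble (fun n X => decide (2 ^ a * q ∣ perm01 n X)) (12 * 2 ^ j * (q - 1) + 2 * a + 1)
    (by omega) ?_ ?_
  · intro n hn
    refine ⟨fun _ => false, fun v => decide (v.1 = v.2), ?_⟩
    beta_reduce
    rw [perm01_zero n hn, perm01_one]
    have h1 : ¬ (2 ^ a * q ∣ 1) := by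
      intro h
      exact hq1 (Nat.dvd_one.1 (dvd_trans (Dvd.intro_left _ rfl) h))
    simp [h1]
  · intro n s hs r c hr hc M hM
    refine many_mod q a j n s hq3 (by omega) hj ?_ r c hr hc hM
    refine le_trans ?_ hs
    have h1 : 1 ≤ 2 ^ s := Nat.one_le_two_pow
    calc 12 * 2 ^ (s + j) * (q - 1) + 2 * a ≤ 12 * 2 ^ j * (q - 1) * 2 ^ s + 2 * a * 2 ^ s := by
          rw [pow_add]
          have h2 : 12 * (2 ^ s * 2 ^ j) * (q - 1) = 12 * 2 ^ j * (q - 1) * 2 ^ s := by ring
          rw [h2]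
          have h3 : 2 * a ≤ 2 * a * 2 ^ s := Nat.le_mul_of_pos_right _ (by positivity)
          omega
      _ = (12 * 2 ^ j * (q - 1) + 2 * a) * 2 ^ s := by ring
      _ ≤ (12 * 2 ^ j * (q - 1) + 2 * a + 1) * 2 ^ s := Nat.mul_le_mul_right _ (by omega)

end Pool.Agent.Helper97.Boo
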