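import Mathlib

/-!
# FORM: path weights in the binary trees
-/

set_option autoImplicit false

namespace Pool.Agent.Helper97.Form

open Finset

section

variable {A : Type} [CommRing A]

/-- weight of the paths in the chain -/
def Bf (L : ℕ) (zb : ℕ → A) (b : ℕ) : A := ∏ l ∈ Ico b (2 * L), (1 + zb l)

/-- weight of the path from the node `(k, c)` of the second tree -/
def Cf (L : ℕ) (z2 : ℕ → ℕ → A) (zb : ℕ → A) (k c : ℕ) : A :=
  (∏ l ∈ range k, if c.testBit l then 1 else z2 l (c % 2 ^ l)) * Bf L zb 0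

/-- weight of the path from level `k` to the leaf `r` of the first tree -/
def Ff (L : ℕ) (z1 : ℕ → ℕ → A) (k r : ℕ) : A :=
  ∏ l ∈ Ico k L, if r.testBit l then 1 else z1 l (r % 2 ^ l)

/-- weight of the paths from the node `(k, u)` of the first tree, if `G r` is the weight of the
paths from the leaf `r` -/
def Xf (L : ℕ) (z1 : ℕ → ℕ → A) (G : ℕ → A) (k u : ℕ) : A :=
  ∑ r ∈ (range (2 ^ L)).filter (fun r => r % 2 ^ k = u), Ff L z1 k r * G r

theorem Bf_succ (L : ℕ) (zb : ℕ → A) {b : ℕ} (hb : b < 2 * L) :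
    Bf L zb b = (1 + zb b) * Bf L zb (b + 1) :=
  prod_eq_prod_Ico_succ_bot hb _

theorem Bf_last (L : ℕ) (zb : ℕ → A) : Bf L zb (2 * L) = 1 := by simp [Bf]

theorem testBit_mod (u k l : ℕ) (hl : l < k) : (u % 2 ^ k).testBit l = u.testBit l := by
  rw [Nat.testBit_mod_two_pow]
  simp [hl]

theorem mod_mod_pow (u k l : ℕ) (hl : l ≤ k) : u % 2 ^ k % 2 ^ l = u % 2 ^ l :=
  Nat.mod_mod_of_dvd _ (pow_dvd_pow 2 hl)

theorem Cf_succ (L : ℕ) (z2 : ℕ → ℕ → A) (zb : ℕ → A) (k u : ℕ) :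
    Cf L z2 zb (k + 1) u =
      (if u.testBit k then 1 else z2 k (u % 2 ^ k)) * Cf L z2 zb k (u % 2 ^ k) := by
  unfold Cf
  rw [prod_range_succ]
  have : ∏ l ∈ range k, (if (u % 2 ^ k).testBit l then (1 : A) else z2 l (u % 2 ^ k % 2 ^ l)) =
      ∏ l ∈ range k, if u.testBit l then (1 : A) else z2 l (u % 2 ^ l) := by
    refine prod_congr rfl fun l hl => ?_
    rw [mem_range] at hl
    rw [testBit_mod u k l hl, mod_mod_pow u k l hl.le]
  rw [this]
  ring

theorem mod_two_succ (r k : ℕ) : r % 2 ^ (k + 1) = r % 2 ^ k + 2 ^ k * (r.testBit k).toNat := by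
  rw [Nat.mod_pow_succ, Nat.toNat_testBit]

theorem mod_succ_eq (r k u : ℕ) (hu : u < 2 ^ k) :
    r % 2 ^ (k + 1) = u ↔ r % 2 ^ k = u ∧ r.testBit k = false := by
  rw [mod_two_succ]
  have h2 := Nat.mod_lt r (show 0 < 2 ^ k by positivity)
  cases h : r.testBit k
  · simp
  · simp only [Bool.toNat_true, mul_one, reduceCtorEq, and_false, iff_false]
    omega

theorem mod_succ_eq' (r k u : ℕ) (hu : u < 2 ^ k) :
    r % 2 ^ (k + 1) = u + 2 ^ k ↔ r % 2 ^ k = u ∧ r.testBit k = true := by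
  rw [mod_two_succ]
  have h2 := Nat.mod_lt r (show 0 < 2 ^ k by positivity)
  cases h : r.testBit k
  · simp only [Bool.toNat_false, mul_zero, add_zero, reduceCtorEq, and_false, iff_false]
    omega
  · simp

theorem Xf_succ (L : ℕ) (z1 : ℕ → ℕ → A) (G : ℕ → A) {k u : ℕ} (hk : k < L) (hu : u < 2 ^ k) :
    Xf L z1 G k u = Xf L z1 G (k + 1) (u + 2 ^ k) + z1 k u * Xf L z1 G (k + 1) u := by
  unfold Xf
  rw [sum_filter, sum_filter, sum_filter, mul_sum, ← sum_add_distrib]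
  refine sum_congr rfl fun r _ => ?_
  simp only [mod_succ_eq r k u hu, mod_succ_eq' r k u hu]
  have e : Ff L z1 k r = (if r.testBit k then 1 else z1 k (r % 2 ^ k)) * Ff L z1 (k + 1) r :=
    prod_eq_prod_Ico_succ_bot hk _
  by_cases h : r % 2 ^ k = u
  · rw [e]
    cases hb : r.testBit k
    · simp [h]
      ring
    · simp [h]
  · simp [h]

theorem Xf_last (L : ℕ) (z1 : ℕ → ℕ → A) (G : ℕ → A) {r : ℕ} (hr : r < 2 ^ L) :
    Xf L z1 G L r = G r := by
  unfold Xf
  have : (range (2 ^ L)).filter (fun r' => r' % 2 ^ L = r) = {r} := by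
    ext r'
    rw [mem_filter, mem_range, mem_singleton]
    constructor
    · rintro ⟨h1, h2⟩
      rwa [Nat.mod_eq_of_lt h1] at h2
    · rintro rfl
      exact ⟨hr, Nat.mod_eq_of_lt hr⟩
  rw [this, sum_singleton]
  simp [Ff]

theorem Xf_zero (L : ℕ) (z1 : ℕ → ℕ → A) (G : ℕ → A) :
    Xf L z1 G 0 0 = ∑ r ∈ range (2 ^ L), Ff L z1 0 r * G r := by
  unfold Xf
  congr 1
  rw [filter_eq_self]
  intro r _
  simp [Nat.mod_one]

end

end Pool.Agent.Helper97.Form
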