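import Pool.Agent.Helper97.Form.Moebius

/-!
# FORM: the gadget with the block at given positions of an `n × n` matrix
-/

set_option autoImplicit false
set_option linter.unusedSectionVars false

namespace Pool.Agent.Helper97.Form

open Finset

variable {A : Type} [CommRing A]

theorem placed {k : ℕ} (C : Coupler A k) {S : Set A} (h0 : (0 : A) ∈ S) (h1 : (1 : A) ∈ S)
    (hw : ∀ l, C.w l ∈ S) (hw' : ∀ l, C.w' l ∈ S) (hQ : ∀ l l', C.Q l l' ∈ S) (L n : ℕ)
    (hn : (2 * (k + 2) + 6) * 2 ^ L ≤ n) (r c : Fin (2 * L) → Fin n) (hr : Function.Injective r)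
    (hc : Function.Injective c) :
    ∃ (N : Matrix (Fin n) (Fin n) A) (ρ χ : Option (RC L) → Fin n),
      (∀ i j, N i j ∈ S) ∧ (∀ o, N (ρ o) (χ o) = 0) ∧ (∀ q, N (r q) (c q) = 0) ∧
      (∀ o o', ρ o = ρ o' → χ o = χ o' → o = o') ∧ (∀ o q, ρ o ≠ r q) ∧
      ∀ z : Option (RC L) ⊕ QQ L → A, (plug N (Sum.elim ρ r) (Sum.elim χ c) z).permanent =
        z (Sum.inl none) +
          ∑ rc : RC L, z (Sum.inl (some rc)) * ∏ q ∈ UU rc, (1 + z (Sum.inr q)) := by
  classical
  obtain ⟨ι, i1, i2, N₁, ρ₁, χ₁, hcard, hN, hz0, hne, hinj, hri, hci, hperm⟩ :=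
    core C h0 h1 hw hw' hQ L
  have hle : Fintype.card ι ≤ n := by
    have hL : L ≤ 2 ^ L := Nat.lt_two_pow_self.le
    have e1 : (2 * (k + 2) + 6) * 2 ^ L = (k + 2) * (2 * 2 ^ L) + 6 * 2 ^ L := by ring
    rw [e1] at hn
    omega
  have hcd : Fintype.card (Fin n) = Fintype.card (ι ⊕ Fin (n - Fintype.card ι)) := by
    rw [Fintype.card_sum, Fintype.card_fin, Fintype.card_fin]
    omega
  obtain ⟨eR, heR⟩ := exists_extend hcd r (fun q => Sum.inl (ρ₁ (Sum.inr q))) hr
    (Sum.inl_injective.comp hri)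
  obtain ⟨eC, heC⟩ := exists_extend hcd c (fun q => Sum.inl (χ₁ (Sum.inr q))) hc
    (Sum.inl_injective.comp hci)
  let ρ : Option (RC L) → Fin n := fun o => eR.symm (Sum.inl (ρ₁ (Sum.inl o)))
  let χ : Option (RC L) → Fin n := fun o => eC.symm (Sum.inl (χ₁ (Sum.inl o)))
  have hRall : ∀ p : Option (RC L) ⊕ QQ L, eR (Sum.elim ρ r p) = Sum.inl (ρ₁ p) := by
    rintro (o | q)
    · exact Equiv.apply_symm_apply _ _
    · exact heR q
  have hCall : ∀ p : Option (RC L) ⊕ QQ L, eC (Sum.elim χ c p) = Sum.inl (χ₁ p) := by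
    rintro (o | q)
    · exact Equiv.apply_symm_apply _ _
    · exact heC q
  refine ⟨Matrix.of fun i j => padM (Fin (n - Fintype.card ι)) N₁ (eR i) (eC j), ρ, χ, ?_, ?_, ?_,
    ?_, ?_, ?_⟩
  · intro i j
    show padM (Fin (n - Fintype.card ι)) N₁ (eR i) (eC j) ∈ S
    rcases eR i with a | a <;> rcases eC j with b | b
    · exact hN a b
    · exact h0
    · exact h0
    · show (if a = b then (1 : A) else 0) ∈ S
      split_ifs
      · exact h1
      · exact h0
  · intro o
    show padM (Fin (n - Fintype.card ι)) N₁ (eR (Sum.elim ρ r (Sum.inl o)))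
      (eC (Sum.elim χ c (Sum.inl o))) = 0
    rw [hRall, hCall]
    exact hz0 _
  · intro q
    show padM (Fin (n - Fintype.card ι)) N₁ (eR (Sum.elim ρ r (Sum.inr q)))
      (eC (Sum.elim χ c (Sum.inr q))) = 0
    rw [hRall, hCall]
    exact hz0 _
  · intro o o' e1 e2
    have h3 := congrArg eR e1
    have h4 := congrArg eC e2
    simp only [ρ, χ, Equiv.apply_symm_apply] at h3 h4
    exact hinj _ _ (Sum.inl_injective h3) (Sum.inl_injective h4)
  · intro o q e1
    have h3 := congrArg eR e1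
    rw [heR] at h3
    simp only [ρ, Equiv.apply_symm_apply] at h3
    exact hne _ _ (Sum.inl_injective h3)
  · intro z
    rw [← hperm z, ← padM_permanent (κ := Fin (n - Fintype.card ι)) (plug N₁ ρ₁ χ₁ z),
      ← permanent_reindex eR eC (padM (Fin (n - Fintype.card ι)) (plug N₁ ρ₁ χ₁ z))]
    congr 1
    ext i j
    show padM (Fin (n - Fintype.card ι)) N₁ (eR i) (eC j) +
      (∑ p, if Sum.elim ρ r p = i ∧ Sum.elim χ c p = j then z p else 0) =
        padM (Fin (n - Fintype.card ι)) (plug N₁ ρ₁ χ₁ z) (eR i) (eC j)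
    have key : ∀ p, (Sum.elim ρ r p = i ∧ Sum.elim χ c p = j) ↔
        ((Sum.inl (ρ₁ p) : ι ⊕ Fin (n - Fintype.card ι)) = eR i ∧
          (Sum.inl (χ₁ p) : ι ⊕ Fin (n - Fintype.card ι)) = eC j) := by
      intro p
      rw [← hRall, ← hCall, eR.apply_eq_iff_eq, eC.apply_eq_iff_eq]
    simp only [key]
    rcases hi : eR i with a | a <;> rcases hj : eC j with b | b
    · show N₁ a b + _ = N₁ a b + _
      congr 1
      refine sum_congr rfl fun p _ => ?_
      simp only [Sum.inl.injEq]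
    · show (0 : A) + _ = 0
      rw [zero_add]
      exact sum_eq_zero fun p _ => if_neg fun h => Sum.inl_ne_inr h.2
    · show (0 : A) + _ = 0
      rw [zero_add]
      exact sum_eq_zero fun p _ => if_neg fun h => Sum.inl_ne_inr h.1
    · show (if a = b then (1 : A) else 0) + _ = if a = b then 1 else 0
      rw [sum_eq_zero, add_zero]
      exact fun p _ => if_neg fun h => Sum.inl_ne_inr h.1

end Pool.Agent.Helper97.Form
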