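import Pool.Agent.Helper97.Form.Couplers

/-!
# FORM: matrices with ports
-/

set_option autoImplicit false
set_option linter.unusedSectionVars false

namespace Pool.Agent.Helper97.Form

open Finset

/-- The matrix `N` with the value `z e` added to the entry `(ρ e, χ e)`, for all ports `e`. -/
def plug {ι P A : Type} [DecidableEq ι] [Fintype P] [CommRing A] (N : Matrix ι ι A) (ρ χ : P → ι)
    (z : P → A) : Matrix ι ι A :=
  Matrix.of fun i j => N i j + ∑ e, if ρ e = i ∧ χ e = j then z e else 0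

variable {A J E Q : Type} [CommRing A] [Fintype E] [Fintype Q] [DecidableEq E] [DecidableEq Q]

/-- There is a matrix of size `n` with entries in `S` and with ports `E ⊕ Q` whose permanent is
`∑ j ∈ s, y j * ∏ e ∈ m j, z e`; the ports of `F` are at zero entries. -/
def Rep (S : Set A) (m : J → Finset (E ⊕ Q)) (y : J → A) (F : Finset Q) (s : Finset J) (n : ℕ) :
    Prop :=
  ∃ (ι : Type) (_ : Fintype ι) (_ : DecidableEq ι) (N : Matrix ι ι A) (ρ χ : E ⊕ Q → ι),
    Fintype.card ι = n ∧ (∀ i j, N i j ∈ S) ∧ (∀ e q, ρ (Sum.inl e) ≠ ρ (Sum.inr q)) ∧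
    (∀ e q, χ (Sum.inl e) ≠ χ (Sum.inr q)) ∧ (Function.Injective fun q => ρ (Sum.inr q)) ∧
    (Function.Injective fun q => χ (Sum.inr q)) ∧
    (∀ q ∈ F, N (ρ (Sum.inr q)) (χ (Sum.inr q)) = 0) ∧
    (∀ e, N (ρ (Sum.inl e)) (χ (Sum.inl e)) = 0) ∧
    (∀ e e', ρ (Sum.inl e) = ρ (Sum.inl e') → χ (Sum.inl e) = χ (Sum.inl e') → e = e') ∧
    ∀ z : E ⊕ Q → A, (plug N ρ χ z).permanent = ∑ j ∈ s, y j * ∏ e ∈ m j, z e

theorem addE_plug {ι P : Type} [DecidableEq ι] [Fintype P] [DecidableEq P] (N : Matrix ι ι A)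
    (ρ χ : P → ι) (z : P → A) (e : P) (t : A) :
    addE (plug N ρ χ (Function.update z e 0)) (ρ e) (χ e) t =
      plug N ρ χ (Function.update z e t) := by
  ext i j
  show N i j + (∑ p, if ρ p = i ∧ χ p = j then Function.update z e 0 p else 0) +
    (if i = ρ e ∧ j = χ e then t else 0) =
      N i j + ∑ p, if ρ p = i ∧ χ p = j then Function.update z e t p else 0
  rw [add_assoc]
  congr 1
  rw [← add_sum_erase univ _ (mem_univ e), ← add_sum_erase univ _ (mem_univ e)]
  have h : ∀ t' : A, ∑ p ∈ univ.erase e, (if ρ p = i ∧ χ p = j then Function.update z e t' p else 0) =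
      ∑ p ∈ univ.erase e, if ρ p = i ∧ χ p = j then z p else 0 := by
    intro t'
    refine sum_congr rfl fun p hp => ?_
    rw [Function.update_of_ne (ne_of_mem_erase hp)]
  rw [h, h, Function.update_self, Function.update_self]
  by_cases h1 : ρ e = i ∧ χ e = j
  · rw [if_pos h1, if_pos ⟨h1.1.symm, h1.2.symm⟩, if_pos h1]
    ring
  · rw [if_neg h1, if_neg h1, if_neg fun h2 => h1 ⟨h2.1.symm, h2.2.symm⟩]
    ring

theorem prod_update_zero {P : Type} [DecidableEq P] (s : Finset P) (z : P → A) (e : P) :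
    ∏ p ∈ s, Function.update z e 0 p = if e ∈ s then 0 else ∏ p ∈ s, z p := by
  split_ifs with h
  · exact prod_eq_zero h (Function.update_self _ _ _)
  · refine prod_congr rfl fun p hp => Function.update_of_ne ?_ _ _
    rintro rfl
    exact h hp

theorem plug_cpl {ι P : Type} {k : ℕ} [Fintype ι] [DecidableEq ι] [Fintype P] [DecidableEq P]
    (C : Coupler A k) (N : Matrix ι ι A) (ρ χ : P → ι) (z : P → A) (e q : P) (heq : e ≠ q) :
    plug (cpl C N (ρ e) (ρ q) (χ e) (χ q) 0 0)
      (fun p => if p = e then Sum.inr 0 else if p = q then Sum.inr 1 else Sum.inl (ρ p))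
      (fun p => Sum.inl (χ p)) z =
    cpl C (plug N ρ χ (Function.update (Function.update z e 0) q 0)) (ρ e) (ρ q) (χ e) (χ q)
      (z e) (z q) := by
  have hq : q ∈ univ.erase e := mem_erase.2 ⟨heq.symm, mem_univ _⟩
  have hsplit : ∀ g : P → A, ∑ p, g p = g e + (g q + ∑ p ∈ (univ.erase e).erase q, g p) := by
    intro g
    rw [add_sum_erase _ _ hq, add_sum_erase _ _ (mem_univ e)]
  have hmem : ∀ p ∈ (univ.erase e).erase q, p ≠ q ∧ p ≠ e := by
    intro p hp
    rw [mem_erase, mem_erase] at hp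
    exact ⟨hp.1, hp.2.1⟩
  ext i j
  rcases i with i | l <;> rcases j with j | l'
  · show N i j + _ = N i j + _
    congr 1
    rw [hsplit, hsplit]
    beta_reduce
    rw [if_pos rfl, if_neg heq.symm, if_pos rfl, if_neg (fun h => Sum.inr_ne_inl h.1),
      if_neg (fun h => Sum.inr_ne_inl h.1), Function.update_self,
      Function.update_of_ne heq, Function.update_self, ite_self, ite_self]
    congr 2
    refine sum_congr rfl fun p hp => ?_
    obtain ⟨h1, h2⟩ := hmem p hp
    rw [if_neg h2, if_neg h1, Function.update_of_ne h1, Function.update_of_ne h2]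
    simp only [Sum.inl.injEq]
  · show cpl C N (ρ e) (ρ q) (χ e) (χ q) 0 0 (Sum.inl i) (Sum.inr l') + _ =
      cpl C N (ρ e) (ρ q) (χ e) (χ q) 0 0 (Sum.inl i) (Sum.inr l')
    rw [sum_eq_zero, add_zero]
    intro p _
    rw [if_neg (fun h => Sum.inl_ne_inr h.2)]
  · show ((if l = 0 ∧ j = χ e then (0 : A) else 0) + (if l = 1 ∧ j = χ q then (0 : A) else 0)) + _ =
      (if l = 0 ∧ j = χ e then z e else 0) + (if l = 1 ∧ j = χ q then z q else 0)
    rw [ite_self, ite_self, add_zero, zero_add, hsplit]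
    beta_reduce
    rw [if_pos rfl, if_neg heq.symm, if_pos rfl, sum_eq_zero, add_zero]
    · simp only [Sum.inr.injEq, Sum.inl.injEq, eq_comm]
    · intro p hp
      obtain ⟨h1, h2⟩ := hmem p hp
      rw [if_neg h2, if_neg h1, if_neg (fun h => Sum.inl_ne_inr h.1)]
  · show C.Q l l' + _ = C.Q l l'
    rw [sum_eq_zero, add_zero]
    intro p _
    rw [if_neg (fun h => Sum.inl_ne_inr h.2)]

theorem Rep.kill {S : Set A} {m : J → Finset (E ⊕ Q)} {y : J → A} {F : Finset Q} {s : Finset J}
    {n k : ℕ} (C : Coupler A k) (h0 : (0 : A) ∈ S) (hw : ∀ l, C.w l ∈ S) (hw' : ∀ l, C.w' l ∈ S)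
    (hQ : ∀ l l', C.Q l l' ∈ S) (h : Rep S m y F s n) (e : E) (q : Q) :
    Rep S m y (insert q F) (s.filter fun j => ¬ (Sum.inl e ∈ m j ∧ Sum.inr q ∈ m j))
      (n + (k + 2)) := by
  obtain ⟨ι, i1, i2, N, ρ, χ, hcard, hN, hρ, hχ, hρi, hχi, hF, hE, hEi, hz⟩ := h
  have heq : (Sum.inl e : E ⊕ Q) ≠ Sum.inr q := Sum.inl_ne_inr
  refine ⟨ι ⊕ Fin (k + 2), inferInstance, inferInstance,
    cpl C N (ρ (Sum.inl e)) (ρ (Sum.inr q)) (χ (Sum.inl e)) (χ (Sum.inr q)) 0 0,
    fun p => if p = Sum.inl e then Sum.inr 0 else if p = Sum.inr q then Sum.inr 1 else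
      Sum.inl (ρ p), fun p => Sum.inl (χ p), ?_, ?_, ?_, ?_, ?_, ?_, ?_, ?_, ?_, ?_⟩
  · rw [Fintype.card_sum, hcard, Fintype.card_fin]
  · rintro (i | l) (j | l')
    · exact hN i j
    · show (if i = ρ (Sum.inl e) then C.w l' else 0) + (if i = ρ (Sum.inr q) then C.w' l' else 0) ∈ S
      by_cases h1 : i = ρ (Sum.inl e)
      · rw [if_pos h1, if_neg (fun h2 => hρ e q (h1.symm.trans h2)), add_zero]
        exact hw l'
      · rw [if_neg h1, zero_add]
        split_ifs
        · exact hw' l'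
        · exact h0
    · show (if l = 0 ∧ j = _ then (0 : A) else 0) + (if l = 1 ∧ j = _ then (0 : A) else 0) ∈ S
      rw [ite_self, ite_self, add_zero]
      exact h0
    · exact hQ l l'
  · intro e' q' h1
    dsimp only at h1
    by_cases he : e' = e
    · subst he
      rw [if_pos rfl, if_neg Sum.inr_ne_inl] at h1
      split_ifs at h1 with h2
      have := congrArg (fun a : ι ⊕ Fin (k + 2) => a.elim (fun _ => 5) fun l => l.val) h1
      simp at this
    · rw [if_neg (fun h2 => he (Sum.inl_injective h2)), if_neg Sum.inl_ne_inr,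
        if_neg Sum.inr_ne_inl] at h1
      split_ifs at h1 with h2
      exact hρ e' q' (Sum.inl_injective h1)
  · intro e' q' h1
    exact hχ e' q' (Sum.inl_injective h1)
  · intro q₁ q₂ h1
    dsimp only at h1
    rw [if_neg Sum.inr_ne_inl, if_neg Sum.inr_ne_inl] at h1
    by_cases hq1 : q₁ = q <;> by_cases hq2 : q₂ = q
    · rw [hq1, hq2]
    · rw [if_pos (by rw [hq1]), if_neg (fun h2 => hq2 (Sum.inr_injective h2))] at h1
      exact absurd h1 Sum.inr_ne_inl
    · rw [if_neg (fun h2 => hq1 (Sum.inr_injective h2)), if_pos (by rw [hq2])] at h1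
      exact absurd h1 Sum.inl_ne_inr
    · rw [if_neg (fun h2 => hq1 (Sum.inr_injective h2)),
        if_neg (fun h2 => hq2 (Sum.inr_injective h2))] at h1
      exact hρi (Sum.inl_injective h1)
  · intro q₁ q₂ h1
    exact hχi (Sum.inl_injective h1)
  · intro q' hq'
    dsimp only
    rw [if_neg Sum.inr_ne_inl]
    by_cases h1 : q' = q
    · rw [if_pos (by rw [h1])]
      show (if (1 : Fin (k + 2)) = 0 ∧ _ = _ then (0 : A) else 0) +
        (if (1 : Fin (k + 2)) = 1 ∧ _ = _ then (0 : A) else 0) = 0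
      rw [ite_self, ite_self, add_zero]
    · rw [if_neg (fun h2 => h1 (Sum.inr_injective h2))]
      exact hF q' (mem_of_mem_insert_of_ne hq' h1)
  · intro e'
    dsimp only
    by_cases h1 : e' = e
    · rw [if_pos (by rw [h1])]
      show (if (0 : Fin (k + 2)) = 0 ∧ _ = _ then (0 : A) else 0) +
        (if (0 : Fin (k + 2)) = 1 ∧ _ = _ then (0 : A) else 0) = 0
      rw [ite_self, ite_self, add_zero]
    · rw [if_neg (fun h2 => h1 (Sum.inl_injective h2)), if_neg Sum.inl_ne_inr]
      exact hE e'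
  · intro e₁ e₂ h1 h2
    dsimp only at h1
    rw [if_neg Sum.inl_ne_inr, if_neg Sum.inl_ne_inr] at h1
    by_cases hq1 : e₁ = e <;> by_cases hq2 : e₂ = e
    · rw [hq1, hq2]
    · rw [if_pos (by rw [hq1]), if_neg (fun h2 => hq2 (Sum.inl_injective h2))] at h1
      exact absurd h1 Sum.inr_ne_inl
    · rw [if_neg (fun h2 => hq1 (Sum.inl_injective h2)), if_pos (by rw [hq2])] at h1
      exact absurd h1 Sum.inl_ne_inr
    · rw [if_neg (fun h2 => hq1 (Sum.inl_injective h2)),
        if_neg (fun h2 => hq2 (Sum.inl_injective h2))] at h1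
      exact hEi e₁ e₂ (Sum.inl_injective h1) (Sum.inl_injective h2)
  · intro z
    rw [plug_cpl C N ρ χ z _ _ heq, cpl_permanent C _ (hρ e q)]
    have e1 : addE (plug N ρ χ (Function.update (Function.update z (Sum.inl e) 0) (Sum.inr q) 0))
        (ρ (Sum.inl e)) (χ (Sum.inl e)) (z (Sum.inl e)) =
        plug N ρ χ (Function.update z (Sum.inr q) 0) := by
      rw [Function.update_comm heq, addE_plug]
      congr 1
      rw [Function.update_comm heq.symm, Function.update_eq_self]
    have e2 : addE (plug N ρ χ (Function.update (Function.update z (Sum.inl e) 0) (Sum.inr q) 0))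
        (ρ (Sum.inr q)) (χ (Sum.inr q)) (z (Sum.inr q)) =
        plug N ρ χ (Function.update z (Sum.inl e) 0) := by
      rw [addE_plug]
      congr 1
      rw [Function.update_comm heq, Function.update_eq_self]
    rw [e1, e2, hz, hz, hz, ← sum_add_distrib, ← sum_sub_distrib, sum_filter]
    refine sum_congr rfl fun j _ => ?_
    rw [prod_update_zero, prod_update_zero, prod_update_zero, prod_update_zero]
    by_cases h1 : (Sum.inl e : E ⊕ Q) ∈ m j <;> by_cases h2 : (Sum.inr q : E ⊕ Q) ∈ m j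
    · simp [h1, h2]
    · simp [h1, h2]
    · simp [h1, h2]
    · simp [h1, h2]

theorem Rep.kills {S : Set A} {m : J → Finset (E ⊕ Q)} {y : J → A} {F : Finset Q} {s : Finset J}
    {n k : ℕ} (C : Coupler A k) (h0 : (0 : A) ∈ S) (hw : ∀ l, C.w l ∈ S) (hw' : ∀ l, C.w' l ∈ S)
    (hQ : ∀ l l', C.Q l l' ∈ S) (h : Rep S m y F s n) (T : Finset (E × Q)) :
    Rep S m y (F ∪ T.image Prod.snd)
      (s.filter fun j => ∀ p ∈ T, ¬ (Sum.inl p.1 ∈ m j ∧ Sum.inr p.2 ∈ m j))
      (n + (k + 2) * T.card) := by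
  classical
  induction T using Finset.induction_on with
  | empty => simpa using h
  | insert a T ha ih =>
    have := ih.kill C h0 hw hw' hQ a.1 a.2
    rw [filter_filter] at this
    rw [card_insert_of_notMem ha, image_insert, union_insert]
    have e1 : n + (k + 2) * T.card + (k + 2) = n + (k + 2) * (T.card + 1) := by ring
    rw [e1] at this
    convert this using 2
    rw [forall_mem_insert]
    tauto

end Pool.Agent.Helper97.Form
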