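import Pool.Agent.Helper97.Form.Rep
import Pool.Agent.Helper97.Form.Path

/-!
# FORM: the base matrix
-/

set_option autoImplicit false

namespace Pool.Agent.Helper97.Form

open Finset

section Plug

variable {τ P A : Type} [Fintype τ] [DecidableEq τ] [Fintype P] [CommRing A]

/-- self-loops of weight one added at all vertices except the extra one -/
def selfl (N : Option τ → Option τ → A) : Matrix (Option τ) (Option τ) A :=
  Matrix.of fun i j => (if i = j ∧ i ≠ none then 1 else 0) + N i j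

theorem perm_plug (r : τ → ℕ) (N : Option τ → Option τ → A) (ρ χ : P → Option τ) (z : P → A)
    (x : Option τ → A) (hN : ∀ i j, N (some i) (some j) ≠ 0 → r j < r i)
    (hρχ : ∀ p i j, ρ p = some i → χ p = some j → r j < r i) (hx0 : x none = 1)
    (hx : ∀ i, x (some i) = ∑ j, N (some i) j * x j + ∑ p, if ρ p = some i then z p * x (χ p) else 0) :
    (plug (selfl N) ρ χ z).permanent =
      ∑ j, N none j * x j + ∑ p, if ρ p = none then z p * x (χ p) else 0 := by
  let M : Option τ → Option τ → A := fun i j => N i j + ∑ p, if ρ p = i ∧ χ p = j then z p else 0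
  have hM : ∀ i, ∑ j, M i j * x j =
      ∑ j, N i j * x j + ∑ p, if ρ p = i then z p * x (χ p) else 0 := by
    intro i
    simp only [M, add_mul, sum_add_distrib, sum_mul]
    congr 1
    rw [sum_comm]
    refine sum_congr rfl fun p _ => ?_
    rw [Finset.sum_eq_single (χ p)]
    · by_cases h : ρ p = i
      · simp [h]
      · simp [h]
    · intro j _ hj
      rw [if_neg (fun h => hj h.2.symm), zero_mul]
    · intro h
      exact absurd (mem_univ _) h
  have e1 : plug (selfl N) ρ χ z = acy (M none none) (fun j => M none (some j))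
      (fun i => M (some i) none) (fun i j => M (some i) (some j)) := by
    ext i j
    rcases i with _ | i <;> rcases j with _ | j
    · show (if (none : Option τ) = none ∧ (none : Option τ) ≠ none then (1 : A) else 0) +
        N none none + _ = M none none
      rw [if_neg (by simp), zero_add]
    · show (if (none : Option τ) = some j ∧ (none : Option τ) ≠ none then (1 : A) else 0) +
        N none (some j) + _ = M none (some j)
      rw [if_neg (by simp), zero_add]
    · show (if some i = (none : Option τ) ∧ some i ≠ (none : Option τ) then (1 : A) else 0) +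
        N (some i) none + _ = M (some i) none
      rw [if_neg (by simp), zero_add]
    · show (if some i = some j ∧ some i ≠ (none : Option τ) then (1 : A) else 0) +
        N (some i) (some j) + _ = (if i = j then 1 else 0) + M (some i) (some j)
      simp only [Option.some.injEq, ne_eq, reduceCtorEq, not_false_eq_true, and_true, M]
      ring
  rw [e1, perm_acy r _ _ _ (fun i => x (some i))]
  · rw [← hM none, Fintype.sum_option, hx0, mul_one]
  · intro i j hij
    by_contra hr
    apply hij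
    show N (some i) (some j) + _ = 0
    have h1 : N (some i) (some j) = 0 := by
      by_contra h
      exact hr (hN i j h)
    rw [h1, zero_add]
    refine sum_eq_zero fun p _ => ?_
    rw [if_neg]
    rintro ⟨h2, h3⟩
    exact hr (hρχ p i j h2 h3)
  · intro i
    rw [hx i, ← hM (some i), Fintype.sum_option, hx0, mul_one]

end Plug

/-! ### Nodes -/

/-- nodes of a complete binary tree of depth `L`: level and number -/
def tn (L : ℕ) : Finset ((_ : ℕ) × ℕ) := (range (L + 1)).sigma fun k => range (2 ^ k)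

/-- inner nodes -/
def te (L : ℕ) : Finset ((_ : ℕ) × ℕ) := (range L).sigma fun k => range (2 ^ k)

theorem mem_tn {L : ℕ} {n : (_ : ℕ) × ℕ} : n ∈ tn L ↔ n.1 < L + 1 ∧ n.2 < 2 ^ n.1 := by
  simp [tn]

theorem mem_te {L : ℕ} {n : (_ : ℕ) × ℕ} : n ∈ te L ↔ n.1 < L ∧ n.2 < 2 ^ n.1 := by
  simp [te]

theorem sum_two_pow (L : ℕ) : ∑ k ∈ range L, 2 ^ k + 1 = 2 ^ L := by
  induction L with
  | zero => simp
  | succ L ih => rw [sum_range_succ, pow_succ]; omega

theorem card_te (L : ℕ) : (te L).card + 1 = 2 ^ L := by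
  rw [te, card_sigma]
  simp only [card_range]
  exact sum_two_pow L

theorem card_tn (L : ℕ) : (tn L).card + 1 = 2 ^ (L + 1) := by
  rw [tn, card_sigma]
  simp only [card_range]
  exact sum_two_pow (L + 1)

/-- the vertices of the graph -/
abbrev Tau (L : ℕ) : Type := ↥(tn L) ⊕ (↥(tn L) ⊕ Fin (2 * L + 1))

/-- the ports at the trees -/
abbrev EE (L : ℕ) : Type := (↥(te L) ⊕ ↥(te L)) ⊕ Option (Fin (2 ^ L) × Fin (2 ^ L))

/-- the ports at the chain -/
abbrev QQ (L : ℕ) : Type := Fin (2 * L)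

variable {L : ℕ}

def lo (e : ↥(te L)) : ↥(tn L) := ⟨e.1, mem_tn.2 ⟨(mem_te.1 e.2).1.trans (Nat.lt_succ_self L),
  (mem_te.1 e.2).2⟩⟩

def ch0 (e : ↥(te L)) : ↥(tn L) := ⟨⟨e.1.1 + 1, e.1.2⟩, mem_tn.2 ⟨by
  have := (mem_te.1 e.2).1
  show e.1.1 + 1 < L + 1
  omega, by
  have := (mem_te.1 e.2).2
  show e.1.2 < 2 ^ (e.1.1 + 1)
  rw [pow_succ]
  omega⟩⟩

def ch1 (e : ↥(te L)) : ↥(tn L) := ⟨⟨e.1.1 + 1, e.1.2 + 2 ^ e.1.1⟩, mem_tn.2 ⟨by
  have := (mem_te.1 e.2).1
  show e.1.1 + 1 < L + 1
  omega, by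
  have := (mem_te.1 e.2).2
  show e.1.2 + 2 ^ e.1.1 < 2 ^ (e.1.1 + 1)
  rw [pow_succ]
  omega⟩⟩

def leaf (r : Fin (2 ^ L)) : ↥(tn L) := ⟨⟨L, r⟩, mem_tn.2 ⟨Nat.lt_succ_self L, r.2⟩⟩

def root : ↥(tn L) := ⟨⟨0, 0⟩, mem_tn.2 ⟨Nat.succ_pos L, by simp⟩⟩

def par (n : ↥(tn L)) : ↥(tn L) := ⟨⟨n.1.1 - 1, n.1.2 % 2 ^ (n.1.1 - 1)⟩, mem_tn.2 ⟨by
  have := (mem_tn.1 n.2).1
  show n.1.1 - 1 < L + 1
  omega, Nat.mod_lt _ (by positivity)⟩⟩

/-- the edge of weight one which starts at a vertex -/
def nxt : Option (Tau L) → Option (Option (Tau L))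
  | none => some (some (Sum.inl root))
  | some (Sum.inl n) => if h : n.1.1 < L then some (some (Sum.inl (ch1 ⟨n.1, mem_te.2
      ⟨h, (mem_tn.1 n.2).2⟩⟩))) else none
  | some (Sum.inr (Sum.inl n)) => if n.1.1 = 0 then some (some (Sum.inr (Sum.inr 0))) else
      if n.1.2.testBit (n.1.1 - 1) then some (some (Sum.inr (Sum.inl (par n)))) else none
  | some (Sum.inr (Sum.inr b)) => if h : b.val < 2 * L then
      some (some (Sum.inr (Sum.inr ⟨b.val + 1, Nat.succ_lt_succ h⟩))) else some none

/-- the rows of the ports -/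
def rho : EE L ⊕ QQ L → Option (Tau L)
  | Sum.inl (Sum.inl (Sum.inl e)) => some (Sum.inl (lo e))
  | Sum.inl (Sum.inl (Sum.inr e)) => some (Sum.inr (Sum.inl (ch0 e)))
  | Sum.inl (Sum.inr none) => none
  | Sum.inl (Sum.inr (some rc)) => some (Sum.inl (leaf rc.1))
  | Sum.inr q => some (Sum.inr (Sum.inr q.castSucc))

/-- the columns of the ports -/
def chi : EE L ⊕ QQ L → Option (Tau L)
  | Sum.inl (Sum.inl (Sum.inl e)) => some (Sum.inl (ch0 e))
  | Sum.inl (Sum.inl (Sum.inr e)) => some (Sum.inr (Sum.inl (lo e)))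
  | Sum.inl (Sum.inr none) => none
  | Sum.inl (Sum.inr (some rc)) => some (Sum.inr (Sum.inl (leaf rc.2)))
  | Sum.inr q => some (Sum.inr (Sum.inr q.succ))

/-- the rank of a vertex -/
def rk : Tau L → ℕ
  | Sum.inl n => 4 * L + 2 - n.1.1
  | Sum.inr (Sum.inl n) => 2 * L + 1 + n.1.1
  | Sum.inr (Sum.inr b) => 2 * L - b.val

variable {A : Type} [CommRing A]

/-- the edges of weight one -/
def N0 (L : ℕ) (A : Type) [CommRing A] (i j : Option (Tau L)) : A := if nxt i = some j then 1 else 0

theorem sum_N0 (i : Option (Tau L)) (x : Option (Tau L) → A) :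
    ∑ j, N0 L A i j * x j = (nxt i).elim 0 x := by
  unfold N0
  rcases h : nxt i with _ | j
  · simp
  · simp

theorem rk_N0 (i j : Tau L) (h : N0 L A (some i) (some j) ≠ 0) : rk j < rk i := by
  have h1 : nxt (some i) = some (some j) := by
    by_contra h2
    exact h (if_neg h2)
  rcases i with n | n | b
  · rw [nxt] at h1
    split_ifs at h1 with h2
    rw [Option.some.injEq, Option.some.injEq] at h1
    subst h1
    show 4 * L + 2 - (n.1.1 + 1) < 4 * L + 2 - n.1.1
    omega
  · rw [nxt] at h1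
    split_ifs at h1 with h2 h3
    · rw [Option.some.injEq, Option.some.injEq] at h1
      subst h1
      show 2 * L - 0 < 2 * L + 1 + n.1.1
      omega
    · rw [Option.some.injEq, Option.some.injEq] at h1
      subst h1
      show 2 * L + 1 + (n.1.1 - 1) < 2 * L + 1 + n.1.1
      omega
  · rw [nxt] at h1
    split_ifs at h1 with h2
    · rw [Option.some.injEq, Option.some.injEq] at h1
      subst h1
      show 2 * L - (b.val + 1) < 2 * L - b.val
      omega
    · exact absurd h1 (by simp)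

theorem rk_port (p : EE L ⊕ QQ L) (i j : Tau L) (hi : rho p = some i) (hj : chi p = some j) :
    rk j < rk i := by
  rcases p with ((e | e) | (_ | rc)) | q
  · rw [rho, Option.some.injEq] at hi
    rw [chi, Option.some.injEq] at hj
    subst hi hj
    have := (mem_te.1 e.2).1
    show 4 * L + 2 - (e.1.1 + 1) < 4 * L + 2 - e.1.1
    omega
  · rw [rho, Option.some.injEq] at hi
    rw [chi, Option.some.injEq] at hj
    subst hi hj
    show 2 * L + 1 + e.1.1 < 2 * L + 1 + (e.1.1 + 1)
    omega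
  · rw [rho] at hi
    exact absurd hi (by simp)
  · rw [rho, Option.some.injEq] at hi
    rw [chi, Option.some.injEq] at hj
    subst hi hj
    show 2 * L + 1 + L < 4 * L + 2 - L
    omega
  · rw [rho, Option.some.injEq] at hi
    rw [chi, Option.some.injEq] at hj
    subst hi hj
    have := q.2
    show 2 * L - (q.val + 1) < 2 * L - q.val
    omega

/-! ### The path weights -/

section Weights

variable (z : EE L ⊕ QQ L → A)

def z1 (l u : ℕ) : A :=
  if h : (⟨l, u⟩ : (_ : ℕ) × ℕ) ∈ te L then z (Sum.inl (Sum.inl (Sum.inl ⟨⟨l, u⟩, h⟩))) else 0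

def z2 (l u : ℕ) : A :=
  if h : (⟨l, u⟩ : (_ : ℕ) × ℕ) ∈ te L then z (Sum.inl (Sum.inl (Sum.inr ⟨⟨l, u⟩, h⟩))) else 0

def zb (l : ℕ) : A := if h : l < 2 * L then z (Sum.inr ⟨l, h⟩) else 0

def GG (r : ℕ) : A :=
  if h : r < 2 ^ L then ∑ c : Fin (2 ^ L), z (Sum.inl (Sum.inr (some (⟨r, h⟩, c)))) *
    Cf L (z2 z) (zb z) L c else 0

/-- path weights -/
def xx : Option (Tau L) → A
  | none => 1
  | some (Sum.inl n) => Xf L (z1 z) (GG z) n.1.1 n.1.2
  | some (Sum.inr (Sum.inl n)) => Cf L (z2 z) (zb z) n.1.1 n.1.2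
  | some (Sum.inr (Sum.inr b)) => Bf L (zb z) b.val

/-- the sum over the ports with a given row -/
theorem sum_ports (i : Option (Tau L)) (g : EE L ⊕ QQ L → A) :
    ∑ p, (if rho p = i then g p else 0) =
      (∑ e : ↥(te L), if some (Sum.inl (lo e)) = i then g (Sum.inl (Sum.inl (Sum.inl e))) else 0) +
      (∑ e : ↥(te L), if some (Sum.inr (Sum.inl (ch0 e))) = i then
        g (Sum.inl (Sum.inl (Sum.inr e))) else 0) +
      ((if none = i then g (Sum.inl (Sum.inr none)) else 0) +
      ∑ rc : Fin (2 ^ L) × Fin (2 ^ L), if some (Sum.inl (leaf rc.1)) = i then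
        g (Sum.inl (Sum.inr (some rc))) else 0) +
      ∑ q : QQ L, if some (Sum.inr (Sum.inr q.castSucc)) = i then g (Sum.inr q) else 0 := by
  rw [Fintype.sum_sum_type, Fintype.sum_sum_type, Fintype.sum_sum_type, Fintype.sum_option]
  rfl

theorem lo_inj {e e' : ↥(te L)} (h : lo e = lo e') : e = e' := by
  have := congrArg Subtype.val h
  exact Subtype.ext this

theorem ch0_inj {e e' : ↥(te L)} (h : ch0 e = ch0 e') : e = e' := by
  have h2 : e.1.1 + 1 = e'.1.1 + 1 := congrArg (fun n : ↥(tn L) => n.1.1) h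
  have h3 : e.1.2 = e'.1.2 := congrArg (fun n : ↥(tn L) => n.1.2) h
  apply Subtype.ext
  apply Sigma.ext
  · omega
  · rw [h3]

theorem leaf_inj {r r' : Fin (2 ^ L)} (h : leaf r = leaf r') : r = r' := by
  have h1 := congrArg Subtype.val h
  exact Fin.ext (congrArg (fun n : (_ : ℕ) × ℕ => n.2) h1)

theorem hx_row (n : ↥(tn L)) : xx z (some (Sum.inl n)) =
    ∑ j, N0 L A (some (Sum.inl n)) j * xx z j +
      ∑ p, if rho p = some (Sum.inl n) then z p * xx z (chi p) else 0 := by
  rw [sum_N0, sum_ports _ fun p => z p * xx z (chi p)]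
  have s2 : (∑ e : ↥(te L), if some (Sum.inr (Sum.inl (ch0 e))) = some (Sum.inl n : Tau L) then
      z (Sum.inl (Sum.inl (Sum.inr e))) * xx z (chi (Sum.inl (Sum.inl (Sum.inr e)))) else 0) = 0 :=
    sum_eq_zero fun e _ => if_neg (by simp)
  have s3 : (if none = some (Sum.inl n : Tau L) then
      z (Sum.inl (Sum.inr none)) * xx z (chi (Sum.inl (Sum.inr none))) else 0) = 0 :=
    if_neg (by simp)
  have s5 : (∑ q : QQ L, if some (Sum.inr (Sum.inr q.castSucc)) = some (Sum.inl n : Tau L) then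
      z (Sum.inr q) * xx z (chi (Sum.inr q)) else 0) = 0 :=
    sum_eq_zero fun e _ => if_neg (by simp)
  rw [s2, s3, s5, add_zero, zero_add, add_zero]
  obtain ⟨hn1, hn2⟩ := mem_tn.1 n.2
  rcases Nat.lt_or_ge n.1.1 L with h | h
  · let e : ↥(te L) := ⟨n.1, mem_te.2 ⟨h, hn2⟩⟩
    have he : lo e = n := rfl
    have s4 : (∑ rc : Fin (2 ^ L) × Fin (2 ^ L), if some (Sum.inl (leaf rc.1)) =
        some (Sum.inl n : Tau L) then z (Sum.inl (Sum.inr (some rc))) *
          xx z (chi (Sum.inl (Sum.inr (some rc)))) else 0) = 0 := by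
      refine sum_eq_zero fun rc _ => if_neg fun h2 => ?_
      rw [Option.some.injEq, Sum.inl.injEq] at h2
      have : L = n.1.1 := congrArg (fun m : ↥(tn L) => m.1.1) h2
      omega
    have s1 : (∑ e' : ↥(te L), if some (Sum.inl (lo e')) = some (Sum.inl n : Tau L) then
        z (Sum.inl (Sum.inl (Sum.inl e'))) * xx z (chi (Sum.inl (Sum.inl (Sum.inl e')))) else 0) =
        z (Sum.inl (Sum.inl (Sum.inl e))) * xx z (some (Sum.inl (ch0 e))) := by
      rw [Finset.sum_eq_single e]
      · rw [if_pos (by rw [he])]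
        rfl
      · intro e' _ hne
        refine if_neg fun h2 => hne ?_
        rw [Option.some.injEq, Sum.inl.injEq, ← he] at h2
        exact lo_inj h2
      · intro h2
        exact absurd (mem_univ _) h2
    rw [s4, s1, add_zero]
    have hnx : nxt (some (Sum.inl n : Tau L)) = some (some (Sum.inl (ch1 e))) := by
      rw [nxt, dif_pos h]
    rw [hnx]
    show Xf L (z1 z) (GG z) n.1.1 n.1.2 = Xf L (z1 z) (GG z) (n.1.1 + 1) (n.1.2 + 2 ^ n.1.1) +
      z (Sum.inl (Sum.inl (Sum.inl e))) * Xf L (z1 z) (GG z) (n.1.1 + 1) n.1.2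
    rw [Xf_succ L (z1 z) (GG z) h hn2]
    have hz : z1 z n.1.1 n.1.2 = z (Sum.inl (Sum.inl (Sum.inl e))) := by
      unfold z1
      rw [dif_pos (show (⟨n.1.1, n.1.2⟩ : (_ : ℕ) × ℕ) ∈ te L from e.2)]
    rw [hz]
  · have hL : n.1.1 = L := by omega
    have s1 : (∑ e' : ↥(te L), if some (Sum.inl (lo e')) = some (Sum.inl n : Tau L) then
        z (Sum.inl (Sum.inl (Sum.inl e'))) * xx z (chi (Sum.inl (Sum.inl (Sum.inl e')))) else 0) =
        0 := by
      refine sum_eq_zero fun e _ => if_neg fun h2 => ?_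
      rw [Option.some.injEq, Sum.inl.injEq] at h2
      have h3 : e.1.1 = n.1.1 := congrArg (fun m : ↥(tn L) => m.1.1) h2
      have := (mem_te.1 e.2).1
      omega
    have hnx : nxt (some (Sum.inl n : Tau L)) = none := by
      rw [nxt, dif_neg (by omega)]
    rw [hnx, s1, zero_add]
    have hr : n.1.2 < 2 ^ L := by rwa [hL] at hn2
    have hleaf : leaf ⟨n.1.2, hr⟩ = n := by
      apply Subtype.ext
      apply Sigma.ext
      · exact hL.symm
      · rfl
    have s4 : (∑ rc : Fin (2 ^ L) × Fin (2 ^ L), if some (Sum.inl (leaf rc.1)) =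
        some (Sum.inl n : Tau L) then z (Sum.inl (Sum.inr (some rc))) *
          xx z (chi (Sum.inl (Sum.inr (some rc)))) else 0) =
        ∑ c : Fin (2 ^ L), z (Sum.inl (Sum.inr (some (⟨n.1.2, hr⟩, c)))) *
          Cf L (z2 z) (zb z) L c := by
      rw [Fintype.sum_prod_type, Finset.sum_eq_single (⟨n.1.2, hr⟩ : Fin (2 ^ L))]
      · refine sum_congr rfl fun c _ => ?_
        rw [if_pos (by rw [hleaf])]
        rfl
      · intro r _ hne
        refine sum_eq_zero fun c _ => if_neg fun h2 => hne ?_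
        rw [Option.some.injEq, Sum.inl.injEq, ← hleaf] at h2
        exact leaf_inj h2
      · intro h2
        exact absurd (mem_univ _) h2
    show Xf L (z1 z) (GG z) n.1.1 n.1.2 = 0 + _
    rw [s4, hL, Xf_last L (z1 z) (GG z) hr, zero_add, GG, dif_pos hr]

theorem hx_col (n : ↥(tn L)) : xx z (some (Sum.inr (Sum.inl n))) =
    ∑ j, N0 L A (some (Sum.inr (Sum.inl n))) j * xx z j +
      ∑ p, if rho p = some (Sum.inr (Sum.inl n)) then z p * xx z (chi p) else 0 := by
  rw [sum_N0, sum_ports _ fun p => z p * xx z (chi p)]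
  have s1 : (∑ e : ↥(te L), if some (Sum.inl (lo e)) = some (Sum.inr (Sum.inl n) : Tau L) then
      z (Sum.inl (Sum.inl (Sum.inl e))) * xx z (chi (Sum.inl (Sum.inl (Sum.inl e)))) else 0) = 0 :=
    sum_eq_zero fun e _ => if_neg (by simp)
  have s3 : (if none = some (Sum.inr (Sum.inl n) : Tau L) then
      z (Sum.inl (Sum.inr none)) * xx z (chi (Sum.inl (Sum.inr none))) else 0) = 0 :=
    if_neg (by simp)
  have s4 : (∑ rc : Fin (2 ^ L) × Fin (2 ^ L), if some (Sum.inl (leaf rc.1)) =
      some (Sum.inr (Sum.inl n) : Tau L) then z (Sum.inl (Sum.inr (some rc))) *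
        xx z (chi (Sum.inl (Sum.inr (some rc)))) else 0) = 0 :=
    sum_eq_zero fun e _ => if_neg (by simp)
  have s5 : (∑ q : QQ L, if some (Sum.inr (Sum.inr q.castSucc)) =
      some (Sum.inr (Sum.inl n) : Tau L) then z (Sum.inr q) * xx z (chi (Sum.inr q)) else 0) = 0 :=
    sum_eq_zero fun e _ => if_neg (by simp)
  rw [s1, s3, s4, s5, add_zero, add_zero, zero_add, add_zero]
  obtain ⟨hn1, hn2⟩ := mem_tn.1 n.2
  rcases Nat.eq_zero_or_pos n.1.1 with h | h
  · have s2 : (∑ e : ↥(te L), if some (Sum.inr (Sum.inl (ch0 e))) =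
        some (Sum.inr (Sum.inl n) : Tau L) then z (Sum.inl (Sum.inl (Sum.inr e))) *
          xx z (chi (Sum.inl (Sum.inl (Sum.inr e)))) else 0) = 0 := by
      refine sum_eq_zero fun e _ => if_neg fun h2 => ?_
      rw [Option.some.injEq, Sum.inr.injEq, Sum.inl.injEq] at h2
      have : e.1.1 + 1 = n.1.1 := congrArg (fun m : ↥(tn L) => m.1.1) h2
      omega
    have hnx : nxt (some (Sum.inr (Sum.inl n) : Tau L)) = some (some (Sum.inr (Sum.inr 0))) := by
      rw [nxt, if_pos h]
    rw [hnx, s2, add_zero]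
    have hu : n.1.2 = 0 := by
      rw [h] at hn2
      simpa using hn2
    show Cf L (z2 z) (zb z) n.1.1 n.1.2 = Bf L (zb z) 0
    rw [h]
    simp [Cf]
  · obtain ⟨k, hk⟩ : ∃ k, n.1.1 = k + 1 := ⟨n.1.1 - 1, by omega⟩
    have hcf : xx z (some (Sum.inr (Sum.inl n))) =
        (if n.1.2.testBit k then 1 else z2 z k (n.1.2 % 2 ^ k)) *
          Cf L (z2 z) (zb z) k (n.1.2 % 2 ^ k) := by
      show Cf L (z2 z) (zb z) n.1.1 n.1.2 = _
      rw [hk, Cf_succ]
    rw [hcf]
    cases hb : n.1.2.testBit k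
    · have hu : n.1.2 < 2 ^ k := by
        rw [hk] at hn2
        by_contra hcon
        have h5 := mod_two_succ n.1.2 k
        rw [Nat.mod_eq_of_lt hn2, hb] at h5
        have h6 := Nat.mod_lt n.1.2 (show 0 < 2 ^ k by positivity)
        simp only [Bool.toNat_false, mul_zero, add_zero] at h5
        omega
      let e : ↥(te L) := ⟨⟨k, n.1.2⟩, mem_te.2 ⟨by show k < L; omega, hu⟩⟩
      have he : ch0 e = n := by
        apply Subtype.ext
        apply Sigma.ext
        · exact hk.symm
        · rfl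
      have s2 : (∑ e : ↥(te L), if some (Sum.inr (Sum.inl (ch0 e))) =
          some (Sum.inr (Sum.inl n) : Tau L) then z (Sum.inl (Sum.inl (Sum.inr e))) *
            xx z (chi (Sum.inl (Sum.inl (Sum.inr e)))) else 0) =
          z (Sum.inl (Sum.inl (Sum.inr e))) * Cf L (z2 z) (zb z) k n.1.2 := by
        rw [Finset.sum_eq_single e]
        · rw [if_pos (by rw [he])]
          rfl
        · intro e' _ hne
          refine if_neg fun h2 => hne ?_
          rw [Option.some.injEq, Sum.inr.injEq, Sum.inl.injEq, ← he] at h2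
          exact ch0_inj h2
        · intro h2
          exact absurd (mem_univ _) h2
      have hnx : nxt (some (Sum.inr (Sum.inl n) : Tau L)) = none := by
        rw [nxt, if_neg (by omega), if_neg]
        rw [hk, Nat.add_sub_cancel, hb]
        simp
      rw [hnx, s2, Nat.mod_eq_of_lt hu]
      have hz : z2 z k n.1.2 = z (Sum.inl (Sum.inl (Sum.inr e))) := by
        unfold z2
        rw [dif_pos e.2]
      rw [hz]
      simp
    · have s2 : (∑ e : ↥(te L), if some (Sum.inr (Sum.inl (ch0 e))) =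
          some (Sum.inr (Sum.inl n) : Tau L) then z (Sum.inl (Sum.inl (Sum.inr e))) *
            xx z (chi (Sum.inl (Sum.inl (Sum.inr e)))) else 0) = 0 := by
        refine sum_eq_zero fun e _ => if_neg fun h2 => ?_
        rw [Option.some.injEq, Sum.inr.injEq, Sum.inl.injEq] at h2
        have h3 : e.1.1 + 1 = n.1.1 := congrArg (fun m : ↥(tn L) => m.1.1) h2
        have h4 : e.1.2 = n.1.2 := congrArg (fun m : ↥(tn L) => m.1.2) h2
        have h5 := (mem_te.1 e.2).2
        have h6 : e.1.1 = k := by omega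
        rw [h6, h4] at h5
        rw [Nat.testBit_eq_false_of_lt h5] at hb
        exact absurd hb (by simp)
      have hnx : nxt (some (Sum.inr (Sum.inl n) : Tau L)) =
          some (some (Sum.inr (Sum.inl (par n)))) := by
        rw [nxt, if_neg (by omega), if_pos]
        rw [hk, Nat.add_sub_cancel, hb]
      rw [hnx, s2, add_zero, if_pos rfl, one_mul]
      show _ = Cf L (z2 z) (zb z) (n.1.1 - 1) (n.1.2 % 2 ^ (n.1.1 - 1))
      rw [hk, Nat.add_sub_cancel]

theorem hx_bit (b : Fin (2 * L + 1)) : xx z (some (Sum.inr (Sum.inr b))) =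
    ∑ j, N0 L A (some (Sum.inr (Sum.inr b))) j * xx z j +
      ∑ p, if rho p = some (Sum.inr (Sum.inr b)) then z p * xx z (chi p) else 0 := by
  rw [sum_N0, sum_ports _ fun p => z p * xx z (chi p)]
  have s1 : (∑ e : ↥(te L), if some (Sum.inl (lo e)) = some (Sum.inr (Sum.inr b) : Tau L) then
      z (Sum.inl (Sum.inl (Sum.inl e))) * xx z (chi (Sum.inl (Sum.inl (Sum.inl e)))) else 0) = 0 :=
    sum_eq_zero fun e _ => if_neg (by simp)
  have s2 : (∑ e : ↥(te L), if some (Sum.inr (Sum.inl (ch0 e))) =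
      some (Sum.inr (Sum.inr b) : Tau L) then z (Sum.inl (Sum.inl (Sum.inr e))) *
        xx z (chi (Sum.inl (Sum.inl (Sum.inr e)))) else 0) = 0 :=
    sum_eq_zero fun e _ => if_neg (by simp)
  have s3 : (if none = some (Sum.inr (Sum.inr b) : Tau L) then
      z (Sum.inl (Sum.inr none)) * xx z (chi (Sum.inl (Sum.inr none))) else 0) = 0 :=
    if_neg (by simp)
  have s4 : (∑ rc : Fin (2 ^ L) × Fin (2 ^ L), if some (Sum.inl (leaf rc.1)) =
      some (Sum.inr (Sum.inr b) : Tau L) then z (Sum.inl (Sum.inr (some rc))) *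
        xx z (chi (Sum.inl (Sum.inr (some rc)))) else 0) = 0 :=
    sum_eq_zero fun e _ => if_neg (by simp)
  rw [s1, s2, s3, s4, add_zero, add_zero, zero_add]
  rcases Nat.lt_or_ge b.val (2 * L) with h | h
  · have s5 : (∑ q : QQ L, if some (Sum.inr (Sum.inr q.castSucc)) =
        some (Sum.inr (Sum.inr b) : Tau L) then z (Sum.inr q) * xx z (chi (Sum.inr q)) else 0) =
        z (Sum.inr ⟨b.val, h⟩) * Bf L (zb z) (b.val + 1) := by
      rw [Finset.sum_eq_single (⟨b.val, h⟩ : QQ L)]
      · rw [if_pos (by rfl)]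
        rfl
      · intro q _ hne
        refine if_neg fun h2 => hne ?_
        rw [Option.some.injEq, Sum.inr.injEq, Sum.inr.injEq] at h2
        have h3 : q.castSucc.val = b.val := by rw [h2]
        exact Fin.ext h3
      · intro h2
        exact absurd (mem_univ _) h2
    have hnx : nxt (some (Sum.inr (Sum.inr b) : Tau L)) =
        some (some (Sum.inr (Sum.inr ⟨b.val + 1, Nat.succ_lt_succ h⟩))) := by
      rw [nxt, dif_pos h]
    rw [hnx, s5]
    show Bf L (zb z) b.val = Bf L (zb z) (b.val + 1) + _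
    rw [Bf_succ L (zb z) h]
    have hz : zb z b.val = z (Sum.inr ⟨b.val, h⟩) := by
      unfold zb
      rw [dif_pos h]
    rw [hz]
    ring
  · have s5 : (∑ q : QQ L, if some (Sum.inr (Sum.inr q.castSucc)) =
        some (Sum.inr (Sum.inr b) : Tau L) then z (Sum.inr q) * xx z (chi (Sum.inr q)) else 0) =
        0 := by
      refine sum_eq_zero fun q _ => if_neg fun h2 => ?_
      rw [Option.some.injEq, Sum.inr.injEq, Sum.inr.injEq] at h2
      have h3 : q.val = b.val := congrArg Fin.val h2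
      have := q.2
      omega
    have hnx : nxt (some (Sum.inr (Sum.inr b) : Tau L)) = some none := by
      rw [nxt, dif_neg (by omega)]
    rw [hnx, s5, add_zero]
    show Bf L (zb z) b.val = 1
    have hb : b.val = 2 * L := by omega
    rw [hb, Bf_last]

/-- The permanent of the base matrix. -/
theorem perm_base : (plug (selfl (N0 L A)) rho chi z).permanent =
    z (Sum.inl (Sum.inr none)) + ∑ r : Fin (2 ^ L), ∑ c : Fin (2 ^ L),
      z (Sum.inl (Sum.inr (some (r, c)))) * (Ff L (z1 z) 0 r * Cf L (z2 z) (zb z) L c) := by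
  rw [perm_plug rk (N0 L A) rho chi z (xx z) rk_N0 rk_port rfl]
  · rw [sum_N0, sum_ports _ fun p => z p * xx z (chi p)]
    have s1 : (∑ e : ↥(te L), if some (Sum.inl (lo e)) = (none : Option (Tau L)) then
        z (Sum.inl (Sum.inl (Sum.inl e))) * xx z (chi (Sum.inl (Sum.inl (Sum.inl e)))) else 0) =
        0 := sum_eq_zero fun e _ => if_neg (by simp)
    have s2 : (∑ e : ↥(te L), if some (Sum.inr (Sum.inl (ch0 e))) = (none : Option (Tau L)) then
        z (Sum.inl (Sum.inl (Sum.inr e))) * xx z (chi (Sum.inl (Sum.inl (Sum.inr e)))) else 0) =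
        0 := sum_eq_zero fun e _ => if_neg (by simp)
    have s4 : (∑ rc : Fin (2 ^ L) × Fin (2 ^ L), if some (Sum.inl (leaf rc.1)) =
        (none : Option (Tau L)) then z (Sum.inl (Sum.inr (some rc))) *
          xx z (chi (Sum.inl (Sum.inr (some rc)))) else 0) = 0 :=
      sum_eq_zero fun e _ => if_neg (by simp)
    have s5 : (∑ q : QQ L, if some (Sum.inr (Sum.inr q.castSucc)) = (none : Option (Tau L)) then
        z (Sum.inr q) * xx z (chi (Sum.inr q)) else 0) = 0 :=
      sum_eq_zero fun e _ => if_neg (by simp)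
    rw [s1, s2, s4, s5, add_zero, add_zero, zero_add, if_pos rfl]
    show Xf L (z1 z) (GG z) 0 0 + (z (Sum.inl (Sum.inr none)) * 1 + 0) = _
    rw [Xf_zero, mul_one, add_zero, add_comm]
    congr 1
    rw [← Fin.sum_univ_eq_sum_range (fun r => Ff L (z1 z) 0 r * GG z r)]
    refine sum_congr rfl fun r _ => ?_
    rw [GG, dif_pos r.2, mul_sum]
    refine sum_congr rfl fun c _ => ?_
    ring
  · rintro (n | n | b)
    · exact hx_row z n
    · exact hx_col z n
    · exact hx_bit z b

end Weights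

end Pool.Agent.Helper97.Form
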